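import Mathlib
import Pool.Agent.Helper35.TMain

set_option autoImplicit false

namespace Pool.Agent.TH870.W

open Polynomial Pool.Agent.Helper35

/-- The counting step: for every prime `p` large enough and every real `θ` there is a translate
`θ + n/N` in the given interval, which is not too close to algebraic numbers of low height. -/
theorem count_step (k : ℕ) : ∃ w0 : ℝ, 0 < w0 ∧ ∀ w : ℝ, 0 < w →
    w ≤ w0 → ∀ a : ℝ, 0 ≤ a → a + w ≤ 1 → ∃ p0 : ℕ, ∀ p : ℕ, p.Prime → p0 ≤ p → ∀ θ : ℝ, ∃ n : ℤ,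
    a ≤ θ + (n : ℝ) / ((p ^ (4 * (k + 2) ^ 2 + 1) : ℕ) : ℝ) ∧
    θ + (n : ℝ) / ((p ^ (4 * (k + 2) ^ 2 + 1) : ℕ) : ℝ) ≤ a + w ∧
    (∀ P : ℤ[X], IrrQ P → P.natDegree ≤ k →
      1 ≤ w * (ht P : ℝ) ^ (36 * (P.natDegree + 1)) →
      (ht P) ^ (2 * (P.natDegree + 1)) ≤ p ^ (4 * (k + 2) ^ 2 + 1) →
      2 < |aeval (θ + (n : ℝ) / ((p ^ (4 * (k + 2) ^ 2 + 1) : ℕ) : ℝ)) P| *
        (ht P : ℝ) ^ (40 * (P.natDegree + 1))) ∧
    (∀ P : ℤ[X], IrrQ P → P.natDegree ≤ k → ∀ h : ℕ, 2 * P.natDegree + 2 ≤ h →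
      4 * h ≤ (4 * (k + 2) ^ 2 + 1) * P.natDegree → ht P ≤ p ^ (h + 1) →
      1 < |aeval (θ + (n : ℝ) / ((p ^ (4 * (k + 2) ^ 2 + 1) : ℕ) : ℝ)) P| *
        (p : ℝ) ^ (10 * (P.natDegree + 1) * h)) := by
  classical
  set A : ℕ := 4 * (k + 2) ^ 2 + 1 with hA
  have hA6 : 6 ≤ A := by
    have : 2 ^ 2 ≤ (k + 2) ^ 2 := Nat.pow_le_pow_left (by omega) 2
    omega
  set SK : ℝ := ∑ m ∈ Finset.range (k + 1), Kc m with hSK
  set SC : ℝ := ∑ m ∈ Finset.range (k + 1), cc m with hSC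
  set SD : ℝ := ∑ m ∈ Finset.range (k + 1), (m : ℝ) * 3 ^ (m + 1) with hSD
  set SS : ℝ := ∑ m ∈ Finset.range (k + 1), Sc m with hSS
  have hKnn : ∀ m, 0 ≤ Kc m := fun m => by unfold Kc; positivity
  have hSK0 : 0 ≤ SK := Finset.sum_nonneg (fun m _ => hKnn m)
  have hSC0 : 0 ≤ SC := Finset.sum_nonneg (fun m _ => cc_nonneg m)
  have hSD0 : 0 ≤ SD := Finset.sum_nonneg (fun m _ => by positivity)
  have hSS0 : 0 ≤ SS := Finset.sum_nonneg (fun m _ => Sc_nonneg m)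
  set Y : ℝ := 2 * SK + 64 * SC + 1 with hY
  have hY1 : 1 ≤ Y := by rw [hY]; linarith
  refine ⟨1 / Y ^ 36, by positivity, fun w hwpos hw a ha haw => ?_⟩
  have hwY : w * Y ^ 36 ≤ 1 := by
    rw [le_div_iff₀ (by positivity)] at hw
    exact hw
  have hw1 : w ≤ 1 := by linarith
  set L : ℕ := 96 * (k + 1) * (A * (k + 1) + 1) with hL
  have hLr : (L : ℝ) = 96 * ((k : ℝ) + 1) * (A * ((k : ℝ) + 1) + 1) := by
    rw [hL]; push_cast; ring
  have hLpos : (0 : ℝ) < L := by rw [hLr]; positivity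
  refine ⟨L + ⌈(L : ℝ) / w⌉₊ + ⌈SS⌉₊ + ⌈32 * SD / w⌉₊ + ⌈64 / w⌉₊ + 64, fun p hp hpbig θ => ?_⟩
  have hp1r : (1 : ℝ) < p := by exact_mod_cast hp.one_lt
  have hp0r : (0 : ℝ) < p := by linarith
  have hceil : ∀ x : ℝ, (⌈x⌉₊ : ℕ) ≤ p → x ≤ p := fun x hx =>
    (Nat.le_ceil x).trans (by exact_mod_cast hx)
  have hpL : L ≤ p := by omega
  have hpLw : (L : ℝ) ≤ w * p := by
    have h1 := hceil ((L : ℝ) / w) (by omega)
    rw [div_le_iff₀ hwpos] at h1
    linarith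
  have hpSS : SS < p := by
    have h1 : (⌈SS⌉₊ : ℝ) + 1 ≤ p := by exact_mod_cast (by omega : ⌈SS⌉₊ + 1 ≤ p)
    have := Nat.le_ceil SS
    linarith
  have hpSD : 32 * SD / w ≤ p := hceil _ (by omega)
  have hp64w : 64 ≤ w * p := by
    have h1 := hceil (64 / w) (by omega)
    rw [div_le_iff₀ hwpos] at h1
    linarith
  have hp64 : (64 : ℝ) ≤ p := by exact_mod_cast (by omega : 64 ≤ p)
  set N : ℕ := p ^ A with hN
  have hN1 : 1 ≤ N := Nat.one_le_iff_ne_zero.mpr (pow_ne_zero A hp.ne_zero)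
  have hNpos : 0 < N := hN1
  have hNrpos : (0 : ℝ) < N := by exact_mod_cast hNpos
  have hNr : (N : ℝ) = (p : ℝ) ^ A := by rw [hN]; push_cast; rfl
  have hpN : (p : ℝ) ≤ N := by rw [hNr]; exact le_self_pow₀ hp1r.le (by omega)
  have hwN : 64 ≤ w * N := by
    calc (64 : ℝ) ≤ w * p := hp64w
      _ ≤ w * N := by gcongr
  by_contra hcon
  push Not at hcon
  set All := Finset.Icc ⌈(a - θ) * N⌉ ⌊(a - θ + w) * N⌋ with hAll
  have hmem : ∀ n ∈ All, a ≤ θ + (n : ℝ) / N ∧ θ + (n : ℝ) / N ≤ a + w := by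
    intro n hn
    rw [hAll, Finset.mem_Icc] at hn
    have h1 : a - θ ≤ (n : ℝ) / N := by
      rw [le_div_iff₀ hNrpos]; exact Int.ceil_le.mp hn.1
    have h2 : (n : ℝ) / N ≤ a - θ + w := by
      rw [div_le_iff₀ hNrpos]; exact Int.le_floor.mp hn.2
    constructor <;> linarith
  have habs : ∀ n ∈ All, |θ + (n : ℝ) / N| ≤ 1 := by
    intro n hn
    obtain ⟨h1, h2⟩ := hmem n hn
    rw [abs_le]; constructor <;> linarith
  have hcardAll : w * N - 1 ≤ (All.card : ℝ) := by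
    rw [hAll, Int.card_Icc]
    have h1 : ((⌊(a - θ + w) * N⌋ + 1 - ⌈(a - θ) * N⌉ : ℤ) : ℝ) ≤
        (((⌊(a - θ + w) * N⌋ + 1 - ⌈(a - θ) * N⌉).toNat : ℕ) : ℝ) := by
      exact_mod_cast Int.self_le_toNat _
    refine le_trans ?_ h1
    push_cast
    have h2 := Int.lt_floor_add_one ((a - θ + w) * N)
    have h3 := Int.ceil_lt_add_one ((a - θ) * N)
    linarith
  set LB : ℕ → Finset ℤ := fun m => All.filter (fun n : ℤ => ∃ P : ℤ[X], IrrQ P ∧
    P.natDegree = m ∧ 1 ≤ w * (ht P : ℝ) ^ (36 * (m + 1)) ∧ (ht P) ^ (2 * (m + 1)) ≤ N ∧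
      |aeval (θ + (n : ℝ) / N) P| ≤ 2 / (ht P : ℝ) ^ ((36 + 4) * (m + 1))) with hLB
  set SB : ℕ × ℕ → Finset ℤ := fun q => All.filter (fun n : ℤ => ∃ P : ℤ[X], IrrQ P ∧
    P.natDegree = q.1 ∧ ht P ≤ p ^ (q.2 + 1) ∧
      |aeval (θ + (n : ℝ) / (p : ℝ) ^ A) P| ≤ 1 / (p : ℝ) ^ (10 * (q.1 + 1) * q.2)) with hSB
  set Lev : Finset (ℕ × ℕ) := (Finset.Icc 1 k ×ˢ Finset.Icc 0 (A * k)).filter
    (fun q => 2 * q.1 + 2 ≤ q.2 ∧ 4 * q.2 ≤ A * q.1) with hLev
  have hsub : All ⊆ (Finset.Icc 1 k).biUnion LB ∪ Lev.biUnion SB := by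
    intro n hn
    obtain ⟨hn1, hn2⟩ := hmem n hn
    rw [Finset.mem_union, Finset.mem_biUnion, Finset.mem_biUnion]
    by_cases hlow : ∀ P : ℤ[X], IrrQ P → P.natDegree ≤ k →
      1 ≤ w * (ht P : ℝ) ^ (36 * (P.natDegree + 1)) → (ht P) ^ (2 * (P.natDegree + 1)) ≤ N →
      2 < |aeval (θ + (n : ℝ) / N) P| * (ht P : ℝ) ^ (40 * (P.natDegree + 1))
    · right
      obtain ⟨P, hP1, hP2, h, hh1, hh2, hh3, hh4⟩ := hcon n hn1 hn2 hlow
      refine ⟨(P.natDegree, h), ?_, ?_⟩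
      · rw [hLev, Finset.mem_filter, Finset.mem_product, Finset.mem_Icc, Finset.mem_Icc]
        refine ⟨⟨⟨hP1.natDegree_pos, hP2⟩, Nat.zero_le _, ?_⟩, hh1, hh2⟩
        have : A * P.natDegree ≤ A * k := Nat.mul_le_mul_left _ hP2
        simp only
        omega
      · rw [hSB, Finset.mem_filter]
        refine ⟨hn, P, hP1, rfl, hh3, ?_⟩
        rw [← hNr, le_div_iff₀ (by positivity)]
        exact hh4
    · left
      push Not at hlow
      obtain ⟨P, hP1, hP2, hP3, hP4, hP5⟩ := hlow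
      refine ⟨P.natDegree, Finset.mem_Icc.mpr ⟨hP1.natDegree_pos, hP2⟩, ?_⟩
      rw [hLB, Finset.mem_filter]
      refine ⟨hn, P, hP1, rfl, hP3, hP4, ?_⟩
      have hhp : (0 : ℝ) < ht P := by exact_mod_cast ht_pos hP1.ne_zero
      rw [le_div_iff₀ (by positivity)]
      exact hP5
  have hLBcard : ∀ m ∈ Finset.Icc 1 k, ((LB m).card : ℝ) ≤
      2 * cc m * N * w / Y + m * 3 ^ (m + 1) * N / (Nat.sqrt (Nat.sqrt N)) := by
    intro m hm
    rw [Finset.mem_Icc] at hm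
    refine low_count' θ m hm.1 36 (by norm_num) N hNpos w Y hwpos hY1 hwY ?_ (LB m) ?_
    · have h1 : Kc m ≤ SK := Finset.single_le_sum (f := Kc) (fun i _ => hKnn i)
        (Finset.mem_range.mpr (by omega))
      rw [hY]; linarith
    · intro n hn
      rw [hLB, Finset.mem_filter] at hn
      exact ⟨habs n hn.1, hn.2⟩
  have hSBcard : ∀ q ∈ Lev, ((SB q).card : ℝ) ≤ 3 * (w * N) / L := by
    intro q hq
    rw [hLev, Finset.mem_filter, Finset.mem_product, Finset.mem_Icc, Finset.mem_Icc] at hq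
    obtain ⟨⟨⟨hq1, hq2⟩, _, _⟩, hq3, hq4⟩ := hq
    have hScm : Sc q.1 < p := by
      have h1 : Sc q.1 ≤ SS := Finset.single_le_sum (f := Sc) (fun i _ => Sc_nonneg i)
        (Finset.mem_range.mpr (by omega))
      linarith
    have key := shift_count θ q.1 p q.2 A L hq1 hp hq3 hScm hA6 hq4 hpL a w ha hwpos haw hpLw
      (SB q) (by
        intro n hn
        rw [hSB, Finset.mem_filter] at hn
        obtain ⟨g1, g2⟩ := hmem n hn.1
        rw [← hNr]
        exact ⟨g1, g2, by rw [hNr]; exact hn.2⟩)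
    rw [← hNr] at key
    rw [le_div_iff₀ hLpos]
    linarith
  have hcardle : (All.card : ℝ) ≤ (∑ m ∈ Finset.Icc 1 k, ((LB m).card : ℝ) +
      ∑ q ∈ Lev, ((SB q).card : ℝ)) := by
    have h1 : All.card ≤ (∑ m ∈ Finset.Icc 1 k, (LB m).card +
        ∑ q ∈ Lev, (SB q).card) :=
      (Finset.card_le_card hsub).trans ((Finset.card_union_le _ _).trans
        (add_le_add Finset.card_biUnion_le Finset.card_biUnion_le))
    exact_mod_cast h1
  have hT4 : (p : ℝ) ≤ (Nat.sqrt (Nat.sqrt N) : ℝ) := by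
    exact_mod_cast sqrt_sqrt_pow p A (by omega) hp.one_lt.le
  have hT4pos : (0 : ℝ) < (Nat.sqrt (Nat.sqrt N) : ℝ) := lt_of_lt_of_le hp0r hT4
  have hs1 : ∑ m ∈ Finset.Icc 1 k, ((LB m).card : ℝ) ≤ w * N / 32 + w * N / 32 := by
    have hsubset : Finset.Icc 1 k ⊆ Finset.range (k + 1) := by
      intro m hm
      rw [Finset.mem_Icc] at hm
      exact Finset.mem_range.mpr (by omega)
    calc ∑ m ∈ Finset.Icc 1 k, ((LB m).card : ℝ)
        ≤ ∑ m ∈ Finset.Icc 1 k, (2 * cc m * N * w / Y +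
          m * 3 ^ (m + 1) * N / (Nat.sqrt (Nat.sqrt N))) := Finset.sum_le_sum hLBcard
      _ ≤ ∑ m ∈ Finset.range (k + 1), (2 * cc m * N * w / Y +
          m * 3 ^ (m + 1) * N / (Nat.sqrt (Nat.sqrt N))) := by
          apply Finset.sum_le_sum_of_subset_of_nonneg hsubset
          intro m _ _
          have := cc_nonneg m
          positivity
      _ = 2 * SC * N * w / Y + SD * N / (Nat.sqrt (Nat.sqrt N)) := by
          rw [Finset.sum_add_distrib, hSC, hSD, Finset.mul_sum, Finset.sum_mul, Finset.sum_mul,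
            Finset.sum_div, Finset.sum_mul, Finset.sum_div]
      _ ≤ w * N / 32 + w * N / 32 := by
          have h1 : 2 * SC * N * w / Y ≤ w * N / 32 := by
            rw [div_le_div_iff₀ (by linarith) (by norm_num)]
            have h2 : 64 * SC ≤ Y := by rw [hY]; linarith
            calc 2 * SC * N * w * 32 = (w * N) * (64 * SC) := by ring
              _ ≤ (w * N) * Y := by gcongr
          have h4 : SD * N / (Nat.sqrt (Nat.sqrt N)) ≤ w * N / 32 := by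
            rw [div_le_div_iff₀ hT4pos (by norm_num)]
            rw [div_le_iff₀ hwpos] at hpSD
            have h5 : 32 * SD ≤ w * (Nat.sqrt (Nat.sqrt N) : ℝ) := by
              calc 32 * SD ≤ p * w := hpSD
                _ ≤ (Nat.sqrt (Nat.sqrt N) : ℝ) * w := by gcongr
                _ = _ := mul_comm _ _
            calc SD * N * 32 = N * (32 * SD) := by ring
              _ ≤ N * (w * (Nat.sqrt (Nat.sqrt N) : ℝ)) := by gcongr
              _ = _ := by ring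
          linarith
  have hs2 : ∑ q ∈ Lev, ((SB q).card : ℝ) ≤ w * N / 32 := by
    have hLevcard : (Lev.card : ℝ) ≤ ((k : ℝ) + 1) * (A * ((k : ℝ) + 1) + 1) := by
      have h1 : Lev.card ≤ k * (A * k + 1) := by
        refine (Finset.card_filter_le _ _).trans ?_
        rw [Finset.card_product, Nat.card_Icc, Nat.card_Icc]
        simp
      have h2 : (Lev.card : ℝ) ≤ k * (A * k + 1) := by exact_mod_cast h1
      refine h2.trans ?_
      gcongr
      · linarith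
      · linarith
    calc ∑ q ∈ Lev, ((SB q).card : ℝ) ≤ ∑ q ∈ Lev, (3 * (w * N) / L) :=
          Finset.sum_le_sum hSBcard
      _ = Lev.card * (3 * (w * N) / L) := by rw [Finset.sum_const, nsmul_eq_mul]
      _ ≤ (((k : ℝ) + 1) * (A * ((k : ℝ) + 1) + 1)) * (3 * (w * N) / L) := by gcongr
      _ = w * N / 32 := by
          rw [hLr]
          field_simp
          ring
  linarith

/-- Goodness of a stage, with an abstract hypothesis in the high range. -/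
theorem good_of' (k p A : ℕ) (hp : p.Prime)
    (hA : A = 4 * (k + 2) ^ 2 + 1) (w α : ℝ) (S : ℤ[X]) (hSirr : IrrQ S) (hSprim : S.IsPrimitive)
    (hSroot : aeval α S = 0)
    (hpk : 4 * (k + 1) ^ 2 + 2 ≤ p)
    (hα0 : 0 ≤ α) (hα1 : α ≤ 1)
    (hlow : ∀ P : ℤ[X], IrrQ P → P.natDegree ≤ k →
      1 ≤ w * (ht P : ℝ) ^ (36 * (P.natDegree + 1)) → (ht P) ^ (2 * (P.natDegree + 1)) ≤ p ^ A →
      2 < |aeval α P| * (ht P : ℝ) ^ (40 * (P.natDegree + 1)))
    (hshift : ∀ P : ℤ[X], IrrQ P → P.natDegree ≤ k → ∀ h : ℕ, 2 * P.natDegree + 2 ≤ h →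
      4 * h ≤ A * P.natDegree → ht P ≤ p ^ (h + 1) →
      1 < |aeval α P| * (p : ℝ) ^ (10 * (P.natDegree + 1) * h))
    (r : ℝ) (hr0 : 0 < r) (hr : r * ((p ^ A : ℕ) : ℝ) ^ 22 ≤ 1)
    (hhigh : ∀ P : ℤ[X], IrrQ P → P.natDegree ≤ k → aeval α P ≠ 0 →
      ((p ^ A : ℕ) : ℝ) ^ P.natDegree ≤ (ht P : ℝ) ^ 4 → (p : ℝ) ≤ ht P →
      r * (ht P : ℝ) ^ (36 * (P.natDegree + 1)) < 2 →
      2 ≤ |aeval α P| * (ht P : ℝ) ^ (25 * (P.natDegree + 1))) :
    Good k w r α S := by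
  have hA1 : 1 ≤ A := by omega
  set N : ℕ := p ^ A with hN
  intro P hP hPk hPw hPr
  by_cases hP0 : aeval α P = 0
  · left
    exact eq_C_mul_of_root _ P hSirr hSprim hP α hSroot hP0
  right
  intro ξ hξ1 hξ2 hξle
  have hhighP := hhigh P hP hPk hP0
  set m := P.natDegree with hm
  have hm1 : 1 ≤ m := hP.natDegree_pos
  set H : ℝ := (ht P : ℝ) with hH
  have hH1 : 1 ≤ ht P := ht_pos hP.ne_zero
  have hHr : 1 ≤ H := by rw [hH]; exact_mod_cast hH1
  have hH0 : 0 < H := by linarith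
  have hp1 : (1 : ℝ) < p := by exact_mod_cast hp.one_lt
  have hpr : (4 * ((k : ℝ) + 1) ^ 2 + 2) ≤ p := by exact_mod_cast hpk
  have hmk : (m : ℝ) ≤ k := by exact_mod_cast hPk
  have hm2 : 4 * ((m : ℝ) + 1) ^ 2 ≤ p := by
    have : ((m : ℝ) + 1) ^ 2 ≤ ((k : ℝ) + 1) ^ 2 := by gcongr
    linarith
  have hNr : (N : ℝ) = (p : ℝ) ^ A := by rw [hN]; push_cast; rfl
  have hN1 : 1 ≤ N := Nat.one_le_iff_ne_zero.mpr (pow_ne_zero A hp.ne_zero)
  have hN1r : (1 : ℝ) ≤ N := by exact_mod_cast hN1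
  have hpN : (p : ℝ) ≤ N := by rw [hNr]; exact le_self_pow₀ hp1.le (by omega)
  have hαabs : |α| ≤ 1 := by rw [abs_of_nonneg hα0]; exact hα1
  have hξabs : |ξ| ≤ 1 := by rw [abs_le]; constructor <;> linarith
  -- perturbation
  have hpert : |aeval α P| - ((m : ℝ) + 1) ^ 2 * H * (2 * r) ≤ |aeval ξ P| := by
    have h1 := abs_aeval_sub_le P ξ α hξabs hαabs
    rw [← hm, ← hH] at h1
    have h2 : |ξ - α| ≤ 2 * r := by rw [abs_of_nonneg (by linarith)]; linarith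
    have h3 : |aeval α P| ≤ |aeval ξ P| + |aeval ξ P - aeval α P| := by
      have := abs_sub_abs_le_abs_sub (aeval α P) (aeval ξ P)
      rw [abs_sub_comm] at this
      linarith
    have h4 : ((m : ℝ) + 1) ^ 2 * H * |ξ - α| ≤ ((m : ℝ) + 1) ^ 2 * H * (2 * r) := by gcongr
    linarith
  by_cases hcase : (ht P) ^ (2 * (m + 1)) ≤ N
  · -- low regime
    have h1 := hlow P hP hPk hPw hcase
    rw [← hm, ← hH] at h1
    have hcr : H ^ (2 * (m + 1)) ≤ N := by rw [hH]; exact_mod_cast hcase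
    have h2 : H ^ (40 * (m + 1)) ≤ (N : ℝ) ^ 20 := by
      have e1 : H ^ (40 * (m + 1)) = (H ^ (2 * (m + 1))) ^ 20 := by
        rw [← pow_mul]; congr 1; ring
      rw [e1]; gcongr
    have h3 : H ≤ N := (le_self_pow₀ hHr (by omega)).trans hcr
    have h4 : ((m : ℝ) + 1) ^ 2 * H * (2 * r) * H ^ (40 * (m + 1)) ≤ 1 := by
      calc ((m : ℝ) + 1) ^ 2 * H * (2 * r) * H ^ (40 * (m + 1))
          ≤ ((m : ℝ) + 1) ^ 2 * N * (2 * r) * (N : ℝ) ^ 20 := by gcongr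
        _ = (2 * ((m : ℝ) + 1) ^ 2) * (r * (N : ℝ) ^ 21) := by ring
        _ ≤ N * (r * (N : ℝ) ^ 21) := by
            have : 2 * ((m : ℝ) + 1) ^ 2 ≤ N := by
              have : 0 ≤ ((m : ℝ) + 1) ^ 2 := by positivity
              linarith
            gcongr
        _ = r * (N : ℝ) ^ 22 := by ring
        _ ≤ 1 := hr
    have h5 : (|aeval α P| - ((m : ℝ) + 1) ^ 2 * H * (2 * r)) * H ^ (40 * (m + 1)) ≤
        |aeval ξ P| * H ^ (40 * (m + 1)) := by gcongr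
    rw [sub_mul] at h5
    linarith
  · -- the other regimes
    push Not at hcase
    -- level
    obtain ⟨h, hh1, hh2⟩ : ∃ h : ℕ, p ^ h ≤ ht P ∧ ht P < p ^ (h + 1) :=
      ⟨Nat.log p (ht P), Nat.pow_log_le_self p (by omega), Nat.lt_pow_succ_log_self hp.one_lt _⟩
    have hhbig : 2 * m + 2 ≤ h := by
      by_contra hc
      push Not at hc
      have h1 : (ht P) ^ (2 * (m + 1)) < (p ^ (h + 1)) ^ (2 * (m + 1)) :=
        Nat.pow_lt_pow_left hh2 (by omega)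
      rw [← pow_mul] at h1
      have h2 : p ^ A < p ^ ((h + 1) * (2 * (m + 1))) := lt_trans hcase h1
      have h3 := (Nat.pow_lt_pow_iff_right hp.one_lt).mp h2
      have h4 : (h + 1) * (2 * (m + 1)) ≤ (2 * m + 2) * (2 * (m + 1)) :=
        Nat.mul_le_mul_right _ (by omega)
      have h5 : (2 * m + 2) * (2 * (m + 1)) ≤ 4 * (k + 2) ^ 2 := by nlinarith
      omega
    have hph : (p : ℝ) ^ h ≤ H := by rw [hH]; exact_mod_cast hh1
    have hpH : (p : ℝ) ≤ H := (le_self_pow₀ hp1.le (by omega)).trans hph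
    have h2H : 2 ≤ H := by
      have : (2 : ℝ) ≤ p := by exact_mod_cast hp.two_le
      linarith
    -- key lower bound at α
    have hkey : 2 ≤ |aeval α P| * H ^ (25 * (m + 1)) := by
      by_cases hs : 4 * h ≤ A * m
      · have h1 := hshift P hP hPk h hhbig hs hh2.le
        rw [← hm] at h1
        have h2 : (p : ℝ) ^ (10 * (m + 1) * h) ≤ H ^ (10 * (m + 1)) := by
          have e1 : (p : ℝ) ^ (10 * (m + 1) * h) = ((p : ℝ) ^ h) ^ (10 * (m + 1)) := by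
            rw [← pow_mul, mul_comm]
          rw [e1]; gcongr
        have h3 : 1 ≤ |aeval α P| * H ^ (10 * (m + 1)) := by
          refine h1.le.trans ?_
          gcongr
        calc (2 : ℝ) ≤ H := h2H
          _ = 1 * H := (one_mul _).symm
          _ ≤ (|aeval α P| * H ^ (10 * (m + 1))) * H := by gcongr
          _ = |aeval α P| * H ^ (10 * (m + 1) + 1) := by ring
          _ ≤ _ := by
              have : H ^ (10 * (m + 1) + 1) ≤ H ^ (25 * (m + 1)) :=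
                pow_le_pow_right₀ hHr (by omega)
              gcongr
      · push Not at hs
        have hNH : (N : ℝ) ^ m ≤ H ^ 4 := by
          calc (N : ℝ) ^ m = (p : ℝ) ^ (A * m) := by rw [hNr, pow_mul]
            _ ≤ (p : ℝ) ^ (4 * h) := pow_le_pow_right₀ hp1.le hs.le
            _ = ((p : ℝ) ^ h) ^ 4 := by rw [← pow_mul, mul_comm]
            _ ≤ H ^ 4 := by gcongr
        exact hhighP hNH hpH hPr
    have h4 : ((m : ℝ) + 1) ^ 2 * H * (2 * r) * H ^ (25 * (m + 1)) ≤ 1 := by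
      have h5 : H ^ (36 * (m + 1)) = H ^ (25 * (m + 1) + 1) * H ^ (11 * m + 10) := by
        rw [← pow_add]; congr 1; ring
      have h6 : 4 * ((m : ℝ) + 1) ^ 2 ≤ H ^ (11 * m + 10) :=
        (hm2.trans hpH).trans (le_self_pow₀ hHr (by omega))
      have h7 : r * (H ^ (25 * (m + 1) + 1) * H ^ (11 * m + 10)) < 2 := by rw [← h5]; exact hPr
      have h8 : 0 < r * H ^ (25 * (m + 1) + 1) := by positivity
      have h9 : (r * H ^ (25 * (m + 1) + 1)) * (4 * ((m : ℝ) + 1) ^ 2) ≤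
          (r * H ^ (25 * (m + 1) + 1)) * H ^ (11 * m + 10) := by gcongr
      have h10 : ((m : ℝ) + 1) ^ 2 * H * (2 * r) * H ^ (25 * (m + 1)) =
          (r * H ^ (25 * (m + 1) + 1)) * (4 * ((m : ℝ) + 1) ^ 2) / 2 := by ring
      rw [h10]
      linarith
    have h5 : (|aeval α P| - ((m : ℝ) + 1) ^ 2 * H * (2 * r)) * H ^ (25 * (m + 1)) ≤
        |aeval ξ P| * H ^ (25 * (m + 1)) := by gcongr
    rw [sub_mul] at h5
    calc (1 : ℝ) ≤ |aeval ξ P| * H ^ (25 * (m + 1)) := by linarith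
      _ ≤ |aeval ξ P| * H ^ (40 * (m + 1)) := by
          have : H ^ (25 * (m + 1)) ≤ H ^ (40 * (m + 1)) := pow_le_pow_right₀ hHr (by omega)
          gcongr

end Pool.Agent.TH870.W
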