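import Mathlib

set_option autoImplicit false

namespace Pool.Agent.TH870.W

open Polynomial

/-- Determinant lower bound: an integer vector against a nonsingular integer matrix whose columns
are small at `θ`. -/
theorem meas_matrix (m : ℕ) (A : Matrix (Fin (m + 1)) (Fin (m + 1)) ℤ) (hdet : A.det ≠ 0)
    (b : Fin (m + 1) → ℤ) (hb : b ≠ 0) (θ B H ε : ℝ) (hB0 : 0 ≤ B) (hH0 : 0 ≤ H) (hε0 : 0 ≤ ε)
    (hB : ∀ i j, |(A i j : ℝ)| ≤ B) (hH : ∀ i, |(b i : ℝ)| ≤ H)
    (hεA : ∀ j, |∑ i : Fin (m + 1), θ ^ (i : ℕ) * (A i j : ℝ)| ≤ ε * B)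
    (hεb : |∑ i : Fin (m + 1), θ ^ (i : ℕ) * (b i : ℝ)| ≤ ε * H) :
    1 ≤ ((m + 1).factorial : ℝ) * (H * B ^ m * ε) := by
  classical
  obtain ⟨j, hj⟩ : ∃ j, (A.updateCol j b).det ≠ 0 := by
    by_contra hcon
    push Not at hcon
    have h1 : A.cramer b = 0 := by
      funext j
      rw [Matrix.cramer_apply]
      exact hcon j
    have h2 := Matrix.mulVec_cramer A b
    rw [h1, Matrix.mulVec_zero] at h2
    rcases smul_eq_zero.mp h2.symm with h3 | h3
    · exact hdet h3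
    · exact hb h3
  set A1 := A.updateCol j b with hA1
  set S : Matrix (Fin (m + 1)) (Fin (m + 1)) ℝ := A1.map (Int.cast : ℤ → ℝ) with hS
  have hSdet : S.det = ((A1.det : ℤ) : ℝ) := by
    rw [hS]
    exact (Int.cast_det (R := ℝ) A1).symm
  have h1 : 1 ≤ |S.det| := by
    rw [hSdet]
    have := Int.one_le_abs hj
    exact_mod_cast this
  set S1 := S.updateRow 0 (∑ k : Fin (m + 1), (θ ^ (k : ℕ)) • S k) with hS1
  have hdet1 : S1.det = S.det := by
    rw [hS1, Matrix.det_updateRow_sum S 0 (fun k : Fin (m + 1) => θ ^ (k : ℕ))]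
    simp
  set κ : Fin (m + 1) → ℝ := fun i => if i = j then H else B with hκ
  have hκ0 : ∀ i, 0 ≤ κ i := by
    intro i
    simp only [hκ]
    split_ifs <;> assumption
  have hκprod : ∏ i, κ i = H * B ^ m := by
    rw [← Finset.mul_prod_erase Finset.univ κ (Finset.mem_univ j)]
    have h2 : κ j = H := by simp [hκ]
    have h3 : ∏ x ∈ Finset.univ.erase j, κ x = B ^ m := by
      rw [Finset.prod_congr rfl (g := fun _ => B) (fun x hx => by
        have : x ≠ j := Finset.ne_of_mem_erase hx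
        simp [hκ, this])]
      rw [Finset.prod_const, Finset.card_erase_of_mem (Finset.mem_univ j), Finset.card_univ,
        Fintype.card_fin]
      simp
    rw [h2, h3]
  have hent : ∀ i i', |S1 i i'| ≤ κ i' * (if i = 0 then ε else 1) := by
    intro i i'
    by_cases hi : i = 0
    · subst hi
      rw [hS1, Matrix.updateRow_self, Finset.sum_apply, if_pos rfl]
      by_cases hi' : i' = j
      · subst hi'
        simp only [hκ, if_true]
        have : ∑ c : Fin (m + 1), ((θ ^ (c : ℕ)) • S c) i' =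
            ∑ i : Fin (m + 1), θ ^ (i : ℕ) * (b i : ℝ) := by
          refine Finset.sum_congr rfl (fun c _ => ?_)
          simp [hS, hA1]
        rw [this, mul_comm]
        exact hεb
      · simp only [hκ, if_neg hi']
        have : ∑ c : Fin (m + 1), ((θ ^ (c : ℕ)) • S c) i' =
            ∑ i : Fin (m + 1), θ ^ (i : ℕ) * (A i i' : ℝ) := by
          refine Finset.sum_congr rfl (fun c _ => ?_)
          simp [hS, hA1, Matrix.updateCol_ne hi']
        rw [this, mul_comm]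
        exact hεA i'
    · rw [hS1, Matrix.updateRow_ne hi, if_neg hi, mul_one]
      by_cases hi' : i' = j
      · subst hi'
        simp only [hκ, if_true]
        have : S i i' = (b i : ℝ) := by simp [hS, hA1]
        rw [this]
        exact hH i
      · simp only [hκ, if_neg hi']
        have : S i i' = (A i i' : ℝ) := by simp [hS, hA1, Matrix.updateCol_ne hi']
        rw [this]
        exact hB i i'
  rw [← hdet1, Matrix.det_apply'] at h1
  refine h1.trans ?_
  calc |∑ σ : Equiv.Perm (Fin (m + 1)), ((Equiv.Perm.sign σ : ℤ) : ℝ) * ∏ i, S1 (σ i) i|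
      ≤ ∑ σ : Equiv.Perm (Fin (m + 1)), |((Equiv.Perm.sign σ : ℤ) : ℝ) * ∏ i, S1 (σ i) i| :=
        Finset.abs_sum_le_sum_abs _ _
    _ ≤ ∑ σ : Equiv.Perm (Fin (m + 1)), H * B ^ m * ε := by
        refine Finset.sum_le_sum (fun σ _ => ?_)
        rw [abs_mul]
        have hs : |((Equiv.Perm.sign σ : ℤ) : ℝ)| = 1 := by
          rcases Int.units_eq_one_or (Equiv.Perm.sign σ) with h | h <;> simp [h]
        rw [hs, one_mul, Finset.abs_prod]
        calc ∏ i, |S1 (σ i) i| ≤ ∏ i, (κ i * (if σ i = 0 then ε else 1)) :=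
              Finset.prod_le_prod (fun i _ => abs_nonneg _) (fun i _ => hent _ _)
          _ = (∏ i, κ i) * ∏ i, (if σ i = 0 then ε else 1) := Finset.prod_mul_distrib
          _ = H * B ^ m * ε := by
              rw [hκprod]
              congr 1
              rw [Equiv.prod_comp σ (fun i => if i = 0 then ε else (1 : ℝ))]
              simp
    _ = ((m + 1).factorial : ℝ) * (H * B ^ m * ε) := by
        rw [Finset.sum_const, Finset.card_univ, Fintype.card_perm, Fintype.card_fin, nsmul_eq_mul]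

/-- Common denominators. -/
theorem common_den {ι : Type*} [Fintype ι] (f : ι → ℚ) :
    ∃ D : ℕ, 1 ≤ D ∧ ∃ z : ι → ℤ, ∀ i, (z i : ℚ) = D * f i := by
  classical
  refine ⟨∏ i, (f i).den, Finset.one_le_prod' (fun i _ => (f i).pos), ?_⟩
  have h : ∀ i, ∃ z : ℤ, (z : ℚ) = ((∏ i, (f i).den : ℕ) : ℚ) * f i := by
    intro i
    obtain ⟨k, hk⟩ : (f i).den ∣ ∏ i, (f i).den := Finset.dvd_prod_of_mem _ (Finset.mem_univ i)
    refine ⟨k * (f i).num, ?_⟩
    rw [hk]
    push_cast
    have h2 : (f i) * (f i).den = (f i).num := Rat.mul_den_eq_num (f i)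
    rw [← h2]; ring
  choose z hz using h
  exact ⟨z, hz⟩

theorem bound_of_dvd (p : ℚ[X]) (k : ℕ) (h : X ^ k ∣ p) : ∃ C : ℝ, 0 ≤ C ∧ ∀ x : ℝ, 0 ≤ x → x ≤ 1 →
    |aeval x p| ≤ C * x ^ k := by
  obtain ⟨g, rfl⟩ := h
  refine ⟨∑ i ∈ Finset.range (g.natDegree + 1), |((g.coeff i : ℚ) : ℝ)|,
    Finset.sum_nonneg (fun i _ => abs_nonneg _), fun x hx0 hx1 => ?_⟩
  rw [map_mul, map_pow, aeval_X, abs_mul, abs_of_nonneg (by positivity : 0 ≤ x ^ k), mul_comm]
  gcongr
  rw [aeval_eq_sum_range]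
  refine (Finset.abs_sum_le_sum_abs _ _).trans (Finset.sum_le_sum (fun i _ => ?_))
  rw [Algebra.smul_def, abs_mul]
  have h1 : |x ^ i| ≤ 1 := by
    rw [abs_of_nonneg (by positivity)]; exact pow_le_one₀ hx0 hx1
  calc |(algebraMap ℚ ℝ) (g.coeff i)| * |x ^ i| ≤ |(algebraMap ℚ ℝ) (g.coeff i)| * 1 := by gcongr
    _ = _ := by simp

theorem pow_lip (a b : ℝ) (ha0 : 0 ≤ a) (ha : a ≤ 2) (hb0 : 0 ≤ b) (hb : b ≤ 2) (i : ℕ) :
    |a ^ i - b ^ i| ≤ (i : ℝ) * 2 ^ i * |a - b| := by
  induction i with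
  | zero => simp
  | succ i ih =>
    have e : a ^ (i + 1) - b ^ (i + 1) = a ^ i * (a - b) + (a ^ i - b ^ i) * b := by ring
    rw [e]
    have h1 : |a ^ i| ≤ 2 ^ i := by rw [abs_of_nonneg (by positivity)]; gcongr
    have h3 : 0 ≤ |a - b| := abs_nonneg _
    have h4 : (0 : ℝ) ≤ 2 ^ i := by positivity
    calc |a ^ i * (a - b) + (a ^ i - b ^ i) * b|
        ≤ |a ^ i * (a - b)| + |(a ^ i - b ^ i) * b| := abs_add_le _ _
      _ = |a ^ i| * |a - b| + |a ^ i - b ^ i| * b := by rw [abs_mul, abs_mul, abs_of_nonneg hb0]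
      _ ≤ 2 ^ i * |a - b| + ((i : ℝ) * 2 ^ i * |a - b|) * 2 := by
          gcongr
      _ ≤ 2 ^ (i + 1) * |a - b| + ((i : ℝ) * 2 ^ i * |a - b|) * 2 := by
          gcongr
          · norm_num
          · omega
      _ = ((i + 1 : ℕ) : ℝ) * 2 ^ (i + 1) * |a - b| := by push_cast; ring

end Pool.Agent.TH870.W
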