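import Mathlib

set_option autoImplicit false

namespace Pool.Agent.TH870.W

open Polynomial

/-- The bivariate expression which equals `(y - 1)^(e^2)` when `y^e = 1 + x`. -/
def BB {A : Type*} [CommRing A] (e : ℕ) (x y : A) : A :=
  ∑ k ∈ Finset.range (e ^ 2 + 1),
    ((-1) ^ (e ^ 2 - k) * ((e ^ 2).choose k : A)) * (1 + x) ^ (k / e) * y ^ (k % e)

theorem map_BB {A B : Type*} [CommRing A] [CommRing B] (f : A →+* B) (e : ℕ) (x y : A) :
    f (BB e x y) = BB e (f x) (f y) := by
  simp [BB, map_sum, map_mul, map_pow]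

theorem BB_sub_dvd {A : Type*} [CommRing A] (e : ℕ) (x y y' : A) :
    (y - y') ∣ BB e x y - BB e x y' := by
  unfold BB
  rw [← Finset.sum_sub_distrib]
  apply Finset.dvd_sum
  intro k _
  rw [← mul_sub]
  exact Dvd.dvd.mul_left (sub_dvd_pow_sub_pow y y' _) _

theorem BB_eq {A : Type*} [CommRing A] (e : ℕ) (x u : A) (hu : u ^ e = 1 + x) :
    BB e x u = (u - 1) ^ (e ^ 2) := by
  rw [sub_eq_add_neg, add_pow]
  unfold BB
  refine Finset.sum_congr rfl (fun k _ => ?_)
  rw [← hu, ← pow_mul]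
  have h : u ^ k = u ^ (e * (k / e)) * u ^ (k % e) := by
    rw [← pow_add, Nat.div_add_mod]
  rw [h]
  ring

/-- Truncated Hensel lemma. -/
theorem hensel_trunc {A : Type*} [CommRing A] [Algebra ℚ A] (e : ℕ) (he : 1 ≤ e)
    (K : A[X] → A[X]) (hK : ∀ y y', (y - y') ∣ K y - K y') (J : ℕ) :
    ∃ T : A[X], X ∣ T - 1 ∧ X ^ (J + 1) ∣ T ^ e - (1 + X) - X * K T := by
  induction J with
  | zero =>
    refine ⟨1, by simp, ?_⟩
    rw [zero_add, pow_one, one_pow]
    exact ⟨-(1 + K 1), by ring⟩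
  | succ J ih =>
    obtain ⟨T, ⟨z, hz⟩, ⟨W, hW⟩⟩ := ih
    set c : A := algebraMap ℚ A (1 / e) with hc
    have hec : (e : A) * c = 1 := by
      have h1 : (e : A) = algebraMap ℚ A e := by simp
      rw [h1, hc, ← map_mul]
      have h2 : (e : ℚ) ≠ 0 := by exact_mod_cast (by omega : e ≠ 0)
      rw [mul_one_div_cancel h2, map_one]
    have hecX : (e : A[X]) * C c = 1 := by
      rw [← C_1, ← hec, C_mul]
      simp
    set δ : A[X] := - C c * (X ^ (J + 1) * W) with hδ
    refine ⟨T + δ, ?_, ?_⟩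
    · refine ⟨z + (- C c * (X ^ J * W)), ?_⟩
      rw [hδ]
      have : T = 1 + X * z := by rw [← hz]; ring
      rw [this]; ring
    · obtain ⟨κ, hκ⟩ := Polynomial.powAddExpansion T δ e
      obtain ⟨ρ, hρ⟩ := hK (T + δ) T
      obtain ⟨ν, hν⟩ : X ∣ T ^ (e - 1) - 1 := by
        have := sub_dvd_pow_sub_pow T 1 (e - 1)
        rw [one_pow] at this
        exact (Dvd.intro z hz.symm).trans this
      have h1 : (T + δ) ^ e - (1 + X) - X * K (T + δ) =
          (T ^ e - (1 + X) - X * K T) + (e : A[X]) * δ +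
            ((e : A[X]) * δ * (T ^ (e - 1) - 1) + κ * δ ^ 2 - X * (δ * ρ)) := by
        have e1 : K (T + δ) = K T + δ * ρ := by
          have : T + δ - T = δ := by ring
          rw [this] at hρ
          rw [← hρ]; ring
        rw [hκ, e1]; ring
      have h2 : (T ^ e - (1 + X) - X * K T) + (e : A[X]) * δ = 0 := by
        rw [hW, hδ]
        have : (e : A[X]) * (-C c * (X ^ (J + 1) * W)) =
            - (((e : A[X]) * C c) * (X ^ (J + 1) * W)) := by ring
        rw [this, hecX]; ring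
      rw [h1, h2, zero_add, hν]
      refine ⟨(e : A[X]) * (- C c * W) * ν + κ * (C c) ^ 2 * (X ^ J * W ^ 2) - (- C c * W) * ρ, ?_⟩
      rw [hδ]
      ring

end Pool.Agent.TH870.W
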