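import Mathlib
import Pool.Agent.TH870.W.Hens

set_option autoImplicit false

namespace Pool.Agent.TH870.W

open Polynomial

theorem X_pow_dvd_derivative {F : ℚ[X]} {s : ℕ} (h : X ^ (s + 1) ∣ F) : X ^ s ∣ derivative F := by
  obtain ⟨G, rfl⟩ := h
  refine ⟨C (s + 1 : ℚ) * G + X * derivative G, ?_⟩
  rw [derivative_mul, derivative_X_pow]
  push_cast
  ring

/-- The monomials `(1+X)^i t^j`, indexed by one natural number. -/
noncomputable def mu {A : Type*} [CommRing A] (m : ℕ) (t : A[X]) (q : ℕ) : A[X] :=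
  (1 + X) ^ (q / (m + 1)) * t ^ (q % (m + 1))

/-- the exponents -/
def om (e m : ℕ) (q : ℕ) : ℚ := (q / (m + 1) : ℕ) + ((q % (m + 1) : ℕ) : ℚ) / e

theorem om_inj (e m : ℕ) (hm : m < e) (N : ℕ) : Function.Injective (fun q : Fin N => om e m q) := by
  intro a b hab
  change om e m a = om e m b at hab
  unfold om at hab
  have he : (0 : ℚ) < e := by exact_mod_cast (by omega : 0 < e)
  have ha : (a : ℕ) % (m + 1) < e := lt_of_lt_of_le (Nat.mod_lt _ (by omega)) (by omega)
  have hb : (b : ℕ) % (m + 1) < e := lt_of_lt_of_le (Nat.mod_lt _ (by omega)) (by omega)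
  have h1 : ((e * ((a : ℕ) / (m + 1)) + (a : ℕ) % (m + 1) : ℕ) : ℚ) =
      ((e * ((b : ℕ) / (m + 1)) + (b : ℕ) % (m + 1) : ℕ) : ℚ) := by
    push_cast
    have h2 := congrArg (fun z : ℚ => e * z) hab
    rw [mul_add, mul_add, mul_div_cancel₀ _ he.ne', mul_div_cancel₀ _ he.ne'] at h2
    exact h2
  have h2 : e * ((a : ℕ) / (m + 1)) + (a : ℕ) % (m + 1) =
      e * ((b : ℕ) / (m + 1)) + (b : ℕ) % (m + 1) := by exact_mod_cast h1
  have h3 : (a : ℕ) / (m + 1) = (b : ℕ) / (m + 1) := by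
    have h4 : (e * ((a : ℕ) / (m + 1)) + (a : ℕ) % (m + 1)) / e = (a : ℕ) / (m + 1) := by
      rw [Nat.mul_add_div (by omega), Nat.div_eq_of_lt ha, add_zero]
    have h5 : (e * ((b : ℕ) / (m + 1)) + (b : ℕ) % (m + 1)) / e = (b : ℕ) / (m + 1) := by
      rw [Nat.mul_add_div (by omega), Nat.div_eq_of_lt hb, add_zero]
    rw [← h4, ← h5, h2]
  have h6 : (a : ℕ) % (m + 1) = (b : ℕ) % (m + 1) := by
    rw [h3] at h2; omega
  apply Fin.ext
  rw [← Nat.div_add_mod (a : ℕ) (m + 1), ← Nat.div_add_mod (b : ℕ) (m + 1), h3, h6]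

/-- the differential equation of the truncated root -/
theorem euler_t (e J : ℕ) (he : 1 ≤ e) (t : ℚ[X]) (ht : X ^ (J + 1) ∣ t ^ e - (1 + X)) :
    X ^ J ∣ C (e : ℚ) * (1 + X) * derivative t - t := by
  obtain ⟨W, hW⟩ := ht
  have h1 : t ^ e = 1 + X + X ^ (J + 1) * W := by rw [← hW]; ring
  have h2 := congrArg derivative h1
  rw [derivative_pow, derivative_add, derivative_add, derivative_one, derivative_X,
    derivative_mul, derivative_X_pow] at h2
  simp only [Nat.add_sub_cancel, zero_add] at h2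
  have hte : t ^ (e - 1) * t = t ^ e := by rw [← pow_succ]; congr 1; omega
  have h3 : (1 + X : ℚ[X]) ≠ 0 := by
    have : (1 + X : ℚ[X]).Monic := by
      rw [add_comm]; exact monic_X_add_C 1
    exact this.ne_zero
  refine ⟨t * (C ((J + 1 : ℕ) : ℚ) * W + X * derivative W) - C (e : ℚ) * derivative t * (X * W), ?_⟩
  apply mul_left_cancel₀ h3
  have h4 : C (e : ℚ) * t ^ (e - 1) * derivative t * t =
      (1 + (C ((J + 1 : ℕ) : ℚ) * X ^ J * W + X ^ (J + 1) * derivative W)) * t := by rw [h2]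
  have h5 : C (e : ℚ) * t ^ (e - 1) * derivative t * t =
      C (e : ℚ) * derivative t * (1 + X + X ^ (J + 1) * W) := by
    rw [← h1, ← hte]; ring
  rw [h5] at h4
  linear_combination (1 + X) * h4

theorem euler_mu (e m J : ℕ) (he : 1 ≤ e) (t : ℚ[X]) (ht : X ^ (J + 1) ∣ t ^ e - (1 + X)) (q : ℕ) :
    X ^ J ∣ (1 + X) * derivative (mu m t q) - C (om e m q) * mu m t q := by
  obtain ⟨V, hV⟩ := euler_t e J he t ht
  have hV' : C (e : ℚ) * (1 + X) * derivative t = t + X ^ J * V := by rw [← hV]; ring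
  set i := q / (m + 1) with hi
  set j := q % (m + 1) with hj
  have he0 : (e : ℚ) ≠ 0 := by exact_mod_cast (by omega : e ≠ 0)
  have hEE : C (e : ℚ) * C ((j : ℚ) / e) = C (j : ℚ) := by
    rw [← C_mul, mul_div_cancel₀ _ he0]
  have hder : (1 + X) * derivative ((1 + X : ℚ[X]) ^ i) = C (i : ℚ) * (1 + X) ^ i := by
    rw [derivative_pow, derivative_add, derivative_one, derivative_X, zero_add, mul_one]
    rcases Nat.eq_zero_or_pos i with h0 | h0
    · rw [h0]; simp
    · have : (1 + X : ℚ[X]) ^ i = (1 + X) ^ (i - 1) * (1 + X) := by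
        rw [← pow_succ]; congr 1; omega
      rw [this]; ring
  have hder2 : (1 + X) * derivative (t ^ j) =
      C ((j : ℚ) / e) * (t ^ j + X ^ J * (V * t ^ (j - 1))) := by
    rw [derivative_pow]
    rcases Nat.eq_zero_or_pos j with h0 | h0
    · rw [h0]; simp
    · have h1 : t ^ j = t ^ (j - 1) * t := by
        rw [← pow_succ]; congr 1; omega
      rw [h1]
      have h2 : (1 + X) * (C (j : ℚ) * t ^ (j - 1) * derivative t) =
          C ((j : ℚ) / e) * t ^ (j - 1) * (C (e : ℚ) * (1 + X) * derivative t) := by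
        rw [← hEE]; ring
      rw [h2, hV']; ring
  refine ⟨C ((j : ℚ) / e) * (1 + X) ^ i * (V * t ^ (j - 1)), ?_⟩
  have hom : C (om e m q) = C (i : ℚ) + C ((j : ℚ) / e) := by
    rw [om, ← C_add]
  unfold mu
  rw [← hi, ← hj, derivative_mul, hom]
  linear_combination t ^ j * hder + (1 + X) ^ i * hder2

theorem vand (e : ℕ) (m N J : ℕ) (hm : m < e) (hJ : N ≤ J) (t : ℚ[X])
    (ht1 : X ∣ t - 1) (ht : X ^ (J + 1) ∣ t ^ e - (1 + X)) (c : Fin N → ℚ)
    (h : X ^ N ∣ ∑ q : Fin N, C (c q) * mu m t q) : c = 0 := by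
  have he : 1 ≤ e := by omega
  set F : ℕ → ℚ[X] := fun k => ∑ q : Fin N, C (c q * om e m q ^ k) * mu m t q with hF
  have hstep : ∀ k, X ^ J ∣ (1 + X) * derivative (F k) - F (k + 1) := by
    intro k
    have e1 : (1 + X) * derivative (F k) - F (k + 1) =
        ∑ q : Fin N, C (c q * om e m q ^ k) *
          ((1 + X) * derivative (mu m t q) - C (om e m q) * mu m t q) := by
      simp only [hF]
      rw [derivative_sum, Finset.mul_sum, ← Finset.sum_sub_distrib]
      refine Finset.sum_congr rfl (fun q _ => ?_)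
      rw [derivative_C_mul, pow_succ, C_mul, C_mul, C_mul]
      ring
    rw [e1]
    apply Finset.dvd_sum
    intro q _
    exact Dvd.dvd.mul_left (euler_mu e m J he t ht q) _
  have hdv : ∀ k, k ≤ N → X ^ (N - k) ∣ F k := by
    intro k
    induction k with
    | zero =>
      intro _
      simp only [hF, pow_zero, mul_one, Nat.sub_zero]
      exact h
    | succ k ih =>
      intro hk
      have h1 := ih (by omega)
      have h2 : X ^ (N - (k + 1)) ∣ derivative (F k) := by
        apply X_pow_dvd_derivative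
        have : N - (k + 1) + 1 = N - k := by omega
        rw [this]; exact h1
      have h3 : X ^ (N - (k + 1)) ∣ (1 + X) * derivative (F k) - F (k + 1) :=
        (pow_dvd_pow X (by omega)).trans (hstep k)
      have h4 : F (k + 1) = (1 + X) * derivative (F k) - ((1 + X) * derivative (F k) - F (k + 1)) := by
        ring
      rw [h4]
      exact dvd_sub (Dvd.dvd.mul_left h2 _) h3
  have ht0 : t.eval 0 = 1 := by
    obtain ⟨z, hz⟩ := ht1
    have := congrArg (fun p : ℚ[X] => p.eval 0) hz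
    simp at this
    linarith
  have hmu0 : ∀ q, (mu m t q).eval 0 = 1 := by
    intro q
    simp [mu, ht0]
  apply Matrix.eq_zero_of_forall_pow_sum_mul_pow_eq_zero (f := fun q : Fin N => om e m q)
    (om_inj e m hm N)
  intro k
  have h1 := hdv k k.2.le
  have h2 : (F k).eval 0 = 0 := by
    have : X ∣ F k := (dvd_pow_self X (by omega : N - k ≠ 0)).trans h1
    rwa [X_dvd_iff, coeff_zero_eq_eval_zero] at this
  simp only [hF] at h2
  rw [eval_finsetSum] at h2
  simpa [hmu0] using h2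

/-- The matrix of the linear system. -/
noncomputable def NM {A : Type*} [CommRing A] (m N : ℕ) (t : A[X]) : Matrix (Fin N) (Fin N) A :=
  Matrix.of fun v q => (mu m t q).coeff v

theorem NM_map {A B : Type*} [CommRing A] [CommRing B] (f : A →+* B) (m N : ℕ) (t : A[X]) :
    (NM m N t).map f = NM m N (t.map f) := by
  ext v q
  simp [NM, mu, ← coeff_map]

theorem NM_mulVec {A : Type*} [CommRing A] (m N : ℕ) (t : A[X]) (c : Fin N → A) (v : Fin N) :
    (NM m N t).mulVec c v = (∑ q : Fin N, C (c q) * mu m t q).coeff v := by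
  rw [finsetSum_coeff]
  simp only [Matrix.mulVec, dotProduct, NM, Matrix.of_apply, coeff_C_mul]
  exact Finset.sum_congr rfl (fun q _ => mul_comm _ _)

theorem det_NM_ne (e : ℕ) (m N J : ℕ) (hm : m < e) (hJ : N ≤ J) (t : ℚ[X])
    (ht1 : X ∣ t - 1) (ht : X ^ (J + 1) ∣ t ^ e - (1 + X)) : (NM m N t).det ≠ 0 := by
  intro h0
  obtain ⟨c, hc, hc2⟩ := Matrix.exists_mulVec_eq_zero_iff.mpr h0
  apply hc
  apply vand e m N J hm hJ t ht1 ht c
  rw [X_pow_dvd_iff]
  intro d hd
  have := NM_mulVec m N t c ⟨d, hd⟩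
  rw [hc2] at this
  exact this.symm

theorem exists_TR (e nmax J : ℕ) (he : 1 ≤ e) (hJ : nmax * e ≤ J) :
    ∃ R : ℕ, 1 ≤ R ∧ ∃ s t : ℚ[X], X ∣ s - 1 ∧ X ^ (J + 1) ∣ s ^ 2 - (1 + X) ∧ X ∣ t - 1 ∧
      X ^ (J + 1) ∣ t ^ e - (1 + X) - X * (C (R : ℚ) * s * BB e X t) ∧
      ∀ m, m < e → ∀ n, n ≤ nmax → (NM m (n * (m + 1)) t).det ≠ 0 := by
  classical
  obtain ⟨s, hs1, hs2⟩ := hensel_trunc (A := ℚ) 2 (by norm_num) (fun _ => 0)
    (fun _ _ => by simp) J
  rw [mul_zero, sub_zero] at hs2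
  obtain ⟨T, hT1, hT2⟩ := hensel_trunc (A := ℚ[X]) e he
    (fun y => C X * s.map C * BB e X y)
    (fun y y' => by
      rw [← mul_sub]
      exact Dvd.dvd.mul_left (BB_sub_dvd e X y y') _) J
  have hmap : ∀ r : ℚ, X ∣ T.map (evalRingHom r) - 1 ∧
      X ^ (J + 1) ∣ (T.map (evalRingHom r)) ^ e - (1 + X) -
        X * (C r * s * BB e X (T.map (evalRingHom r))) := by
    intro r
    constructor
    · have := _root_.map_dvd (mapRingHom (evalRingHom r)) hT1
      simpa using this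
    · have := _root_.map_dvd (mapRingHom (evalRingHom r)) hT2
      rw [map_sub, map_sub, map_mul, map_mul, map_mul, map_BB] at this
      have h3 : (s.map (C : ℚ →+* ℚ[X])).map (evalRingHom r) = s := by
        rw [map_map]
        have : (evalRingHom r).comp (C : ℚ →+* ℚ[X]) = RingHom.id ℚ := by
          ext; simp
        rw [this, map_id]
      simpa [h3] using this
  set D : ℕ × ℕ → ℚ[X] := fun q => (NM q.1 (q.2 * (q.1 + 1)) T).det with hD
  have hDev : ∀ (r : ℚ) q, (D q).eval r = (NM q.1 (q.2 * (q.1 + 1)) (T.map (evalRingHom r))).det := by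
    intro r q
    rw [← NM_map, ← RingHom.mapMatrix_apply, ← RingHom.map_det]
    rfl
  set I := Finset.range e ×ˢ Finset.range (nmax + 1) with hI
  have hD0 : ∀ q ∈ I, D q ≠ 0 := by
    intro q hq h0
    rw [hI, Finset.mem_product, Finset.mem_range, Finset.mem_range] at hq
    have h1 := hDev 0 q
    rw [h0, eval_zero] at h1
    obtain ⟨h2, h3⟩ := hmap 0
    rw [C_0, zero_mul, zero_mul, mul_zero, sub_zero] at h3
    refine det_NM_ne e q.1 (q.2 * (q.1 + 1)) J hq.1 ?_ _ h2 h3 h1.symm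
    calc q.2 * (q.1 + 1) ≤ nmax * e := Nat.mul_le_mul (by omega) (by omega)
      _ ≤ J := hJ
  have hprod : ∏ q ∈ I, D q ≠ 0 := Finset.prod_ne_zero_iff.mpr hD0
  have hinf : (Set.range (fun k : ℕ => ((k + 1 : ℕ) : ℚ))).Infinite :=
    Set.infinite_range_of_injective (fun a b hab => by
      have : a + 1 = b + 1 := by exact_mod_cast hab
      omega)
  obtain ⟨r, ⟨k, hk⟩, hr⟩ := hinf.exists_notMem_finset (∏ q ∈ I, D q).roots.toFinset
  have hr2 : (∏ q ∈ I, D q).eval ((k + 1 : ℕ) : ℚ) ≠ 0 := by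
    intro h0
    apply hr
    rw [Multiset.mem_toFinset, mem_roots hprod, IsRoot.def, ← hk]
    exact h0
  refine ⟨k + 1, by omega, s, T.map (evalRingHom ((k + 1 : ℕ) : ℚ)), hs1, hs2,
    (hmap _).1, (hmap _).2, ?_⟩
  intro m hm n hn
  have h1 := hDev ((k + 1 : ℕ) : ℚ) (m, n)
  simp only at h1
  rw [← h1]
  rw [eval_prod] at hr2
  exact Finset.prod_ne_zero_iff.mp hr2 (m, n) (by
    rw [hI, Finset.mem_product, Finset.mem_range, Finset.mem_range]
    exact ⟨hm, by simp only; omega⟩)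

end Pool.Agent.TH870.W
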