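import Mathlib
import Pool.Agent.TH870.W.Vand
import Pool.Agent.TH870.W.Mat
import Pool.Agent.Helper35.Basic

set_option autoImplicit false

namespace Pool.Agent.TH870.W

open Polynomial

theorem padeq (m n N : ℕ) (t : ℚ[X]) (hdet : (NM m N t).det ≠ 0) :
    ∃ D : ℕ, 1 ≤ D ∧ ∃ z : Fin (m + 1) → Fin N → ℤ, ∀ j0 : Fin (m + 1),
      X ^ N ∣ C (D : ℚ) * ((1 + X) ^ n * t ^ (j0 : ℕ)) +
        ∑ q : Fin N, C ((z j0 q : ℤ) : ℚ) * mu m t q := by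
  classical
  have hunit : IsUnit (NM m N t).det := isUnit_iff_ne_zero.mpr hdet
  have hsol : ∀ j0 : Fin (m + 1), ∃ c : Fin N → ℚ, ∀ v, (NM m N t).mulVec c v =
      - ((1 + X : ℚ[X]) ^ n * t ^ (j0 : ℕ)).coeff v := by
    intro j0
    refine ⟨(NM m N t)⁻¹.mulVec (fun v => - ((1 + X : ℚ[X]) ^ n * t ^ (j0 : ℕ)).coeff v), ?_⟩
    intro v
    rw [Matrix.mulVec_mulVec, Matrix.mul_nonsing_inv _ hunit, Matrix.one_mulVec]
  choose cvec hcvec using hsol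
  obtain ⟨D, hD, z, hz⟩ := common_den (fun q : Fin (m + 1) × Fin N => cvec q.1 q.2)
  refine ⟨D, hD, fun j0 q => z (j0, q), fun j0 => ?_⟩
  have e1 : C (D : ℚ) * ((1 + X) ^ n * t ^ (j0 : ℕ)) +
        ∑ q : Fin N, C ((z (j0, q) : ℤ) : ℚ) * mu m t q =
      C (D : ℚ) * ((1 + X) ^ n * t ^ (j0 : ℕ) + ∑ q : Fin N, C (cvec j0 q) * mu m t q) := by
    have e2 : ∑ q : Fin N, C ((z (j0, q) : ℤ) : ℚ) * mu m t q =
        C (D : ℚ) * ∑ q : Fin N, C (cvec j0 q) * mu m t q := by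
      rw [Finset.mul_sum]
      refine Finset.sum_congr rfl (fun q _ => ?_)
      have h3 := hz (j0, q)
      simp only at h3
      rw [h3, C_mul, mul_assoc]
    rw [e2, mul_add]
  rw [e1]
  apply Dvd.dvd.mul_left
  rw [X_pow_dvd_iff]
  intro d hd
  rw [coeff_add]
  have h1 := NM_mulVec m N t (cvec j0) ⟨d, hd⟩
  rw [hcvec j0] at h1
  simp only at h1
  rw [← h1]; ring

/-- the bivariate forms at real points -/
noncomputable def FF (m n D : ℕ) (z : Fin (n * (m + 1)) → ℤ) (j0 : ℕ) (x y : ℝ) : ℝ :=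
  (D : ℝ) * ((1 + x) ^ n * y ^ j0) +
    ∑ q : Fin (n * (m + 1)), (z q : ℝ) * ((1 + x) ^ ((q : ℕ) / (m + 1)) * y ^ ((q : ℕ) % (m + 1)))

theorem FF_t (m n D : ℕ) (z : Fin (n * (m + 1)) → ℤ) (j0 : ℕ) (t : ℚ[X]) (x : ℝ) :
    FF m n D z j0 x (aeval x t) = aeval x (C (D : ℚ) * ((1 + X) ^ n * t ^ j0) +
        ∑ q : Fin (n * (m + 1)), C ((z q : ℤ) : ℚ) * mu m t q) := by
  simp [FF, mu, map_sum]

theorem FF_lip (m n D : ℕ) (z : Fin (n * (m + 1)) → ℤ) (j0 : ℕ) : ∃ C : ℝ, 0 ≤ C ∧ ∀ x : ℝ, 0 ≤ x →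
    x ≤ 1 → ∀ a b : ℝ, 0 ≤ a → a ≤ 2 → 0 ≤ b → b ≤ 2 →
    |FF m n D z j0 x a - FF m n D z j0 x b| ≤ C * |a - b| := by
  refine ⟨(D : ℝ) * (2 ^ n * ((j0 : ℝ) * 2 ^ j0)) + ∑ q : Fin (n * (m + 1)),
    |(z q : ℝ)| * (2 ^ ((q : ℕ) / (m + 1)) * ((((q : ℕ) % (m + 1) : ℕ) : ℝ) * 2 ^ ((q : ℕ) % (m + 1)))),
    by positivity, fun x hx0 hx1 a b ha0 ha hb0 hb => ?_⟩
  have e1 : FF m n D z j0 x a - FF m n D z j0 x b = (D : ℝ) * ((1 + x) ^ n * (a ^ j0 - b ^ j0)) +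
      ∑ q : Fin (n * (m + 1)), (z q : ℝ) * ((1 + x) ^ ((q : ℕ) / (m + 1)) *
        (a ^ ((q : ℕ) % (m + 1)) - b ^ ((q : ℕ) % (m + 1)))) := by
    unfold FF
    rw [add_sub_add_comm, ← Finset.sum_sub_distrib]
    congr 1
    · ring
    · exact Finset.sum_congr rfl (fun q _ => by ring)
  rw [e1, add_mul, Finset.sum_mul]
  refine (abs_add_le _ _).trans (add_le_add ?_ ?_)
  · rw [abs_mul, abs_mul, abs_of_nonneg (by positivity : (0 : ℝ) ≤ D),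
      abs_of_nonneg (by positivity : (0 : ℝ) ≤ (1 + x) ^ n)]
    have h1 := pow_lip a b ha0 ha hb0 hb j0
    have h2 : (1 + x) ^ n ≤ 2 ^ n := by gcongr; linarith
    calc (D : ℝ) * ((1 + x) ^ n * |a ^ j0 - b ^ j0|)
        ≤ D * (2 ^ n * ((j0 : ℝ) * 2 ^ j0 * |a - b|)) := by gcongr
      _ = _ := by ring
  · refine (Finset.abs_sum_le_sum_abs _ _).trans (Finset.sum_le_sum (fun q _ => ?_))
    rw [abs_mul, abs_mul, abs_of_nonneg (by positivity : (0 : ℝ) ≤ (1 + x) ^ ((q : ℕ) / (m + 1)))]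
    have h1 := pow_lip a b ha0 ha hb0 hb ((q : ℕ) % (m + 1))
    have h2 : (1 + x) ^ ((q : ℕ) / (m + 1)) ≤ 2 ^ ((q : ℕ) / (m + 1)) := by gcongr; linarith
    calc |(z q : ℝ)| * ((1 + x) ^ ((q : ℕ) / (m + 1)) * |a ^ ((q : ℕ) % (m + 1)) - b ^ ((q : ℕ) % (m + 1))|)
        ≤ |(z q : ℝ)| * (2 ^ ((q : ℕ) / (m + 1)) *
          ((((q : ℕ) % (m + 1) : ℕ) : ℝ) * 2 ^ ((q : ℕ) % (m + 1)) * |a - b|)) := by gcongr
      _ = _ := by ring

/-- The coefficient matrix at level `M`. -/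
def AM (m n D : ℕ) (z : Fin (m + 1) → Fin (n * (m + 1)) → ℤ) {A : Type*} [CommRing A] (M : A) :
    Matrix (Fin (m + 1)) (Fin (m + 1)) A :=
  Matrix.of fun i j0 => (D : A) * (M + 1) ^ n * (if i = j0 then 1 else 0) +
    ∑ q : Fin (n * (m + 1)), (if (q : ℕ) % (m + 1) = i then
      (z j0 q : A) * M ^ (n - (q : ℕ) / (m + 1)) * (M + 1) ^ ((q : ℕ) / (m + 1)) else 0)

theorem AM_map (m n D : ℕ) (z : Fin (m + 1) → Fin (n * (m + 1)) → ℤ) {A B : Type*} [CommRing A]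
    [CommRing B] (f : A →+* B) (M : A) : (AM m n D z M).map f = AM m n D z (f M) := by
  ext i j
  simp only [AM, Matrix.map_apply, Matrix.of_apply, map_add, map_mul, map_natCast, map_pow,
    map_one, map_sum]
  congr 1
  · split_ifs <;> simp
  · refine Finset.sum_congr rfl (fun q _ => ?_)
    split_ifs <;> simp

theorem div_lt_of (m n q : ℕ) (hq : q < n * (m + 1)) : q / (m + 1) < n :=
  Nat.div_lt_of_lt_mul (by rwa [Nat.mul_comm] at hq)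

theorem AM_zero (m n D : ℕ) (z : Fin (m + 1) → Fin (n * (m + 1)) → ℤ) {A : Type*} [CommRing A] :
    (AM m n D z (0 : A)) = (D : A) • (1 : Matrix (Fin (m + 1)) (Fin (m + 1)) A) := by
  ext i j
  simp only [AM, Matrix.of_apply, Matrix.smul_apply, Matrix.one_apply, smul_eq_mul]
  rw [Finset.sum_eq_zero, add_zero]
  · simp
  · intro q _
    split_ifs
    · have := div_lt_of m n q q.2
      rw [zero_pow (by omega)]
      simp
    · rfl

theorem eval_ne_eventually (p : ℤ[X]) (hp : p ≠ 0) : ∃ M0 : ℕ, ∀ M : ℕ, M0 ≤ M →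
    p.eval (M : ℤ) ≠ 0 := by
  refine ⟨∑ r ∈ p.roots.toFinset, r.natAbs + 1, fun M hM h0 => ?_⟩
  have h1 : (M : ℤ) ∈ p.roots.toFinset := by
    rw [Multiset.mem_toFinset, mem_roots hp]
    exact h0
  have h2 := Finset.single_le_sum (f := fun r : ℤ => r.natAbs) (fun _ _ => Nat.zero_le _) h1
  simp only [Int.natAbs_natCast] at h2
  omega

theorem AM_det (m n D : ℕ) (hD : 1 ≤ D) (z : Fin (m + 1) → Fin (n * (m + 1)) → ℤ) :
    ∃ M0 : ℕ, ∀ M : ℕ, M0 ≤ M → (AM m n D z (M : ℤ)).det ≠ 0 := by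
  have hp : (AM m n D z (X : ℤ[X])).det ≠ 0 := by
    intro h0
    have h1 : ((AM m n D z (X : ℤ[X])).map (evalRingHom (0 : ℤ))).det = 0 := by
      rw [← RingHom.mapMatrix_apply, ← RingHom.map_det, h0, map_zero]
    rw [AM_map, coe_evalRingHom, eval_X, AM_zero, Matrix.det_smul, Matrix.det_one, mul_one,
      Fintype.card_fin] at h1
    have h2 : (D : ℤ) ≠ 0 := by exact_mod_cast (by omega : D ≠ 0)
    exact pow_ne_zero _ h2 h1
  obtain ⟨M0, hM0⟩ := eval_ne_eventually _ hp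
  refine ⟨M0, fun M hM h0 => hM0 M hM ?_⟩
  have h1 : ((AM m n D z (X : ℤ[X])).map (evalRingHom (M : ℤ))).det = 0 := by
    rw [AM_map, coe_evalRingHom, eval_X]; exact h0
  rw [← RingHom.mapMatrix_apply, ← RingHom.map_det] at h1
  exact h1

theorem AM_val (m n D : ℕ) (z : Fin (m + 1) → Fin (n * (m + 1)) → ℤ) (M : ℕ) (hM : 1 ≤ M)
    (θ : ℝ) (j0 : Fin (m + 1)) :
    ∑ i : Fin (m + 1), θ ^ (i : ℕ) * ((AM m n D z (M : ℤ) i j0 : ℤ) : ℝ) =
      (M : ℝ) ^ n * FF m n D (z j0) j0 (1 / (M : ℝ)) θ := by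
  have hM0 : (M : ℝ) ≠ 0 := by exact_mod_cast (by omega : M ≠ 0)
  have hpow : ∀ a, a ≤ n → (M : ℝ) ^ n * (1 + 1 / (M : ℝ)) ^ a = (M : ℝ) ^ (n - a) * (M + 1) ^ a := by
    intro a ha
    have h1 : (M : ℝ) ^ n = (M : ℝ) ^ (n - a) * (M : ℝ) ^ a := by
      rw [← pow_add]; congr 1; omega
    rw [h1, mul_assoc, ← mul_pow]
    congr 2
    field_simp
  have h1 : ∀ i : Fin (m + 1), θ ^ (i : ℕ) * ((AM m n D z (M : ℤ) i j0 : ℤ) : ℝ) =
      (if i = j0 then (D : ℝ) * (M + 1) ^ n * θ ^ (i : ℕ) else 0) +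
      ∑ q : Fin (n * (m + 1)), (if (q : ℕ) % (m + 1) = i then
        (z j0 q : ℝ) * (M : ℝ) ^ (n - (q : ℕ) / (m + 1)) * ((M : ℝ) + 1) ^ ((q : ℕ) / (m + 1)) *
          θ ^ ((q : ℕ) % (m + 1)) else 0) := by
    intro i
    simp only [AM, Matrix.of_apply]
    push_cast
    rw [mul_add, Finset.mul_sum]
    congr 1
    · split_ifs <;> simp; ring
    · refine Finset.sum_congr rfl (fun q _ => ?_)
      split_ifs with h
      · rw [h]; ring
      · ring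
  rw [Finset.sum_congr rfl (fun i _ => h1 i), Finset.sum_add_distrib, Finset.sum_comm]
  unfold FF
  rw [mul_add ((M : ℝ) ^ n), Finset.mul_sum]
  congr 1
  · rw [Finset.sum_ite_eq' Finset.univ j0]
    simp only [Finset.mem_univ, if_true]
    have := hpow n le_rfl
    rw [Nat.sub_self, pow_zero, one_mul] at this
    rw [← this]; ring
  · refine Finset.sum_congr rfl (fun q _ => ?_)
    have hq : (q : ℕ) % (m + 1) < m + 1 := Nat.mod_lt _ (by omega)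
    rw [Finset.sum_eq_single (⟨(q : ℕ) % (m + 1), hq⟩ : Fin (m + 1))]
    · simp only [if_true]
      have := hpow ((q : ℕ) / (m + 1)) (div_lt_of m n q q.2).le
      rw [mul_assoc ((z j0 q : ℝ)), ← this]; ring
    · intro i _ hi
      rw [if_neg]
      intro h
      exact hi (Fin.ext h.symm)
    · intro h; exact absurd (Finset.mem_univ _) h

theorem AM_bound (m n D : ℕ) (z : Fin (m + 1) → Fin (n * (m + 1)) → ℤ) : ∃ C : ℝ, 1 ≤ C ∧
    ∀ M : ℕ, 1 ≤ M → ∀ i j, |((AM m n D z (M : ℤ) i j : ℤ) : ℝ)| ≤ C * (M : ℝ) ^ n := by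
  refine ⟨(D + ∑ j, ∑ q, |(z j q : ℝ)|) * 2 ^ n + 1, ?_, fun M hM i j => ?_⟩
  · have : (0 : ℝ) ≤ (D + ∑ j, ∑ q, |(z j q : ℝ)|) * 2 ^ n := by positivity
    linarith
  · have hMr : (1 : ℝ) ≤ M := by exact_mod_cast hM
    have h2 : ((M : ℝ) + 1) ^ n ≤ 2 ^ n * (M : ℝ) ^ n := by
      rw [← mul_pow]; gcongr; linarith
    simp only [AM, Matrix.of_apply]
    push_cast
    have h3 : |(D : ℝ) * ((M : ℝ) + 1) ^ n * (if i = j then 1 else 0)| ≤ D * (2 ^ n * (M : ℝ) ^ n) := by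
      rw [abs_mul, abs_of_nonneg (by positivity : (0 : ℝ) ≤ (D : ℝ) * ((M : ℝ) + 1) ^ n)]
      have h4 : |(if i = j then (1 : ℝ) else 0)| ≤ 1 := by split_ifs <;> simp
      calc (D : ℝ) * ((M : ℝ) + 1) ^ n * |(if i = j then (1 : ℝ) else 0)|
          ≤ D * (2 ^ n * (M : ℝ) ^ n) * 1 := by gcongr
        _ = _ := mul_one _
    have h5 : |∑ q : Fin (n * (m + 1)), (if (q : ℕ) % (m + 1) = i then
        (z j q : ℝ) * (M : ℝ) ^ (n - (q : ℕ) / (m + 1)) * ((M : ℝ) + 1) ^ ((q : ℕ) / (m + 1)) else 0)| ≤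
        (∑ j, ∑ q, |(z j q : ℝ)|) * (2 ^ n * (M : ℝ) ^ n) := by
      refine (Finset.abs_sum_le_sum_abs _ _).trans ?_
      have h6 : ∑ q, |(z j q : ℝ)| ≤ ∑ j, ∑ q, |(z j q : ℝ)| :=
        Finset.single_le_sum (f := fun j => ∑ q, |(z j q : ℝ)|)
          (fun _ _ => Finset.sum_nonneg (fun _ _ => abs_nonneg _)) (Finset.mem_univ j)
      refine le_trans ?_ (mul_le_mul_of_nonneg_right h6 (by positivity))
      rw [Finset.sum_mul]
      refine Finset.sum_le_sum (fun q _ => ?_)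
      have h7 : (0 : ℝ) ≤ 2 ^ n * (M : ℝ) ^ n := by positivity
      split_ifs
      · rw [mul_assoc, abs_mul]
        gcongr
        rw [abs_of_nonneg (by positivity)]
        have ha := (div_lt_of m n q q.2).le
        calc (M : ℝ) ^ (n - (q : ℕ) / (m + 1)) * ((M : ℝ) + 1) ^ ((q : ℕ) / (m + 1))
            ≤ ((M : ℝ) + 1) ^ (n - (q : ℕ) / (m + 1)) * ((M : ℝ) + 1) ^ ((q : ℕ) / (m + 1)) := by
              gcongr; linarith
          _ = ((M : ℝ) + 1) ^ n := by rw [← pow_add]; congr 1; omega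
          _ ≤ _ := h2
      · simp only [abs_zero]; positivity
    refine (abs_add_le _ _).trans ?_
    have h8 : (0 : ℝ) ≤ (M : ℝ) ^ n := by positivity
    calc _ ≤ D * (2 ^ n * (M : ℝ) ^ n) + (∑ j, ∑ q, |(z j q : ℝ)|) * (2 ^ n * (M : ℝ) ^ n) :=
          add_le_add h3 h5
      _ = (D + ∑ j, ∑ q, |(z j q : ℝ)|) * 2 ^ n * (M : ℝ) ^ n := by ring
      _ ≤ _ := by nlinarith

end Pool.Agent.TH870.W
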