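import Mathlib
import Pool.Agent.TH870.W.LDa

set_option autoImplicit false

namespace Pool.Agent.TH870.W

open Polynomial Pool.Agent.Helper35

theorem LD_one (m n : ℕ) (t : ℚ[X]) (hdet : (NM m (n * (m + 1)) t).det ≠ 0) (J : ℕ)
    (hJ : n * (m + 1) ≤ J + 1) (Cθ : ℝ) (hCθ : 0 ≤ Cθ) :
    ∃ C : ℝ, 1 ≤ C ∧ ∃ M0 : ℕ, 1 ≤ M0 ∧ ∀ M : ℕ, M0 ≤ M → ∀ θ : ℝ, 0 ≤ θ → θ ≤ 2 →
      0 ≤ aeval (1 / (M : ℝ)) t → aeval (1 / (M : ℝ)) t ≤ 2 →
      |θ - aeval (1 / (M : ℝ)) t| ≤ Cθ * (1 / (M : ℝ)) ^ (J + 1) →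
      ∀ P : ℤ[X], P ≠ 0 → P.natDegree ≤ m → C * ht P ≤ (M : ℝ) ^ n →
        1 ≤ C * (|aeval θ P| * ((M : ℝ) ^ n) ^ m) := by
  obtain ⟨D, hD, z, hz⟩ := padeq m n (n * (m + 1)) t hdet
  obtain ⟨M1, hM1⟩ := AM_det m n D hD z
  obtain ⟨C1, hC11, hC1⟩ := AM_bound m n D z
  choose Cb hCb0 hCb using fun j0 => bound_of_dvd _ _ (hz j0)
  choose Cl hCl0 hCl using fun j0 : Fin (m + 1) => FF_lip m n D (z j0) j0
  set C4 : ℝ := ∑ j0, (Cb j0 + Cl j0 * Cθ) with hC4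
  have hC40 : 0 ≤ C4 := Finset.sum_nonneg (fun j _ => by
    have := hCb0 j
    have := hCl0 j
    positivity)
  set K : ℝ := 2 * ((m + 1).factorial : ℝ) * C1 ^ m with hK
  have hfac : (1 : ℝ) ≤ ((m + 1).factorial : ℝ) := by exact_mod_cast (m + 1).factorial_pos
  have hC1m : (1 : ℝ) ≤ C1 ^ m := one_le_pow₀ hC11
  have hK1 : 1 ≤ K := by rw [hK]; nlinarith
  refine ⟨K * (C4 + 1), by nlinarith, M1 + 1, by omega, fun M hM θ hθ0 hθ2 ht0 ht2 hclose P hP hPd hPH => ?_⟩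
  have hMr : (1 : ℝ) ≤ M := by exact_mod_cast (by omega : 1 ≤ M)
  have hMpos : (0 : ℝ) < M := by linarith
  set x : ℝ := 1 / (M : ℝ) with hx
  have hx0 : 0 < x := by positivity
  have hx1 : x ≤ 1 := by rw [hx, div_le_one hMpos]; exact hMr
  have hH1 : (1 : ℝ) ≤ ht P := by exact_mod_cast ht_pos hP
  -- values of the columns
  have hval : ∀ j0 : Fin (m + 1), |∑ i : Fin (m + 1), θ ^ (i : ℕ) *
      ((AM m n D z (M : ℤ) i j0 : ℤ) : ℝ)| ≤ C4 / ((M : ℝ) ^ n) ^ m := by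
    intro j0
    rw [AM_val m n D z M (by omega) θ j0, ← hx, abs_mul, abs_of_nonneg (by positivity :
      (0 : ℝ) ≤ (M : ℝ) ^ n)]
    have h1 : |FF m n D (z j0) j0 x θ| ≤ C4 * x ^ (n * (m + 1)) := by
      have h2 := hCl j0 x hx0.le hx1 θ (aeval x t) hθ0 hθ2 ht0 ht2
      have h3 := hCb j0 x hx0.le hx1
      rw [← FF_t] at h3
      have h4 : |FF m n D (z j0) j0 x θ| ≤ |FF m n D (z j0) j0 x (aeval x t)| +
          |FF m n D (z j0) j0 x θ - FF m n D (z j0) j0 x (aeval x t)| := by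
        have := abs_add_le (FF m n D (z j0) j0 x (aeval x t))
          (FF m n D (z j0) j0 x θ - FF m n D (z j0) j0 x (aeval x t))
        rwa [add_sub_cancel] at this
      have h5 : x ^ (J + 1) ≤ x ^ (n * (m + 1)) := pow_le_pow_of_le_one hx0.le hx1 hJ
      have h6 : Cb j0 + Cl j0 * Cθ ≤ C4 := Finset.single_le_sum
        (f := fun j0 => Cb j0 + Cl j0 * Cθ) (fun j _ => by
          have := hCb0 j
          have := hCl0 j
          positivity) (Finset.mem_univ j0)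
      have hcl := hCl0 j0
      calc |FF m n D (z j0) j0 x θ| ≤ Cb j0 * x ^ (n * (m + 1)) + Cl j0 * (Cθ * x ^ (J + 1)) := by
            refine h4.trans (add_le_add h3 (h2.trans ?_))
            gcongr
        _ ≤ Cb j0 * x ^ (n * (m + 1)) + Cl j0 * (Cθ * x ^ (n * (m + 1))) := by gcongr
        _ = (Cb j0 + Cl j0 * Cθ) * x ^ (n * (m + 1)) := by ring
        _ ≤ _ := by gcongr
    calc (M : ℝ) ^ n * |FF m n D (z j0) j0 x θ| ≤ (M : ℝ) ^ n * (C4 * x ^ (n * (m + 1))) := by gcongr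
      _ = C4 / ((M : ℝ) ^ n) ^ m := by
          rw [hx, one_div, inv_pow, mul_add, mul_one, pow_add, pow_mul]
          field_simp
  by_contra hcon
  push Not at hcon
  set H : ℝ := (ht P : ℝ) with hH
  set B : ℝ := C1 * (M : ℝ) ^ n with hB
  have hB1 : 0 < B := by rw [hB]; positivity
  have hMn : (0 : ℝ) < (M : ℝ) ^ n := by positivity
  set ε : ℝ := 1 / (2 * ((m + 1).factorial : ℝ) * H * B ^ m) with hε
  have hden : 0 < 2 * ((m + 1).factorial : ℝ) * H * B ^ m := by positivity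
  have hBm : B ^ m = C1 ^ m * ((M : ℝ) ^ n) ^ m := by rw [hB, mul_pow]
  have hb0 : (fun i : Fin (m + 1) => P.coeff i) ≠ 0 := by
    intro h0
    apply hP
    ext i
    rw [coeff_zero]
    by_cases hi : i < m + 1
    · exact congrFun h0 ⟨i, hi⟩
    · exact coeff_eq_zero_of_natDegree_lt (by omega)
  have hPval : ∑ i : Fin (m + 1), θ ^ (i : ℕ) * ((P.coeff i : ℤ) : ℝ) = aeval θ P := by
    rw [aeval_eq_sum_range' (by omega : P.natDegree < m + 1), ← Fin.sum_univ_eq_sum_range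
      (fun i => P.coeff i • θ ^ i)]
    refine Finset.sum_congr rfl (fun i _ => ?_)
    rw [zsmul_eq_mul]; ring
  have key := meas_matrix m (AM m n D z (M : ℤ)) (hM1 M (by omega)) (fun i => P.coeff i) hb0 θ B H ε
    hB1.le (by linarith) (by positivity) (fun i j => hC1 M (by omega) i j)
    (fun i => abs_coeff_le_ht P i) ?_ ?_
  · have h1 : ((m + 1).factorial : ℝ) * (H * B ^ m * ε) = 1 / 2 := by
      rw [hε]; field_simp
    rw [h1] at key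
    norm_num at key
  · intro j0
    refine (hval j0).trans ?_
    rw [hε, div_mul_eq_mul_div, one_mul, div_le_div_iff₀ (by positivity) hden, hBm]
    have h2 : K * C4 * H ≤ (M : ℝ) ^ n := by
      refine le_trans ?_ hPH
      have : 0 ≤ K * H := by positivity
      nlinarith
    calc C4 * (2 * ((m + 1).factorial : ℝ) * H * (C1 ^ m * ((M : ℝ) ^ n) ^ m))
        = (K * C4 * H) * ((M : ℝ) ^ n) ^ m := by rw [hK]; ring
      _ ≤ (M : ℝ) ^ n * ((M : ℝ) ^ n) ^ m := by gcongr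
      _ = 1 * (M : ℝ) ^ n * ((M : ℝ) ^ n) ^ m := by ring
      _ ≤ C1 * (M : ℝ) ^ n * ((M : ℝ) ^ n) ^ m := by gcongr
  · rw [hPval, hε, div_mul_eq_mul_div, one_mul, le_div_iff₀ hden, hBm]
    have h3 : K * (|aeval θ P| * ((M : ℝ) ^ n) ^ m) ≤ 1 := by
      refine le_trans ?_ hcon.le
      have : 0 ≤ |aeval θ P| * ((M : ℝ) ^ n) ^ m := by positivity
      have h4 : K ≤ K * (C4 + 1) := by nlinarith
      gcongr
    calc |aeval θ P| * (2 * ((m + 1).factorial : ℝ) * H * (C1 ^ m * ((M : ℝ) ^ n) ^ m))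
        = (K * (|aeval θ P| * ((M : ℝ) ^ n) ^ m)) * H := by rw [hK]; ring
      _ ≤ 1 * H := by gcongr
      _ = H := one_mul _

/-- The low degree measure, for all degrees `< e` and heights up to `M^nmax`. -/
theorem LD_all (e nmax : ℕ) (hn1 : 1 ≤ nmax) (t : ℚ[X])
    (hdet : ∀ m, m < e → ∀ n, n ≤ nmax → (NM m (n * (m + 1)) t).det ≠ 0) (J : ℕ)
    (hJ : nmax * e ≤ J) (Cθ : ℝ) (hCθ : 0 ≤ Cθ) :
    ∃ C : ℝ, 1 ≤ C ∧ ∃ M0 : ℕ, 1 ≤ M0 ∧ ∀ M : ℕ, M0 ≤ M → ∀ θ : ℝ, 0 ≤ θ → θ ≤ 2 →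
      0 ≤ aeval (1 / (M : ℝ)) t → aeval (1 / (M : ℝ)) t ≤ 2 →
      |θ - aeval (1 / (M : ℝ)) t| ≤ Cθ * (1 / (M : ℝ)) ^ (J + 1) →
      ∀ m, m < e → ∀ P : ℤ[X], P ≠ 0 → P.natDegree ≤ m → C * ht P ≤ (M : ℝ) ^ nmax →
        1 ≤ C * (|aeval θ P| * ((M : ℝ) * ht P) ^ m) := by
  classical
  have hex : ∀ q : ℕ × ℕ, ∃ C : ℝ, 1 ≤ C ∧ ∃ M0 : ℕ, q.1 < e → q.2 ≤ nmax →
      ∀ M : ℕ, M0 ≤ M → ∀ θ : ℝ, 0 ≤ θ → θ ≤ 2 →
      0 ≤ aeval (1 / (M : ℝ)) t → aeval (1 / (M : ℝ)) t ≤ 2 →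
      |θ - aeval (1 / (M : ℝ)) t| ≤ Cθ * (1 / (M : ℝ)) ^ (J + 1) →
      ∀ P : ℤ[X], P ≠ 0 → P.natDegree ≤ q.1 → C * ht P ≤ (M : ℝ) ^ q.2 →
        1 ≤ C * (|aeval θ P| * ((M : ℝ) ^ q.2) ^ q.1) := by
    rintro ⟨m, n⟩
    by_cases h : m < e ∧ n ≤ nmax
    · obtain ⟨C, hC, M0, hM0, h1⟩ := LD_one m n t (hdet m h.1 n h.2) J (by
        calc n * (m + 1) ≤ nmax * e := Nat.mul_le_mul h.2 (by omega)
          _ ≤ J + 1 := by omega) Cθ hCθ
      exact ⟨C, hC, M0, fun _ _ => h1⟩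
    · exact ⟨1, le_rfl, 0, fun h1 h2 => absurd ⟨h1, h2⟩ h⟩
  choose C hC1 M0 hM0 using hex
  set I := Finset.range e ×ˢ Finset.range (nmax + 1) with hI
  set CT : ℝ := 1 + ∑ q ∈ I, C q with hCT
  have hCT0 : 0 ≤ ∑ q ∈ I, C q := Finset.sum_nonneg (fun q _ => by linarith [hC1 q])
  have hCT1 : 1 ≤ CT := by rw [hCT]; linarith
  refine ⟨CT ^ (e + 1), one_le_pow₀ hCT1, 1 + ∑ q ∈ I, M0 q, by omega,
    fun M hM θ hθ0 hθ2 ht0 ht2 hclose m hm P hP hPd hPH => ?_⟩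
  have hMr : (1 : ℝ) ≤ M := by exact_mod_cast (by omega : 1 ≤ M)
  have hH1 : (1 : ℝ) ≤ ht P := by exact_mod_cast ht_pos hP
  have hex2 : ∃ n, 1 ≤ n ∧ CT * ht P ≤ (M : ℝ) ^ n := by
    refine ⟨nmax, hn1, le_trans ?_ hPH⟩
    have : CT ≤ CT ^ (e + 1) := le_self_pow₀ hCT1 (by omega)
    gcongr
  obtain ⟨⟨hn1', hnH⟩, hmin⟩ : (1 ≤ Nat.find hex2 ∧ CT * ht P ≤ (M : ℝ) ^ (Nat.find hex2)) ∧
      ∀ i < Nat.find hex2, ¬ (1 ≤ i ∧ CT * ht P ≤ (M : ℝ) ^ i) :=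
    ⟨Nat.find_spec hex2, fun i hi => Nat.find_min hex2 hi⟩
  have hnle : Nat.find hex2 ≤ nmax := by
    apply Nat.find_min' hex2
    refine ⟨hn1, le_trans ?_ hPH⟩
    have : CT ≤ CT ^ (e + 1) := le_self_pow₀ hCT1 (by omega)
    gcongr
  set n := Nat.find hex2 with hn
  have hmem : (m, n) ∈ I := by
    rw [hI, Finset.mem_product, Finset.mem_range, Finset.mem_range]
    exact ⟨hm, by simp only; omega⟩
  have hCle : C (m, n) ≤ CT := by
    have := Finset.single_le_sum (f := C) (fun q _ => by linarith [hC1 q]) hmem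
    rw [hCT]; linarith
  have hMle : M0 (m, n) ≤ M := by
    have := Finset.single_le_sum (f := M0) (fun q _ => Nat.zero_le _) hmem
    omega
  have h1 := hM0 (m, n) hm hnle M hMle θ hθ0 hθ2 ht0 ht2 hclose P hP hPd (by
    refine le_trans ?_ hnH
    gcongr)
  simp only at h1
  have h2 : (M : ℝ) ^ n ≤ (M : ℝ) * (CT * ht P) := by
    by_cases hn2 : n = 1
    · rw [hn2, pow_one]
      have : 1 ≤ CT * ht P := by nlinarith
      nlinarith
    · have h3 := hmin (n - 1) (by omega)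
      have h4 : (M : ℝ) ^ (n - 1) < CT * ht P := by
        by_contra hc
        push Not at hc
        exact h3 ⟨by omega, hc⟩
      have h5 : (M : ℝ) ^ n = (M : ℝ) * (M : ℝ) ^ (n - 1) := by
        rw [← pow_succ']; congr 1; omega
      rw [h5]
      gcongr
  calc (1 : ℝ) ≤ C (m, n) * (|aeval θ P| * ((M : ℝ) ^ n) ^ m) := h1
    _ ≤ CT * (|aeval θ P| * ((M : ℝ) * (CT * ht P)) ^ m) := by gcongr
    _ = CT ^ (m + 1) * (|aeval θ P| * ((M : ℝ) * ht P) ^ m) := by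
        have : (M : ℝ) * (CT * ht P) = CT * ((M : ℝ) * ht P) := by ring
        rw [this, mul_pow, pow_succ]; ring
    _ ≤ CT ^ (e + 1) * (|aeval θ P| * ((M : ℝ) * ht P) ^ m) := by
        have : CT ^ (m + 1) ≤ CT ^ (e + 1) := pow_le_pow_right₀ hCT1 (by omega)
        gcongr

end Pool.Agent.TH870.W
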