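import Mathlib
import Pool.Agent.TH870.W.LDb

set_option autoImplicit false

namespace Pool.Agent.TH870.W

open Polynomial

/-- The real function whose root is the special number. -/
noncomputable def hh (e : ℕ) (r x y : ℝ) : ℝ := y ^ e - (1 + x) - r * x * BB e x y

theorem BB_lip (e : ℕ) : ∃ C : ℝ, 0 ≤ C ∧ ∀ x : ℝ, 0 ≤ x → x ≤ 1 → ∀ a b : ℝ, 0 ≤ a → a ≤ 2 →
    0 ≤ b → b ≤ 2 → |BB e x a - BB e x b| ≤ C * |a - b| := by
  refine ⟨∑ k ∈ Finset.range (e ^ 2 + 1), ((e ^ 2).choose k : ℝ) * 2 ^ (k / e) *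
    (((k % e : ℕ) : ℝ) * 2 ^ (k % e)), by positivity, fun x hx0 hx1 a b ha0 ha hb0 hb => ?_⟩
  unfold BB
  rw [← Finset.sum_sub_distrib, Finset.sum_mul]
  refine (Finset.abs_sum_le_sum_abs _ _).trans (Finset.sum_le_sum (fun k _ => ?_))
  rw [← mul_sub, abs_mul, abs_mul, abs_mul, abs_pow, abs_neg, abs_one, one_pow, one_mul,
    abs_of_nonneg (by positivity : (0 : ℝ) ≤ ((e ^ 2).choose k : ℝ)),
    abs_of_nonneg (by positivity : (0 : ℝ) ≤ (1 + x) ^ (k / e))]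
  have h1 := pow_lip a b ha0 ha hb0 hb (k % e)
  have h2 : (1 + x) ^ (k / e) ≤ 2 ^ (k / e) := by gcongr; linarith
  calc ((e ^ 2).choose k : ℝ) * (1 + x) ^ (k / e) * |a ^ (k % e) - b ^ (k % e)|
      ≤ ((e ^ 2).choose k : ℝ) * 2 ^ (k / e) * ((((k % e : ℕ) : ℝ) * 2 ^ (k % e)) * |a - b|) := by
        gcongr
    _ = _ := by ring

theorem BB_bound (e : ℕ) : ∃ C : ℝ, 0 ≤ C ∧ ∀ x : ℝ, 0 ≤ x → x ≤ 1 → ∀ a : ℝ, 0 ≤ a → a ≤ 2 →
    |BB e x a| ≤ C := by
  refine ⟨∑ k ∈ Finset.range (e ^ 2 + 1), ((e ^ 2).choose k : ℝ) * 2 ^ (k / e) * 2 ^ (k % e),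
    by positivity, fun x hx0 hx1 a ha0 ha => ?_⟩
  unfold BB
  refine (Finset.abs_sum_le_sum_abs _ _).trans (Finset.sum_le_sum (fun k _ => ?_))
  rw [abs_mul, abs_mul, abs_mul, abs_pow, abs_neg, abs_one, one_pow, one_mul,
    abs_of_nonneg (by positivity : (0 : ℝ) ≤ ((e ^ 2).choose k : ℝ)),
    abs_of_nonneg (by positivity : (0 : ℝ) ≤ (1 + x) ^ (k / e)),
    abs_of_nonneg (by positivity : (0 : ℝ) ≤ a ^ (k % e))]
  have h2 : (1 + x) ^ (k / e) ≤ 2 ^ (k / e) := by gcongr; linarith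
  gcongr

theorem pow_sub_ge (a b : ℝ) (e : ℕ) (he : 1 ≤ e) (ha : 0 ≤ a) (hab : a ≤ b) :
    a ^ (e - 1) * (b - a) ≤ b ^ e - a ^ e := by
  obtain ⟨f, rfl⟩ : ∃ f, e = f + 1 := ⟨e - 1, by omega⟩
  rw [Nat.add_sub_cancel]
  have h1 : a ^ f ≤ b ^ f := by gcongr
  have h2 : 0 ≤ b - a := by linarith
  have e1 : b ^ (f + 1) - a ^ (f + 1) = b ^ f * (b - a) + a * (b ^ f - a ^ f) := by ring
  rw [e1]
  have h3 : a ^ f * (b - a) ≤ b ^ f * (b - a) := by gcongr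
  have h4 : 0 ≤ a * (b ^ f - a ^ f) := mul_nonneg ha (by linarith)
  linarith

theorem hh_mono (e : ℕ) (he : 1 ≤ e) (R0 : ℝ) (hR0 : 0 ≤ R0) : ∃ x0 : ℝ, 0 < x0 ∧ x0 ≤ 1 ∧
    ∀ x : ℝ, 0 ≤ x → x ≤ x0 → ∀ r : ℝ, |r| ≤ R0 → ∀ a b : ℝ, 1 - 1 / (4 * (e : ℝ)) ≤ a → a ≤ b →
      b ≤ 2 → (b - a) / 2 ≤ hh e r x b - hh e r x a := by
  obtain ⟨CL, hCL0, hCL⟩ := BB_lip e
  refine ⟨1 / (4 * (R0 * CL + 1)), by positivity, ?_, fun x hx0 hx r hr a b ha hab hb => ?_⟩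
  · rw [div_le_one (by positivity)]
    have : 0 ≤ R0 * CL := by positivity
    linarith
  have hRC : 0 ≤ R0 * CL := by positivity
  have hx1 : x ≤ 1 := by
    refine hx.trans ?_
    rw [div_le_one (by positivity)]; linarith
  rw [le_div_iff₀ (by positivity)] at hx
  have her : (1 : ℝ) ≤ e := by exact_mod_cast he
  have h4e : 1 / (4 * (e : ℝ)) ≤ 1 / 4 := by
    apply one_div_le_one_div_of_le (by norm_num); linarith
  have ha0 : 0 ≤ a := by linarith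
  have hapow : 3 / 4 ≤ a ^ (e - 1) := by
    have h1 : (1 - 1 / (4 * (e : ℝ))) ^ (e - 1) ≤ a ^ (e - 1) := by
      gcongr
      linarith
    have h2 := one_add_mul_le_pow (a := -(1 / (4 * (e : ℝ)))) (by linarith) (e - 1)
    have h3 : ((e - 1 : ℕ) : ℝ) * (1 / (4 * (e : ℝ))) ≤ 1 / 4 := by
      rw [mul_one_div, div_le_div_iff₀ (by positivity) (by norm_num)]
      have : ((e - 1 : ℕ) : ℝ) ≤ e := by exact_mod_cast (by omega : e - 1 ≤ e)
      nlinarith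
    have h4 : (1 + -(1 / (4 * (e : ℝ)))) = 1 - 1 / (4 * (e : ℝ)) := by ring
    rw [h4] at h2
    linarith
  have h1 := pow_sub_ge a b e he ha0 hab
  have h2 := hCL x hx0 hx1 b a (by linarith) hb ha0 (by linarith)
  have h3 : hh e r x b - hh e r x a = (b ^ e - a ^ e) - r * x * (BB e x b - BB e x a) := by
    unfold hh; ring
  have h5 : |r * x * (BB e x b - BB e x a)| ≤ (b - a) / 4 := by
    rw [abs_mul, abs_mul, abs_of_nonneg hx0]
    rw [abs_of_nonneg (by linarith : 0 ≤ b - a)] at h2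
    have hba : 0 ≤ b - a := by linarith
    calc |r| * x * |BB e x b - BB e x a| ≤ R0 * x * (CL * (b - a)) := by gcongr
      _ = (x * (R0 * CL)) * (b - a) := by ring
      _ ≤ (1 / 4) * (b - a) := by
          gcongr
          nlinarith
      _ = (b - a) / 4 := by ring
  have h6 := le_abs_self (r * x * (BB e x b - BB e x a))
  have h7 : 3 / 4 * (b - a) ≤ a ^ (e - 1) * (b - a) := by
    have hba : 0 ≤ b - a := by linarith
    gcongr
  rw [h3]
  linarith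

theorem hh_continuous (e : ℕ) (r x : ℝ) : Continuous (fun y => hh e r x y) := by
  unfold hh BB
  fun_prop

/-- Existence and location of the two close roots. -/
theorem hh_roots (e : ℕ) (he : 1 ≤ e) (R0 : ℝ) (hR0 : 0 ≤ R0) : ∃ x0 : ℝ, 0 < x0 ∧ x0 ≤ 1 ∧
    ∀ x : ℝ, 0 < x → x ≤ x0 → ∀ r : ℝ, 0 < r → r ≤ R0 → ∃ θ θ' : ℝ, 1 < θ' ∧ θ' < θ ∧ θ < 3 / 2 ∧
      hh e r x θ = 0 ∧ hh e (-r) x θ' = 0 ∧ θ - θ' ≤ 4 * R0 * x ^ (e ^ 2 + 1) ∧
      ∀ β : ℝ, 1 ≤ β → β ≤ 2 → hh e r x β * hh e (-r) x β = 0 → β ≤ θ := by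
  obtain ⟨x1, hx10, hx11, hmono⟩ := hh_mono e he R0 hR0
  obtain ⟨CL, hCL0, hCL⟩ := BB_lip e
  obtain ⟨CB, hCB0, hCB⟩ := BB_bound e
  set x2 : ℝ := 1 / (8 * (1 + R0 * (CB + CL + 1))) with hx2
  have hRC : 0 ≤ R0 * (CB + CL + 1) := by positivity
  refine ⟨min x1 x2, lt_min hx10 (by positivity), (min_le_left _ _).trans hx11,
    fun x hx0 hx r hr0 hrR => ?_⟩
  have hxx1 : x ≤ x1 := hx.trans (min_le_left _ _)
  have hxx2 : x ≤ x2 := hx.trans (min_le_right _ _)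
  have hx1 : x ≤ 1 := hxx1.trans hx11
  rw [hx2, le_div_iff₀ (by positivity)] at hxx2
  have hxR : x * (R0 * (CB + CL + 1)) ≤ 1 / 8 := by nlinarith
  have hx4 : x ≤ 1 / 8 := by nlinarith
  have her : (1 : ℝ) ≤ e := by exact_mod_cast he
  -- u
  set u : ℝ := (1 + x) ^ ((1 : ℝ) / e) with hu
  have hue : u ^ e = 1 + x := by
    rw [hu, ← Real.rpow_natCast, ← Real.rpow_mul (by linarith)]
    have : (1 : ℝ) / e * (e : ℕ) = 1 := by field_simp
    rw [this, Real.rpow_one]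
  have hu1 : 1 < u := by
    rw [hu]
    exact Real.one_lt_rpow (by linarith) (by positivity)
  have hux : u ≤ 1 + x := by
    by_contra hc
    push Not at hc
    have h1 : (1 + x) ^ e < u ^ e := pow_lt_pow_left₀ hc (by linarith) (by omega)
    have h2 : 1 + x ≤ (1 + x) ^ e := le_self_pow₀ (by linarith) (by omega)
    linarith
  have hBu : BB e x u = (u - 1) ^ (e ^ 2) := BB_eq e x u hue
  have hu1p : 0 < (u - 1) ^ (e ^ 2) := by
    have : 0 < u - 1 := by linarith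
    positivity
  have hu1x : (u - 1) ^ (e ^ 2) ≤ x ^ (e ^ 2) := by
    have : 0 ≤ u - 1 := by linarith
    have : u - 1 ≤ x := by linarith
    gcongr
  have hxe : x ^ (e ^ 2) ≤ x := by
    have he2 : e ^ 2 ≠ 0 := by positivity
    exact pow_le_of_le_one hx0.le hx1 he2
  have hval : ∀ ρ : ℝ, hh e ρ x u = - ρ * x * (u - 1) ^ (e ^ 2) := by
    intro ρ
    unfold hh
    rw [hue, hBu]; ring
  -- value at 1
  have hB1 : |BB e x 1| ≤ (1 + CL) * x := by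
    have h1 := hCL x hx0.le hx1 u 1 (by linarith) (by linarith) (by norm_num) (by norm_num)
    rw [abs_of_nonneg (by linarith : 0 ≤ u - 1), hBu] at h1
    have h2 : |BB e x 1| ≤ |(u - 1) ^ (e ^ 2)| + |(u - 1) ^ (e ^ 2) - BB e x 1| := by
      have := abs_sub_abs_le_abs_sub (BB e x 1) ((u - 1) ^ (e ^ 2))
      rw [abs_sub_comm] at this
      linarith
    rw [abs_of_pos hu1p] at h2
    have h3 : CL * (u - 1) ≤ CL * x := by gcongr; linarith
    linarith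
  have hat1 : ∀ ρ : ℝ, |ρ| ≤ R0 → hh e ρ x 1 < 0 := by
    intro ρ hρ
    unfold hh
    have h1 : |ρ * x * BB e x 1| ≤ x / 4 := by
      rw [abs_mul, abs_mul, abs_of_pos hx0]
      calc |ρ| * x * |BB e x 1| ≤ R0 * x * ((1 + CL) * x) := by gcongr
        _ = (x * (R0 * (1 + CL))) * x := by ring
        _ ≤ (1 / 4) * x := by
            gcongr
            have : 0 ≤ x * (R0 * CB) := by positivity
            nlinarith
        _ = x / 4 := by ring
    have h2 := neg_abs_le (ρ * x * BB e x 1)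
    rw [one_pow]
    linarith
  have hat32 : ∀ ρ : ℝ, |ρ| ≤ R0 → 0 < hh e ρ x (3 / 2) := by
    intro ρ hρ
    unfold hh
    have h0 : (3 / 2 : ℝ) ≤ (3 / 2) ^ e := le_self_pow₀ (by norm_num) (by omega)
    have h1 : |ρ * x * BB e x (3 / 2)| ≤ 1 / 4 := by
      rw [abs_mul, abs_mul, abs_of_pos hx0]
      have hb := hCB x hx0.le hx1 (3 / 2) (by norm_num) (by norm_num)
      calc |ρ| * x * |BB e x (3 / 2)| ≤ R0 * x * CB := by gcongr
        _ = x * (R0 * CB) := by ring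
        _ ≤ 1 / 4 := by
            have : 0 ≤ x * (R0 * (CL + 1)) := by positivity
            nlinarith
    have h2 := le_abs_self (ρ * x * BB e x (3 / 2))
    linarith
  have hroot : ∀ ρ : ℝ, |ρ| ≤ R0 → ∃ y, 1 < y ∧ y < 3 / 2 ∧ hh e ρ x y = 0 := by
    intro ρ hρ
    have hivt := intermediate_value_Ioo (by norm_num : (1 : ℝ) ≤ 3 / 2)
      (hh_continuous e ρ x).continuousOn
    obtain ⟨y, ⟨hy1, hy2⟩, hy3⟩ := hivt ⟨hat1 ρ hρ, hat32 ρ hρ⟩
    exact ⟨y, hy1, hy2, hy3⟩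
  have hrabs : |r| ≤ R0 := by rw [abs_of_pos hr0]; exact hrR
  have hrabs' : |-r| ≤ R0 := by rw [abs_neg]; exact hrabs
  have hone : (1 : ℝ) - 1 / (4 * (e : ℝ)) ≤ 1 := by
    have : 0 ≤ 1 / (4 * (e : ℝ)) := by positivity
    linarith
  have hmono' : ∀ ρ : ℝ, |ρ| ≤ R0 → ∀ a b : ℝ, 1 ≤ a → a ≤ b → b ≤ 2 →
      (b - a) / 2 ≤ hh e ρ x b - hh e ρ x a := fun ρ hρ a b ha hab hb =>
    hmono x hx0.le hxx1 ρ hρ a b (by linarith) hab hb
  obtain ⟨θ, hθ1, hθ2, hθ3⟩ := hroot r hrabs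
  obtain ⟨θ', hθ'1, hθ'2, hθ'3⟩ := hroot (-r) hrabs'
  have hvr := hval r
  have hvr' := hval (-r)
  have hprod : 0 < r * x * (u - 1) ^ (e ^ 2) := by positivity
  have hprodle : r * x * (u - 1) ^ (e ^ 2) ≤ R0 * x ^ (e ^ 2 + 1) := by
    calc r * x * (u - 1) ^ (e ^ 2) ≤ R0 * x * x ^ (e ^ 2) := by gcongr
      _ = _ := by ring
  have huθ : u < θ := by
    by_contra hc
    push Not at hc
    have := hmono' r hrabs θ u hθ1.le hc (by linarith)
    rw [hθ3, hvr] at this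
    linarith
  have hθ'u : θ' < u := by
    by_contra hc
    push Not at hc
    have := hmono' (-r) hrabs' u θ' hu1.le hc (by linarith)
    rw [hθ'3, hvr'] at this
    linarith
  refine ⟨θ, θ', hθ'1, by linarith, hθ2, hθ3, hθ'3, ?_, ?_⟩
  · have h1 := hmono' r hrabs u θ hu1.le huθ.le (by linarith)
    have h2 := hmono' (-r) hrabs' θ' u hθ'1.le hθ'u.le (by linarith)
    rw [hθ3, hvr] at h1
    rw [hθ'3, hvr'] at h2
    linarith
  · intro β hβ1 hβ2 hβ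
    rcases mul_eq_zero.mp hβ with h | h
    · by_contra hc
      push Not at hc
      have := hmono' r hrabs θ β hθ1.le hc.le hβ2
      rw [hθ3, h] at this
      linarith
    · by_contra hc
      push Not at hc
      have := hmono' (-r) hrabs' θ' β hθ'1.le (by linarith) hβ2
      rw [hθ'3, h] at this
      linarith

/-- The truncated series approximates the root. -/
theorem theta_close (e : ℕ) (he : 1 ≤ e) (R J : ℕ) (s t : ℚ[X]) (hs1 : X ∣ s - 1)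
    (hs2 : X ^ (J + 1) ∣ s ^ 2 - (1 + X)) (ht1 : X ∣ t - 1)
    (ht2 : X ^ (J + 1) ∣ t ^ e - (1 + X) - X * (C (R : ℚ) * s * BB e X t)) :
    ∃ Cθ : ℝ, 0 ≤ Cθ ∧ ∃ x0 : ℝ, 0 < x0 ∧ x0 ≤ 1 ∧ ∀ x : ℝ, 0 < x → x ≤ x0 → ∀ θ : ℝ, 1 ≤ θ →
      θ ≤ 2 → hh e ((R : ℝ) * √(1 + x)) x θ = 0 →
      |θ - aeval x t| ≤ Cθ * x ^ (J + 1) ∧ 0 ≤ aeval x t ∧ aeval x t ≤ 2 := by
  obtain ⟨x1, hx10, hx11, hmono⟩ := hh_mono e he ((R : ℝ) * 2) (by positivity)
  obtain ⟨CB, hCB0, hCB⟩ := BB_bound e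
  obtain ⟨c1, hc10, hc1⟩ := bound_of_dvd (s - 1) 1 (by rw [pow_one]; exact hs1)
  obtain ⟨c2, hc20, hc2⟩ := bound_of_dvd _ _ hs2
  obtain ⟨c3, hc30, hc3⟩ := bound_of_dvd (t - 1) 1 (by rw [pow_one]; exact ht1)
  obtain ⟨c4, hc40, hc4⟩ := bound_of_dvd _ _ ht2
  have her : (1 : ℝ) ≤ e := by exact_mod_cast he
  refine ⟨2 * (c4 + R * c2 * CB), by positivity,
    min x1 (1 / (4 * (e : ℝ) * (c1 + c3 + 1))), lt_min hx10 (by positivity),
    (min_le_left _ _).trans hx11, fun x hx0 hx θ hθ1 hθ2 hθ => ?_⟩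
  have hxx1 : x ≤ x1 := hx.trans (min_le_left _ _)
  have hxx2 := hx.trans (min_le_right _ _)
  have hx1 : x ≤ 1 := hxx1.trans hx11
  rw [le_div_iff₀ (by positivity)] at hxx2
  have hc1' := hc1 x hx0.le hx1
  have hc2' := hc2 x hx0.le hx1
  have hc3' := hc3 x hx0.le hx1
  have hc4' := hc4 x hx0.le hx1
  set y : ℝ := aeval x t with hy
  set σ : ℝ := aeval x s with hσ
  simp only [map_sub, map_one, pow_one] at hc1' hc3'
  rw [map_sub, map_pow, map_add, map_one, aeval_X] at hc2'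
  have e4 : aeval x (t ^ e - (1 + X) - X * (C (R : ℚ) * s * BB e X t)) =
      y ^ e - (1 + x) - x * ((R : ℝ) * σ * BB e x y) := by
    have : aeval x (BB e X t) = BB e x y := by
      have := map_BB (aeval x : ℚ[X] →ₐ[ℚ] ℝ).toRingHom e X t
      simpa using this
    simp only [map_sub, map_mul, map_pow, map_add, map_one, aeval_X, this, ← hy, ← hσ, aeval_C]
    simp
  rw [e4] at hc4'
  rw [← hσ] at hc1' hc2'
  rw [← hy] at hc3'
  have hec : x * (4 * (e : ℝ)) * (c1 + c3 + 1) ≤ 1 := by nlinarith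
  have hcx : (c1 + c3 + 1) * x ≤ 1 / (4 * (e : ℝ)) := by
    rw [le_div_iff₀ (by positivity)]; nlinarith
  have h4e : 1 / (4 * (e : ℝ)) ≤ 1 / 4 := by
    apply one_div_le_one_div_of_le (by norm_num); linarith
  have hy1 : |y - 1| ≤ 1 / (4 * (e : ℝ)) := by
    refine hc3'.trans (le_trans ?_ hcx)
    nlinarith
  have hσ1 : |σ - 1| ≤ 1 / 4 := by
    refine hc1'.trans (le_trans ?_ (hcx.trans h4e))
    nlinarith
  rw [abs_le] at hy1 hσ1
  have hsq : |σ - √(1 + x)| ≤ c2 * x ^ (J + 1) := by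
    have hs0 : 0 ≤ √(1 + x) := Real.sqrt_nonneg _
    have hsq1 : 1 ≤ √(1 + x) := by
      rw [Real.one_le_sqrt]; linarith
    have hss : √(1 + x) ^ 2 = 1 + x := Real.sq_sqrt (by linarith)
    have e5 : σ ^ 2 - (1 + x) = (σ - √(1 + x)) * (σ + √(1 + x)) := by
      linear_combination hss
    rw [e5, abs_mul, abs_of_nonneg (by linarith : 0 ≤ σ + √(1 + x))] at hc2'
    have h6 : |σ - √(1 + x)| * 1 ≤ |σ - √(1 + x)| * (σ + √(1 + x)) := by
      gcongr; linarith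
    linarith
  have hsqle : √(1 + x) ≤ 2 := by
    rw [Real.sqrt_le_left (by norm_num)]; linarith
  have hBy := hCB x hx0.le hx1 y (by linarith) (by linarith)
  have hhy : |hh e ((R : ℝ) * √(1 + x)) x y| ≤ (c4 + R * c2 * CB) * x ^ (J + 1) := by
    have e6 : hh e ((R : ℝ) * √(1 + x)) x y = (y ^ e - (1 + x) - x * ((R : ℝ) * σ * BB e x y)) +
        (R : ℝ) * x * (σ - √(1 + x)) * BB e x y := by unfold hh; ring
    rw [e6]
    refine (abs_add_le _ _).trans ?_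
    have h7 : |(R : ℝ) * x * (σ - √(1 + x)) * BB e x y| ≤ R * 1 * (c2 * x ^ (J + 1)) * CB := by
      rw [abs_mul, abs_mul, abs_of_nonneg (by positivity : 0 ≤ (R : ℝ) * x)]
      gcongr
    calc _ ≤ c4 * x ^ (J + 1) + R * 1 * (c2 * x ^ (J + 1)) * CB := add_le_add hc4' h7
      _ = _ := by ring
  refine ⟨?_, by linarith, by linarith⟩
  have hr : |(R : ℝ) * √(1 + x)| ≤ (R : ℝ) * 2 := by
    rw [abs_of_nonneg (by positivity)]; gcongr
  have hinv4 : 0 ≤ 1 / (4 * (e : ℝ)) := by positivity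
  rcases le_total y θ with h | h
  · have h1 := hmono x hx0.le hxx1 _ hr y θ (by linarith) h hθ2
    rw [hθ, zero_sub] at h1
    have h2 := neg_abs_le (hh e ((R : ℝ) * √(1 + x)) x y)
    rw [abs_of_nonneg (by linarith)]
    linarith
  · have h1 := hmono x hx0.le hxx1 _ hr θ y (by linarith) h (by linarith)
    rw [hθ, sub_zero] at h1
    have h2 := le_abs_self (hh e ((R : ℝ) * √(1 + x)) x y)
    rw [abs_sub_comm, abs_of_nonneg (by linarith)]
    linarith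

end Pool.Agent.TH870.W
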