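import Mathlib
import Pool.Agent.TH870.W.Rt

set_option autoImplicit false

namespace Pool.Agent.TH870.W

open Polynomial Pool.Agent.Helper35

/-- the coefficients of `bI` -/
def aI (e M k : ℕ) : ℤ :=
  ((-1) ^ (e ^ 2 - k) * ((e ^ 2).choose k : ℤ)) * ((M : ℤ) ^ (e - k / e) * ((M : ℤ) + 1) ^ (k / e))

/-- integer form of `BB` -/
noncomputable def bI (e M : ℕ) : ℤ[X] :=
  ∑ k ∈ Finset.range (e ^ 2 + 1), C (aI e M k) * X ^ (k % e)

/-- The special polynomial. -/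
noncomputable def SI (e R M : ℕ) : ℤ[X] :=
  C ((M : ℤ) ^ (2 * e + 1)) * (C (M : ℤ) * X ^ e - C ((M : ℤ) + 1)) ^ 2 -
    C ((R : ℤ) ^ 2 * ((M : ℤ) + 1)) * (bI e M) ^ 2

theorem aeval_bI (e M : ℕ) (he : 1 ≤ e) (hM : 1 ≤ M) (y : ℝ) :
    aeval y (bI e M) = (M : ℝ) ^ e * BB e (1 / (M : ℝ)) y := by
  have hM0 : (M : ℝ) ≠ 0 := by exact_mod_cast (by omega : M ≠ 0)
  unfold bI BB
  rw [map_sum, Finset.mul_sum]
  refine Finset.sum_congr rfl (fun k hk => ?_)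
  have hk' : k ≤ e ^ 2 := by
    have := Finset.mem_range.mp hk
    omega
  have hke : k / e ≤ e := by
    calc k / e ≤ e ^ 2 / e := Nat.div_le_div_right hk'
      _ = e := by rw [pow_two, Nat.mul_div_cancel _ (by omega)]
  have hpow : (M : ℝ) ^ (e - k / e) * ((M : ℝ) + 1) ^ (k / e) =
      (M : ℝ) ^ e * (1 + 1 / (M : ℝ)) ^ (k / e) := by
    have h1 : (M : ℝ) ^ e = (M : ℝ) ^ (e - k / e) * (M : ℝ) ^ (k / e) := by
      rw [← pow_add]; congr 1; omega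
    rw [h1, mul_assoc, ← mul_pow]
    congr 2
    field_simp
  rw [map_mul, map_pow, aeval_X, aeval_C, aI]
  simp only [algebraMap_int_eq, eq_intCast]
  push_cast
  rw [hpow]
  ring

theorem aeval_SI (e R M : ℕ) (he : 1 ≤ e) (hM : 1 ≤ M) (y : ℝ) :
    aeval y (SI e R M) = (M : ℝ) ^ (2 * e + 3) *
      (hh e ((R : ℝ) * √(1 + 1 / (M : ℝ))) (1 / (M : ℝ)) y *
        hh e (-((R : ℝ) * √(1 + 1 / (M : ℝ)))) (1 / (M : ℝ)) y) := by
  have hMr : (0 : ℝ) < M := by exact_mod_cast (by omega : 0 < M)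
  have hM0 : (M : ℝ) ≠ 0 := hMr.ne'
  have hs : √(1 + 1 / (M : ℝ)) ^ 2 = 1 + 1 / (M : ℝ) := Real.sq_sqrt (by positivity)
  unfold SI
  simp only [map_sub, map_mul, map_pow, aeval_bI e M he hM, aeval_X, eq_intCast]
  push_cast
  simp only [map_natCast, map_add, map_one]
  unfold hh
  generalize BB e (1 / (M : ℝ)) y = B
  generalize y ^ e = Y
  have h1 : (Y - (1 + 1 / (M : ℝ)) - (R : ℝ) * √(1 + 1 / (M : ℝ)) * (1 / (M : ℝ)) * B) *
      (Y - (1 + 1 / (M : ℝ)) - -((R : ℝ) * √(1 + 1 / (M : ℝ))) * (1 / (M : ℝ)) * B) =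
      (Y - (1 + 1 / (M : ℝ))) ^ 2 - (R : ℝ) ^ 2 * (√(1 + 1 / (M : ℝ)) ^ 2) * (1 / (M : ℝ)) ^ 2 * B ^ 2 := by
    ring
  rw [h1, hs]
  have h2 : (M : ℝ) ^ (2 * e + 3) = ((M : ℝ) ^ e) ^ 2 * (M : ℝ) ^ 3 := by
    rw [← pow_mul, ← pow_add]; congr 1; ring
  have h3 : (M : ℝ) ^ (2 * e + 1) = ((M : ℝ) ^ e) ^ 2 * (M : ℝ) := by
    rw [← pow_mul, ← pow_succ]; congr 1; ring
  rw [h2, h3]
  generalize (M : ℝ) ^ e = Z
  field_simp

theorem bI_natDegree (e M : ℕ) (he : 1 ≤ e) : (bI e M).natDegree ≤ e - 1 := by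
  unfold bI
  apply natDegree_sum_le_of_forall_le
  intro k _
  refine (natDegree_C_mul_X_pow_le _ _).trans ?_
  have := Nat.mod_lt k (by omega : e > 0)
  omega

theorem SI_eq (e R M : ℕ) : SI e R M = C ((M : ℤ) ^ (2 * e + 3)) * X ^ (2 * e) -
    C (2 * (M : ℤ) ^ (2 * e + 2) * ((M : ℤ) + 1)) * X ^ e +
    C ((M : ℤ) ^ (2 * e + 1) * ((M : ℤ) + 1) ^ 2) - C ((R : ℤ) ^ 2 * ((M : ℤ) + 1)) * (bI e M) ^ 2 := by
  unfold SI
  have h1 : (X : ℤ[X]) ^ (2 * e) = (X ^ e) ^ 2 := by rw [← pow_mul]; congr 1; ring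
  rw [h1]
  simp only [C_mul, C_pow, C_add]
  have h2 : (C (M : ℤ) : ℤ[X]) ^ (2 * e + 3) = C (M : ℤ) ^ (2 * e + 1) * C (M : ℤ) ^ 2 := by
    rw [← pow_add]
  have h3 : (C (M : ℤ) : ℤ[X]) ^ (2 * e + 2) = C (M : ℤ) ^ (2 * e + 1) * C (M : ℤ) := by
    rw [← pow_succ]
  rw [h2, h3]
  have : (C (2 : ℤ) : ℤ[X]) = 2 := by simp
  rw [this]
  ring

theorem bI_sq_coeff (e M : ℕ) (he : 1 ≤ e) (i : ℕ) (hi : 2 * e ≤ i) : ((bI e M) ^ 2).coeff i = 0 := by
  apply coeff_eq_zero_of_natDegree_lt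
  have h1 := bI_natDegree e M he
  have h2 : ((bI e M) ^ 2).natDegree ≤ 2 * (bI e M).natDegree := natDegree_pow_le
  omega

theorem SI_coeff (e R M : ℕ) (i : ℕ) : (SI e R M).coeff i =
    (if i = 2 * e then (M : ℤ) ^ (2 * e + 3) else 0) -
    (if i = e then 2 * (M : ℤ) ^ (2 * e + 2) * ((M : ℤ) + 1) else 0) +
    (if i = 0 then (M : ℤ) ^ (2 * e + 1) * ((M : ℤ) + 1) ^ 2 else 0) -
    (R : ℤ) ^ 2 * ((M : ℤ) + 1) * ((bI e M) ^ 2).coeff i := by
  rw [SI_eq, coeff_sub, coeff_add, coeff_sub, coeff_C_mul_X_pow, coeff_C_mul_X_pow, coeff_C,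
    coeff_C_mul]

theorem SI_natDegree (e R M : ℕ) (he : 1 ≤ e) (hM : 1 ≤ M) : (SI e R M).natDegree = 2 * e := by
  apply natDegree_eq_of_le_of_coeff_ne_zero
  · rw [natDegree_le_iff_coeff_eq_zero]
    intro i hi
    rw [SI_coeff, if_neg (by omega), if_neg (by omega), if_neg (by omega),
      bI_sq_coeff e M he i (by omega)]
    ring
  · rw [SI_coeff, if_pos rfl, if_neg (by omega), if_neg (by omega),
      bI_sq_coeff e M he _ le_rfl]
    have : (M : ℤ) ≠ 0 := by exact_mod_cast (by omega : M ≠ 0)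
    rw [mul_zero, sub_zero, add_zero, sub_zero]
    exact pow_ne_zero _ this

theorem SI_lead (e R M : ℕ) (he : 1 ≤ e) (hM : 1 ≤ M) :
    (SI e R M).leadingCoeff = (M : ℤ) ^ (2 * e + 3) := by
  rw [leadingCoeff, SI_natDegree e R M he hM, SI_coeff, if_pos rfl, if_neg (by omega),
    if_neg (by omega), bI_sq_coeff e M he _ le_rfl]
  ring

theorem bI_coeff_zero (e M : ℕ) (he : 1 ≤ e) :
    ((M : ℤ) + 1) ∣ (bI e M).coeff 0 - (-1) ^ (e ^ 2) * (M : ℤ) ^ e := by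
  have h1 : (bI e M).coeff 0 - (-1) ^ (e ^ 2) * (M : ℤ) ^ e =
      ∑ k ∈ Finset.range (e ^ 2), (C (aI e M (k + 1)) * X ^ ((k + 1) % e) : ℤ[X]).coeff 0 := by
    unfold bI
    rw [finsetSum_coeff, Finset.sum_range_succ']
    have : (C (aI e M 0) * X ^ (0 % e) : ℤ[X]).coeff 0 = (-1) ^ (e ^ 2) * (M : ℤ) ^ e := by
      rw [Nat.zero_mod, pow_zero, mul_one, coeff_C_zero, aI]
      simp
    rw [this]; ring
  rw [h1]
  apply Finset.dvd_sum
  intro k _
  rw [coeff_C_mul_X_pow]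
  split_ifs with h
  · have h2 : 1 ≤ (k + 1) / e := by
      have h3 := Nat.div_add_mod (k + 1) e
      rw [← h] at h3
      by_contra hc
      have h4 : (k + 1) / e = 0 := Nat.lt_one_iff.mp (not_le.mp hc)
      rw [h4] at h3
      omega
    unfold aI
    apply Dvd.dvd.mul_left
    apply Dvd.dvd.mul_left
    exact dvd_pow_self _ (by omega)
  · exact dvd_zero _

theorem SI_irr (e R M : ℕ) (he : 1 ≤ e) (hM : 1 ≤ M) (hR : 1 ≤ R) (hRM : R < M + 1)
    (hp : (M + 1).Prime) : IrrQ (SI e R M).primPart := by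
  have hℓ : Prime ((M : ℤ) + 1) := by
    have := Nat.prime_iff_prime_int.mp hp
    push_cast at this
    exact this
  set ℓ : ℤ := (M : ℤ) + 1 with hℓdef
  have hℓM : ¬ ℓ ∣ (M : ℤ) := by
    intro h
    have h1 : ℓ ∣ 1 := by
      have h2 : (1 : ℤ) = ℓ - M := by rw [hℓdef]; ring
      rw [h2]
      exact dvd_sub (dvd_refl ℓ) h
    exact hℓ.not_dvd_one h1
  have hℓMpow : ∀ a, ¬ ℓ ∣ (M : ℤ) ^ a := fun a h => hℓM (hℓ.dvd_of_dvd_pow h)
  have hℓR : ¬ ℓ ∣ (R : ℤ) := by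
    intro h
    have h1 := Int.le_of_dvd (by exact_mod_cast hR) h
    rw [hℓdef] at h1
    omega
  set S := (SI e R M).primPart with hS
  set c := (SI e R M).content with hc
  have hSc : ∀ i, (SI e R M).coeff i = c * S.coeff i := by
    intro i
    conv_lhs => rw [eq_C_content_mul_primPart (SI e R M)]
    rw [coeff_C_mul]
  have hSdeg : S.natDegree = 2 * e := by
    rw [hS, natDegree_primPart, SI_natDegree e R M he hM]
  have hlead : c * S.coeff (2 * e) = (M : ℤ) ^ (2 * e + 3) := by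
    rw [← hSc, ← SI_lead e R M he hM, leadingCoeff, SI_natDegree e R M he hM]
  have hℓc : ¬ ℓ ∣ c := by
    intro h
    apply hℓMpow (2 * e + 3)
    rw [← hlead]
    exact Dvd.dvd.mul_right h _
  have hprim : S.IsPrimitive := isPrimitive_primPart _
  have hS0 : S ≠ 0 := hprim.ne_zero
  rw [IrrQ, ← IsPrimitive.Int.irreducible_iff_irreducible_map_cast hprim]
  apply irreducible_of_eisenstein_criterion (P := Ideal.span {ℓ})
  · rw [Ideal.span_singleton_prime hℓ.ne_zero]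
    exact hℓ
  · rw [Ideal.mem_span_singleton, leadingCoeff, hSdeg]
    intro h
    apply hℓMpow (2 * e + 3)
    rw [← hlead]
    exact Dvd.dvd.mul_left h _
  · intro i hi
    rw [degree_eq_natDegree hS0, hSdeg] at hi
    have hi' : i < 2 * e := by exact_mod_cast hi
    rw [Ideal.mem_span_singleton]
    have h1 : ℓ ∣ c * S.coeff i := by
      rw [← hSc, SI_coeff, if_neg (by omega)]
      apply dvd_sub
      · apply dvd_add
        · apply dvd_sub (dvd_zero _)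
          split_ifs
          · exact dvd_mul_left _ _
          · exact dvd_zero _
        · split_ifs
          · exact Dvd.dvd.mul_left (dvd_pow_self _ (by norm_num)) _
          · exact dvd_zero _
      · exact Dvd.dvd.mul_right (dvd_mul_left _ _) _
    exact (hℓ.dvd_or_dvd h1).resolve_left hℓc
  · rw [degree_eq_natDegree hS0, hSdeg]
    exact_mod_cast (by omega : 0 < 2 * e)
  · rw [Ideal.span_singleton_pow, Ideal.mem_span_singleton]
    intro h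
    have h1 : ℓ ^ 2 ∣ (SI e R M).coeff 0 := by
      rw [hSc]; exact Dvd.dvd.mul_left h _
    rw [SI_coeff, if_neg (by omega), if_neg (by omega), if_pos rfl, zero_sub, neg_zero, zero_add] at h1
    have h2 : ℓ ^ 2 ∣ (R : ℤ) ^ 2 * ℓ * ((bI e M) ^ 2).coeff 0 := by
      have h3 : ℓ ^ 2 ∣ (M : ℤ) ^ (2 * e + 1) * ((M : ℤ) + 1) ^ 2 := by
        rw [← hℓdef]; exact dvd_mul_left _ _
      have h4 := dvd_sub h3 h1
      rw [sub_sub_cancel] at h4
      exact h4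
    have h5 : ℓ ∣ (R : ℤ) ^ 2 * ((bI e M) ^ 2).coeff 0 := by
      have h6 : ℓ * ℓ ∣ ℓ * ((R : ℤ) ^ 2 * ((bI e M) ^ 2).coeff 0) := by
        have e1 : ℓ * ((R : ℤ) ^ 2 * ((bI e M) ^ 2).coeff 0) = (R : ℤ) ^ 2 * ℓ * ((bI e M) ^ 2).coeff 0 := by
          ring
        rw [e1, ← pow_two]; exact h2
      exact (mul_dvd_mul_iff_left hℓ.ne_zero).mp h6
    rcases hℓ.dvd_or_dvd h5 with h6 | h6
    · exact hℓR (hℓ.dvd_of_dvd_pow h6)
    · have h7 : ((bI e M) ^ 2).coeff 0 = ((bI e M).coeff 0) ^ 2 := by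
        rw [pow_two, mul_coeff_zero, pow_two]
      rw [h7] at h6
      have h8 := hℓ.dvd_of_dvd_pow h6
      have h9 := bI_coeff_zero e M he
      rw [← hℓdef] at h9
      have h10 : ℓ ∣ (-1) ^ (e ^ 2) * (M : ℤ) ^ e := by
        have := dvd_sub h8 h9
        rwa [sub_sub_cancel] at this
      rcases hℓ.dvd_or_dvd h10 with h11 | h11
      · have h12 : ℓ ∣ 1 := by
          have := Dvd.dvd.mul_right h11 ((-1) ^ (e ^ 2))
          rwa [← mul_pow, neg_one_mul, neg_neg, one_pow] at this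
        exact hℓ.not_dvd_one h12
      · exact hℓMpow e h11
  · exact hprim

theorem SI_bound (e R : ℕ) (he : 1 ≤ e) : ∃ C : ℝ, 1 ≤ C ∧ ∀ M : ℕ, 1 ≤ M → ∀ i,
    |((SI e R M).coeff i : ℝ)| ≤ C * (M : ℝ) ^ (2 * e + 3) := by
  set W : ℝ := ∑ k ∈ Finset.range (e ^ 2 + 1), ((e ^ 2).choose k : ℝ) * 2 ^ e with hW
  refine ⟨9 + (R : ℝ) ^ 2 * 2 * (W * W), ?_, fun M hM i => ?_⟩
  · have : 0 ≤ (R : ℝ) ^ 2 * 2 * (W * W) := by positivity
    linarith
  have hMr : (1 : ℝ) ≤ M := by exact_mod_cast hM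
  have haI : ∀ k ∈ Finset.range (e ^ 2 + 1), |(aI e M k : ℝ)| ≤
      (((e ^ 2).choose k : ℝ) * 2 ^ e) * (M : ℝ) ^ e := by
    intro k hk
    have hk' : k ≤ e ^ 2 := by
      have := Finset.mem_range.mp hk
      omega
    have hke : k / e ≤ e := by
      calc k / e ≤ e ^ 2 / e := Nat.div_le_div_right hk'
        _ = e := by rw [pow_two, Nat.mul_div_cancel _ (by omega)]
    unfold aI
    push_cast
    rw [abs_mul, abs_mul, abs_pow, abs_neg, abs_one, one_pow, one_mul,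
      abs_of_nonneg (by positivity : (0 : ℝ) ≤ ((e ^ 2).choose k : ℝ)),
      abs_of_nonneg (by positivity : (0 : ℝ) ≤ (M : ℝ) ^ (e - k / e) * ((M : ℝ) + 1) ^ (k / e)),
      mul_assoc]
    refine mul_le_mul_of_nonneg_left ?_ (by positivity)
    calc (M : ℝ) ^ (e - k / e) * ((M : ℝ) + 1) ^ (k / e)
        ≤ (2 * (M : ℝ)) ^ (e - k / e) * (2 * (M : ℝ)) ^ (k / e) := by
          gcongr <;> linarith
      _ = 2 ^ e * (M : ℝ) ^ e := by
          rw [← pow_add, ← mul_pow]; congr 1; omega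
  have hb2 : |(((bI e M) ^ 2).coeff i : ℝ)| ≤ (W * (M : ℝ) ^ e) * (W * (M : ℝ) ^ e) := by
    have e1 : ((bI e M) ^ 2).coeff i = ∑ k ∈ Finset.range (e ^ 2 + 1),
        ∑ l ∈ Finset.range (e ^ 2 + 1), (if i = k % e + l % e then aI e M k * aI e M l else 0) := by
      rw [pow_two]
      unfold bI
      rw [Finset.sum_mul_sum, finsetSum_coeff]
      refine Finset.sum_congr rfl (fun k _ => ?_)
      rw [finsetSum_coeff]
      refine Finset.sum_congr rfl (fun l _ => ?_)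
      have : (C (aI e M k) * X ^ (k % e) * (C (aI e M l) * X ^ (l % e)) : ℤ[X]) =
          C (aI e M k * aI e M l) * X ^ (k % e + l % e) := by
        rw [C_mul, pow_add]; ring
      rw [this, coeff_C_mul_X_pow]
    rw [e1]
    push_cast
    rw [hW, Finset.sum_mul, Finset.sum_mul_sum]
    refine (Finset.abs_sum_le_sum_abs _ _).trans (Finset.sum_le_sum (fun k hk => ?_))
    refine (Finset.abs_sum_le_sum_abs _ _).trans (Finset.sum_le_sum (fun l hl => ?_))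
    split_ifs
    · rw [abs_mul]
      have := haI k hk
      have := haI l hl
      gcongr
    · simp only [abs_zero]; positivity
  rw [SI_coeff]
  push_cast
  have hM2 : (M : ℝ) + 1 ≤ 2 * M := by linarith
  have hMp : ∀ a b : ℕ, a ≤ b → (M : ℝ) ^ a ≤ (M : ℝ) ^ b := fun a b h => pow_le_pow_right₀ hMr h
  have t1 : |(if i = 2 * e then (M : ℝ) ^ (2 * e + 3) else 0)| ≤ (M : ℝ) ^ (2 * e + 3) := by
    split_ifs
    · rw [abs_of_nonneg (by positivity)]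
    · simp only [abs_zero]; positivity
  have t2 : |(if i = e then 2 * (M : ℝ) ^ (2 * e + 2) * ((M : ℝ) + 1) else 0)| ≤
      4 * (M : ℝ) ^ (2 * e + 3) := by
    split_ifs
    · rw [abs_of_nonneg (by positivity)]
      calc 2 * (M : ℝ) ^ (2 * e + 2) * ((M : ℝ) + 1) ≤ 2 * (M : ℝ) ^ (2 * e + 2) * (2 * M) := by gcongr
        _ = 4 * (M : ℝ) ^ (2 * e + 3) := by ring
    · simp only [abs_zero]; positivity
  have t3 : |(if i = 0 then (M : ℝ) ^ (2 * e + 1) * ((M : ℝ) + 1) ^ 2 else 0)| ≤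
      4 * (M : ℝ) ^ (2 * e + 3) := by
    split_ifs
    · rw [abs_of_nonneg (by positivity)]
      calc (M : ℝ) ^ (2 * e + 1) * ((M : ℝ) + 1) ^ 2 ≤ (M : ℝ) ^ (2 * e + 1) * (2 * M) ^ 2 := by gcongr
        _ = 4 * (M : ℝ) ^ (2 * e + 3) := by ring
    · simp only [abs_zero]; positivity
  have t4 : |(R : ℝ) ^ 2 * ((M : ℝ) + 1) * (((bI e M) ^ 2).coeff i : ℝ)| ≤
      (R : ℝ) ^ 2 * 2 * (W * W) * (M : ℝ) ^ (2 * e + 3) := by
    rw [abs_mul, abs_of_nonneg (by positivity : (0 : ℝ) ≤ (R : ℝ) ^ 2 * ((M : ℝ) + 1))]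
    calc (R : ℝ) ^ 2 * ((M : ℝ) + 1) * |(((bI e M) ^ 2).coeff i : ℝ)|
        ≤ (R : ℝ) ^ 2 * (2 * M) * ((W * (M : ℝ) ^ e) * (W * (M : ℝ) ^ e)) := by gcongr
      _ = (R : ℝ) ^ 2 * 2 * (W * W) * (M : ℝ) ^ (2 * e + 1) := by
          have : (M : ℝ) ^ (2 * e + 1) = (M : ℝ) * ((M : ℝ) ^ e * (M : ℝ) ^ e) := by
            rw [← pow_add, ← pow_succ']; congr 1; ring
          rw [this]; ring
      _ ≤ _ := by
          have := hMp (2 * e + 1) (2 * e + 3) (by omega)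
          gcongr
  calc _ ≤ (M : ℝ) ^ (2 * e + 3) + 4 * (M : ℝ) ^ (2 * e + 3) + 4 * (M : ℝ) ^ (2 * e + 3) +
        (R : ℝ) ^ 2 * 2 * (W * W) * (M : ℝ) ^ (2 * e + 3) := by
        refine (abs_sub _ _).trans (add_le_add ?_ t4)
        refine (abs_add_le _ _).trans (add_le_add ?_ t3)
        exact (abs_sub _ _).trans (add_le_add t1 t2)
    _ = _ := by ring

theorem primPart_coeff_le (F : ℤ[X]) (hF : F ≠ 0) (i : ℕ) :
    |(F.primPart.coeff i : ℝ)| ≤ |(F.coeff i : ℝ)| := by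
  have h1 : F.coeff i = F.content * F.primPart.coeff i := by
    conv_lhs => rw [eq_C_content_mul_primPart F]
    rw [coeff_C_mul]
  have h2 : F.content ≠ 0 := by
    intro h0
    exact hF (content_eq_zero_iff.mp h0)
  have h3 : (1 : ℝ) ≤ |(F.content : ℝ)| := by
    exact_mod_cast Int.one_le_abs h2
  rw [h1]
  push_cast
  rw [abs_mul]
  have := abs_nonneg (F.primPart.coeff i : ℝ)
  nlinarith

end Pool.Agent.TH870.W
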