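import Mathlib
import Pool.Agent.TH870.W.Spc

set_option autoImplicit false

namespace Pool.Agent.TH870.W

open Polynomial Pool.Agent.Helper35

/-- The family of special numbers: for every `N` large a real algebraic number `θ` of degree `2e`,
height `≪ N^(2e+3)`, with a conjugate `θ'` at distance `≪ N^(-e²)`, and with an optimal measure in
degrees `< e`. -/
theorem special (e nmax : ℕ) (he : 1 ≤ e) (hn : 1 ≤ nmax) : ∃ C : ℝ, 1 ≤ C ∧ ∃ N0 : ℕ, 1 ≤ N0 ∧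
    ∀ N : ℕ, N0 ≤ N → ∃ (θ θ' : ℝ) (S : ℤ[X]), 1 < θ' ∧ θ' < θ ∧ θ < 3 / 2 ∧
      (θ - θ') * (N : ℝ) ^ (e ^ 2) ≤ C ∧ IrrQ S ∧ S.natDegree = 2 * e ∧ aeval θ S = 0 ∧
      aeval θ' S = 0 ∧ (∀ β : ℝ, aeval β S = 0 → β ≤ θ ∨ 2 ≤ β) ∧
      (∀ i, |(S.coeff i : ℝ)| ≤ C * (N : ℝ) ^ (2 * e + 3)) ∧
      (∀ m, m < e → ∀ P : ℤ[X], P ≠ 0 → P.natDegree ≤ m → C * ht P ≤ (N : ℝ) ^ nmax →
        1 ≤ C * (|aeval θ P| * ((N : ℝ) * ht P) ^ m)) := by
  obtain ⟨R, hR, s, t, hs1, hs2, ht1, ht2, hdet⟩ := exists_TR e nmax (nmax * e) he le_rfl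
  obtain ⟨Cθ, hCθ, x1, hx10, hx11, hclose⟩ := theta_close e he R (nmax * e) s t hs1 hs2 ht1 ht2
  obtain ⟨CL, hCL, M1, hM1, hLD⟩ := LD_all e nmax hn t hdet (nmax * e) le_rfl Cθ hCθ
  obtain ⟨x2, hx20, hx21, hroots⟩ := hh_roots e he ((R : ℝ) * 2) (by positivity)
  obtain ⟨CS, hCS, hSb⟩ := SI_bound e R he
  set C : ℝ := CL * 2 ^ e + 8 * R + CS * 2 ^ (2 * e + 3) with hC
  have h2e : (1 : ℝ) ≤ 2 ^ e := one_le_pow₀ (by norm_num)
  have h2e3 : (1 : ℝ) ≤ 2 ^ (2 * e + 3) := one_le_pow₀ (by norm_num)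
  have hRr : (1 : ℝ) ≤ R := by exact_mod_cast hR
  have hc1 : CL ≤ CL * 2 ^ e := by nlinarith
  have hc3 : 0 ≤ CS * 2 ^ (2 * e + 3) := by positivity
  have hc2 : (0 : ℝ) ≤ 8 * R := by positivity
  have hc0 : 0 ≤ CL * 2 ^ e := by positivity
  refine ⟨C, by rw [hC]; linarith, M1 + R + ⌈1 / x1⌉₊ + ⌈1 / x2⌉₊ + 1, by omega, fun N hN => ?_⟩
  obtain ⟨ℓ, hℓp, hℓ1, hℓ2⟩ := Nat.exists_prime_lt_and_le_two_mul N (by omega)
  obtain ⟨M, rfl⟩ : ∃ M, ℓ = M + 1 := ⟨ℓ - 1, by omega⟩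
  have hNM : N ≤ M := by omega
  have hM2N : M ≤ 2 * N := by omega
  have hNr : (1 : ℝ) ≤ N := by exact_mod_cast (by omega : 1 ≤ N)
  have hNMr : (N : ℝ) ≤ M := by exact_mod_cast hNM
  have hM2Nr : (M : ℝ) ≤ 2 * N := by exact_mod_cast hM2N
  have hMpos : (0 : ℝ) < M := by linarith
  set x : ℝ := 1 / (M : ℝ) with hx
  have hx0 : 0 < x := by positivity
  have hxN : x ≤ 1 / (N : ℝ) := one_div_le_one_div_of_le (by linarith) hNMr
  have hxx : ∀ y : ℝ, 0 < y → ⌈1 / y⌉₊ ≤ M → x ≤ y := by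
    intro y hy h
    have h1 : 1 / y ≤ M := (Nat.le_ceil _).trans (by exact_mod_cast h)
    rw [hx, one_div_le hMpos hy]
    exact h1
  have hxx1 : x ≤ x1 := hxx x1 hx10 (by omega)
  have hxx2 : x ≤ x2 := hxx x2 hx20 (by omega)
  have hx1 : x ≤ 1 := hxx1.trans hx11
  set r : ℝ := (R : ℝ) * √(1 + x) with hr
  have hsq1 : 1 ≤ √(1 + x) := by rw [Real.one_le_sqrt]; linarith
  have hsq2 : √(1 + x) ≤ 2 := by rw [Real.sqrt_le_left (by norm_num)]; linarith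
  have hr0 : 0 < r := by rw [hr]; positivity
  have hrR : r ≤ (R : ℝ) * 2 := by rw [hr]; gcongr
  obtain ⟨θ, θ', h1, h2, h3, h4, h5, h6, h7⟩ := hroots x hx0 hxx2 r hr0 hrR
  have hSI0 : SI e R M ≠ 0 := by
    intro h0
    have := SI_natDegree e R M he (by omega)
    rw [h0, natDegree_zero] at this
    omega
  have hcont : (SI e R M).content ≠ 0 := fun h0 => hSI0 (content_eq_zero_iff.mp h0)
  have hprim : ∀ y : ℝ, aeval y (SI e R M) = 0 ↔ aeval y (SI e R M).primPart = 0 := by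
    intro y
    have e1 : aeval y (SI e R M) = ((SI e R M).content : ℝ) * aeval y (SI e R M).primPart := by
      conv_lhs => rw [eq_C_content_mul_primPart (SI e R M)]
      rw [map_mul, aeval_C]
      simp
    rw [e1, mul_eq_zero]
    have : ((SI e R M).content : ℝ) ≠ 0 := by exact_mod_cast hcont
    tauto
  have hval : ∀ y : ℝ, aeval y (SI e R M) = (M : ℝ) ^ (2 * e + 3) * (hh e r x y * hh e (-r) x y) :=
    fun y => aeval_SI e R M he (by omega) y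
  refine ⟨θ, θ', (SI e R M).primPart, h1, h2, h3, ?_,
    SI_irr e R M he (by omega) hR (by omega) hℓp, ?_, ?_, ?_, ?_, ?_, ?_⟩
  · -- closeness
    have hxe : x ^ (e ^ 2 + 1) ≤ x ^ (e ^ 2) := pow_le_pow_of_le_one hx0.le hx1 (by omega)
    have hxe2 : x ^ (e ^ 2) ≤ (1 / (N : ℝ)) ^ (e ^ 2) := by gcongr
    have hN0 : (0 : ℝ) < (N : ℝ) ^ (e ^ 2) := by positivity
    calc (θ - θ') * (N : ℝ) ^ (e ^ 2)
        ≤ (4 * (R * 2) * (1 / (N : ℝ)) ^ (e ^ 2)) * (N : ℝ) ^ (e ^ 2) := by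
          gcongr
          refine h6.trans ?_
          have : x ^ (e ^ 2 + 1) ≤ (1 / (N : ℝ)) ^ (e ^ 2) := hxe.trans hxe2
          gcongr
      _ = 8 * R := by
          rw [one_div, inv_pow]
          field_simp
          ring
      _ ≤ C := by rw [hC]; linarith
  · rw [natDegree_primPart, SI_natDegree e R M he (by omega)]
  · rw [← hprim, hval, h4, zero_mul, mul_zero]
  · rw [← hprim, hval, h5, mul_zero, mul_zero]
  · intro β hβ
    rw [← hprim, hval] at hβ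
    have hβ2 := (mul_eq_zero.mp hβ).resolve_left (by positivity)
    by_cases hb1 : β < 1
    · left; linarith
    · by_cases hb2 : 2 < β
      · right; exact hb2.le
      · left
        push Not at hb1 hb2
        exact h7 β hb1 hb2 hβ2
  · intro i
    refine (primPart_coeff_le _ hSI0 i).trans ((hSb M (by omega) i).trans ?_)
    calc CS * (M : ℝ) ^ (2 * e + 3) ≤ CS * (2 * (N : ℝ)) ^ (2 * e + 3) := by gcongr
      _ = CS * 2 ^ (2 * e + 3) * (N : ℝ) ^ (2 * e + 3) := by rw [mul_pow]; ring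
      _ ≤ C * (N : ℝ) ^ (2 * e + 3) := by
          gcongr
          rw [hC]; linarith
  · intro m hm P hP hPd hPH
    obtain ⟨g1, g2, g3⟩ := hclose x hx0 hxx1 θ (by linarith) (by linarith) h4
    have hHt : (0 : ℝ) ≤ ht P := Nat.cast_nonneg _
    have h8 := hLD M (by omega) θ (by linarith) (by linarith) g2 g3 g1 m hm P hP hPd (by
      calc CL * ht P ≤ C * ht P := by
            gcongr
            rw [hC]; linarith
        _ ≤ (N : ℝ) ^ nmax := hPH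
        _ ≤ (M : ℝ) ^ nmax := by gcongr)
    refine h8.trans ?_
    calc CL * (|aeval θ P| * ((M : ℝ) * ht P) ^ m)
        ≤ CL * (|aeval θ P| * ((2 * (N : ℝ)) * ht P) ^ m) := by gcongr
      _ = CL * 2 ^ m * (|aeval θ P| * ((N : ℝ) * ht P) ^ m) := by
          rw [mul_assoc 2, mul_pow 2]; ring
      _ ≤ CL * 2 ^ e * (|aeval θ P| * ((N : ℝ) * ht P) ^ m) := by
          have : (2 : ℝ) ^ m ≤ 2 ^ e := pow_le_pow_right₀ (by norm_num) hm.le
          gcongr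
      _ ≤ C * (|aeval θ P| * ((N : ℝ) * ht P) ^ m) := by
          gcongr
          rw [hC]; linarith

end Pool.Agent.TH870.W
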