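import Mathlib
import Pool.Agent.Helper35.TMain
import Pool.Agent.TH870.W.Spd

set_option autoImplicit false

namespace Pool.Agent.TH870.W

open Polynomial Pool.Agent.Helper35

theorem quot_root (F : ℝ[X]) (a B : ℝ) (d : ℕ) (ha : |a| ≤ 1) (hB0 : 0 ≤ B)
    (hB : ∀ i, |F.coeff i| ≤ B) (hd : F.natDegree ≤ d) (hr : F.eval a = 0) :
    ∃ G : ℝ[X], F = (X - C a) * G ∧ G.natDegree ≤ d ∧ ∀ i, |G.coeff i| ≤ d * B := by
  refine ⟨F /ₘ (X - C a), (mul_divByMonic_eq_iff_isRoot.mpr hr).symm, ?_, fun i => ?_⟩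
  · rw [natDegree_divByMonic _ (monic_X_sub_C a)]
    omega
  · rw [coeff_divByMonic_X_sub_C]
    refine (Finset.abs_sum_le_sum_abs _ _).trans ?_
    calc ∑ k ∈ Finset.Icc (i + 1) F.natDegree, |a ^ (k - (i + 1)) * F.coeff k|
        ≤ ∑ k ∈ Finset.Icc (i + 1) F.natDegree, B := by
          refine Finset.sum_le_sum (fun k _ => ?_)
          rw [abs_mul, abs_pow]
          calc |a| ^ (k - (i + 1)) * |F.coeff k| ≤ 1 * B :=
                mul_le_mul (pow_le_one₀ (abs_nonneg _) ha) (hB k) (abs_nonneg _) zero_le_one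
            _ = B := one_mul _
      _ = (Finset.Icc (i + 1) F.natDegree).card * B := by rw [Finset.sum_const, nsmul_eq_mul]
      _ ≤ d * B := by
          have : (Finset.Icc (i + 1) F.natDegree).card ≤ d := by
            rw [Nat.card_Icc]; omega
          have h2 : ((Finset.Icc (i + 1) F.natDegree).card : ℝ) ≤ d := by exact_mod_cast this
          gcongr

theorem eval_bound (G : ℝ[X]) (B : ℝ) (d : ℕ) (hB0 : 0 ≤ B) (hB : ∀ i, |G.coeff i| ≤ B)
    (hd : G.natDegree ≤ d) (x : ℝ) (hx : |x| ≤ 1) : |G.eval x| ≤ ((d : ℝ) + 1) * B := by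
  rw [eval_eq_sum_range' (by omega : G.natDegree < d + 1)]
  refine (Finset.abs_sum_le_sum_abs _ _).trans ?_
  calc ∑ i ∈ Finset.range (d + 1), |G.coeff i * x ^ i| ≤ ∑ i ∈ Finset.range (d + 1), B := by
        refine Finset.sum_le_sum (fun i _ => ?_)
        rw [abs_mul, abs_pow]
        calc |G.coeff i| * |x| ^ i ≤ B * 1 :=
              mul_le_mul (hB i) (pow_le_one₀ (abs_nonneg _) hx) (by positivity) hB0
          _ = B := mul_one _
    _ = ((d : ℝ) + 1) * B := by
        rw [Finset.sum_const, Finset.card_range, nsmul_eq_mul]; push_cast; ring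

theorem two_roots (S : ℤ[X]) (d : ℕ) (hd : S.natDegree ≤ d) (α α' : ℝ) (hα : |α| ≤ 1)
    (hα' : |α'| ≤ 1) (hne : α ≠ α') (h1 : aeval α S = 0) (h2 : aeval α' S = 0) :
    (∀ x : ℝ, |x| ≤ 1 → |aeval x S| ≤ |x - α| * |x - α'| * (((d : ℝ) + 1) ^ 3 * ht S)) ∧
    |aeval α (derivative S)| ≤ |α - α'| * (((d : ℝ) + 1) ^ 3 * ht S) := by
  set F : ℝ[X] := S.map (Int.castRingHom ℝ) with hF
  have hev : ∀ (x : ℝ) (T : ℤ[X]), (T.map (Int.castRingHom ℝ)).eval x = aeval x T := by
    intro x T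
    rw [eval_map]
    simp [aeval_def]
  have hFd : F.natDegree ≤ d := natDegree_map_le.trans hd
  have hFc : ∀ i, |F.coeff i| ≤ ht S := by
    intro i
    rw [hF, coeff_map]
    exact abs_coeff_le_ht S i
  have hH0 : (0 : ℝ) ≤ ht S := Nat.cast_nonneg _
  obtain ⟨G1, hG1, hG1d, hG1c⟩ := quot_root F α (ht S) d hα hH0 hFc hFd (by rw [hF, hev]; exact h1)
  have hG1r : G1.eval α' = 0 := by
    have h3 : F.eval α' = 0 := by rw [hF, hev]; exact h2
    rw [hG1, eval_mul, eval_sub, eval_X, eval_C] at h3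
    exact (mul_eq_zero.mp h3).resolve_left (sub_ne_zero.mpr (Ne.symm hne))
  obtain ⟨G2, hG2, hG2d, hG2c⟩ := quot_root G1 α' (d * ht S) d hα' (by positivity) hG1c hG1d hG1r
  have hbd : ∀ x : ℝ, |x| ≤ 1 → |G2.eval x| ≤ ((d : ℝ) + 1) ^ 3 * ht S := by
    intro x hx
    refine (eval_bound G2 _ d (by positivity) hG2c hG2d x hx).trans ?_
    have hd0 : (0 : ℝ) ≤ d := Nat.cast_nonneg _
    calc ((d : ℝ) + 1) * (d * (d * ht S)) = (((d : ℝ) + 1) * d * d) * ht S := by ring
      _ ≤ (((d : ℝ) + 1) * (d + 1) * (d + 1)) * ht S := by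
          gcongr <;> linarith
      _ = _ := by ring
  constructor
  · intro x hx
    have h3 : aeval x S = (x - α) * ((x - α') * G2.eval x) := by
      rw [← hev, ← hF, hG1, hG2, eval_mul, eval_mul, eval_sub, eval_sub, eval_X, eval_C, eval_C]
    rw [h3, abs_mul, abs_mul, mul_assoc]
    have := hbd x hx
    gcongr
  · have h3 : aeval α (derivative S) = (α - α') * G2.eval α := by
      have h4 : derivative F = G1 + (X - C α) * derivative G1 := by
        rw [hG1, derivative_mul, derivative_sub, derivative_X, derivative_C, sub_zero, one_mul]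
      rw [← hev, ← derivative_map, ← hF, h4, eval_add, eval_mul, eval_sub, eval_X, eval_C, sub_self,
        zero_mul, add_zero, hG2, eval_mul, eval_sub, eval_X, eval_C]
    rw [h3, abs_mul]
    have := hbd α hα
    gcongr

theorem irrQ_primPart (F : ℤ[X]) (hF : IrrQ F) : IrrQ F.primPart := by
  have h0 : F.content ≠ 0 := fun h => hF.ne_zero (content_eq_zero_iff.mp h)
  unfold IrrQ at hF ⊢
  rw [eq_C_content_mul_primPart F, Polynomial.map_mul, map_C] at hF
  rwa [irreducible_isUnit_mul] at hF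
  rw [isUnit_C]
  exact isUnit_iff_ne_zero.mpr (by
    simp only [eq_intCast, ne_eq, Int.cast_eq_zero]
    exact h0)

theorem primPart_root (F : ℤ[X]) (hF : F ≠ 0) (x : ℝ) : aeval x F.primPart = 0 ↔ aeval x F = 0 := by
  have e1 : aeval x F = (F.content : ℝ) * aeval x F.primPart := by
    conv_lhs => rw [eq_C_content_mul_primPart F]
    rw [map_mul, aeval_C]
    simp
  rw [e1, mul_eq_zero]
  have : (F.content : ℝ) ≠ 0 := by
    have h0 : F.content ≠ 0 := fun h => hF (content_eq_zero_iff.mp h)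
    exact_mod_cast h0
  tauto

theorem coprime_of_root (P S : ℤ[X]) (hP : IrrQ P) (hS : IrrQ S) (x : ℝ) (hSx : aeval x S = 0)
    (hPx : aeval x P ≠ 0) :
    IsCoprime (P.map (Int.castRingHom ℚ)) (S.map (Int.castRingHom ℚ)) := by
  have hev : ∀ (R : ℤ[X]), aeval x (R.map (Int.castRingHom ℚ)) = aeval x R := by
    intro R
    have : (Int.castRingHom ℚ) = algebraMap ℤ ℚ := rfl
    rw [this, aeval_map_algebraMap]
  by_contra hnc
  have h1 : P.map (Int.castRingHom ℚ) ∣ S.map (Int.castRingHom ℚ) :=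
    (Irreducible.dvd_iff_not_isCoprime hP).mpr hnc
  have h2 : S.map (Int.castRingHom ℚ) ∣ P.map (Int.castRingHom ℚ) := hP.dvd_symm hS h1
  obtain ⟨G, hG⟩ := h2
  apply hPx
  rw [← hev P, hG, map_mul, hev, hSx, zero_mul]

end Pool.Agent.TH870.W
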