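import Mathlib
import Pool.Agent.Helper35.TMain
import Pool.Agent.TH870.W.Two

set_option autoImplicit false

namespace Pool.Agent.TH870.W

open Polynomial Pool.Agent.Helper35

/-- numeric part of the low degree case -/
theorem low_num (m : ℕ) (C W H a : ℝ) (hC : 1 ≤ C) (hW : 1 ≤ W) (hH1 : 1 ≤ H) (ha : 0 ≤ a)
    (h1 : 1 ≤ C * W ^ m * (a * H ^ (5 * m + 8))) (h2 : 2 * (C * W ^ m) ≤ H) :
    2 ≤ a * H ^ (25 * (m + 1)) := by
  have hC0 : 0 < C := by linarith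
  have hH0 : 0 < H := by linarith
  have hX : 0 ≤ a * H ^ (5 * m + 8) := by positivity
  have h3 : 2 ≤ (2 * (C * W ^ m)) * (a * H ^ (5 * m + 8)) := by linarith
  have h4 : (2 * (C * W ^ m)) * (a * H ^ (5 * m + 8)) ≤ H * (a * H ^ (5 * m + 8)) :=
    mul_le_mul_of_nonneg_right h2 hX
  have h5 : H * (a * H ^ (5 * m + 8)) = a * H ^ (5 * m + 9) := by rw [pow_succ H (5 * m + 8)]; ring
  have h6 : H ^ (5 * m + 9) ≤ H ^ (25 * (m + 1)) := pow_le_pow_right₀ hH1 (by omega)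
  have h7 : a * H ^ (5 * m + 9) ≤ a * H ^ (25 * (m + 1)) := mul_le_mul_of_nonneg_left h6 ha
  linarith

theorem high_low (e V N m : ℕ) (n : ℤ) (θ C H a : ℝ) (hN1 : 1 ≤ N) (hm : m < e)
    (hC : 1 ≤ C) (hn : |(n : ℝ)| ≤ 3 * N) (P : ℤ[X]) (hP : IrrQ P) (hPm : P.natDegree = m)
    (hH : H = ht P) (haP : a = |aeval (θ + (n : ℝ) / N) P|)
    (hLD : ∀ m, m < e → ∀ P : ℤ[X], P ≠ 0 → P.natDegree ≤ m → C * ht P ≤ (N : ℝ) ^ (e + V + 1) →
        1 ≤ C * (|aeval θ P| * ((N : ℝ) * ht P) ^ m))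
    (hK5 : 2 * C * (((e : ℝ) + 1) * 4 ^ e) ≤ N)
    (hK4 : 2 * C * (((e : ℝ) + 1) * 4 ^ e) ^ e ≤ H)
    (hHV : H ≤ 2 * (N : ℝ) ^ V) (hNH : (N : ℝ) ^ m ≤ H ^ 4) :
    2 ≤ a * H ^ (25 * (m + 1)) := by
  have hNz : ((N : ℕ) : ℤ) ≠ 0 := by
    have : N ≠ 0 := by omega
    exact_mod_cast this
  have hNr : (1 : ℝ) ≤ N := by exact_mod_cast hN1
  have hN0 : (0 : ℝ) < N := by linarith
  have hH1 : 1 ≤ H := by rw [hH]; exact_mod_cast ht_pos hP.ne_zero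
  have hC0 : 0 < C := by linarith
  have ha0 : 0 ≤ a := by rw [haP]; exact abs_nonneg _
  obtain ⟨W, hW⟩ : ∃ W : ℝ, W = ((m : ℝ) + 1) * 4 ^ m := ⟨_, rfl⟩
  have hW1 : 1 ≤ W := by
    have h12 : (1 : ℝ) ≤ 4 ^ m := one_le_pow₀ (by norm_num)
    have h13 : (0 : ℝ) ≤ m := Nat.cast_nonneg _
    rw [hW]; nlinarith
  have hWe : W ≤ ((e : ℝ) + 1) * 4 ^ e := by
    have h12 : (4 : ℝ) ^ m ≤ 4 ^ e := pow_le_pow_right₀ (by norm_num) hm.le
    have h13 : (m : ℝ) ≤ e := by exact_mod_cast hm.le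
    rw [hW]; gcongr
  obtain ⟨P', hP'⟩ : ∃ P', P' = shf P N n := ⟨_, rfl⟩
  have hP'irr : IrrQ P' := by rw [hP']; exact shf_irr _ _ _ hNz hP
  have hP'deg : P'.natDegree = m := by rw [hP', shf_natDegree _ _ _ hNz, hPm]
  have hP'ev : |aeval θ P'| = (N : ℝ) ^ m * a := by
    rw [hP', shf_aeval _ _ _ hNz, hPm, Int.cast_natCast, abs_mul,
      abs_of_pos (by positivity : (0 : ℝ) < (N : ℝ) ^ m), haP]
  have hP'ht : (ht P' : ℝ) ≤ W * H * (N : ℝ) ^ m := by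
    apply ht_le_of_real P' hP'irr.ne_zero
    intro i
    have h13 := shf_coeff P N n i (4 * N) (by
      push_cast
      rw [abs_of_nonneg (by positivity : (0 : ℝ) ≤ N)]
      linarith)
    rw [hPm, ← hH, ← hP'] at h13
    refine h13.trans (le_of_eq ?_)
    rw [hW, mul_pow]; ring
  have hrange : C * ht P' ≤ (N : ℝ) ^ (e + V + 1) := by
    have hNm : (N : ℝ) ^ m ≤ (N : ℝ) ^ e := pow_le_pow_right₀ hNr hm.le
    have h14 : (ht P' : ℝ) ≤ (((e : ℝ) + 1) * 4 ^ e) * (2 * (N : ℝ) ^ V) * (N : ℝ) ^ e := by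
      refine hP'ht.trans ?_
      have hH0 : 0 ≤ H := by linarith
      gcongr
    calc C * (ht P' : ℝ) ≤ C * ((((e : ℝ) + 1) * 4 ^ e) * (2 * (N : ℝ) ^ V) * (N : ℝ) ^ e) := by
          gcongr
      _ = (2 * C * (((e : ℝ) + 1) * 4 ^ e)) * ((N : ℝ) ^ e * (N : ℝ) ^ V) := by ring
      _ ≤ N * ((N : ℝ) ^ e * (N : ℝ) ^ V) := by
          gcongr
      _ = (N : ℝ) ^ (e + V + 1) := by rw [← pow_add, ← pow_succ']
  have h12 := hLD m hm P' hP'irr.ne_zero hP'deg.le hrange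
  rw [hP'ev] at h12
  have hH0 : 0 < H := by linarith
  have h13 : 1 ≤ C * W ^ m * (a * H ^ (5 * m + 8)) := by
    have g1 : ((N : ℝ) * ht P') ^ m ≤ ((N : ℝ) * (W * H * (N : ℝ) ^ m)) ^ m := by
      gcongr
    have g2 : ((N : ℝ) * (W * H * (N : ℝ) ^ m)) ^ m =
        (N : ℝ) ^ m * W ^ m * H ^ m * ((N : ℝ) ^ m) ^ m := by
      rw [mul_pow, mul_pow, mul_pow]; ring
    have g3 : ((N : ℝ) ^ m) ^ (m + 2) ≤ (H ^ 4) ^ (m + 2) := by gcongr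
    have g4 : ((N : ℝ) ^ m) ^ (m + 2) = (N : ℝ) ^ m * (N : ℝ) ^ m * ((N : ℝ) ^ m) ^ m := by
      rw [pow_add]; ring
    have g5 : H ^ (5 * m + 8) = H ^ m * (H ^ 4) ^ (m + 2) := by
      rw [← pow_mul, ← pow_add]; congr 1; ring
    have g6 : (N : ℝ) ^ m * a * ((N : ℝ) * ht P') ^ m ≤ W ^ m * (a * H ^ (5 * m + 8)) := by
      calc (N : ℝ) ^ m * a * ((N : ℝ) * ht P') ^ m
          ≤ (N : ℝ) ^ m * a * ((N : ℝ) ^ m * W ^ m * H ^ m * ((N : ℝ) ^ m) ^ m) := by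
            rw [← g2]
            exact mul_le_mul_of_nonneg_left g1 (by positivity)
        _ = W ^ m * a * H ^ m * (((N : ℝ) ^ m) ^ (m + 2)) := by rw [g4]; ring
        _ ≤ W ^ m * a * H ^ m * ((H ^ 4) ^ (m + 2)) :=
            mul_le_mul_of_nonneg_left g3 (by positivity)
        _ = W ^ m * (a * H ^ (5 * m + 8)) := by rw [g5]; ring
    calc (1 : ℝ) ≤ C * ((N : ℝ) ^ m * a * ((N : ℝ) * ht P') ^ m) := h12
      _ ≤ C * (W ^ m * (a * H ^ (5 * m + 8))) := mul_le_mul_of_nonneg_left g6 hC0.le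
      _ = _ := by ring
  have hCW : 2 * (C * W ^ m) ≤ H := by
    have h14 : (1 : ℝ) ≤ ((e : ℝ) + 1) * 4 ^ e := hW1.trans hWe
    have h15 : (((e : ℝ) + 1) * 4 ^ e) ^ m ≤ (((e : ℝ) + 1) * 4 ^ e) ^ e :=
      pow_le_pow_right₀ h14 hm.le
    have h16 : W ^ m ≤ (((e : ℝ) + 1) * 4 ^ e) ^ m := by gcongr
    calc 2 * (C * W ^ m) ≤ 2 * (C * (((e : ℝ) + 1) * 4 ^ e) ^ e) := by
          have := h16.trans h15
          gcongr
      _ = 2 * C * (((e : ℝ) + 1) * 4 ^ e) ^ e := by ring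
      _ ≤ H := hK4
  exact low_num m C W H a hC hW1 hH1 ha0 h13 hCW

theorem high_high (e N m : ℕ) (α B H a : ℝ) (hα : |α| ≤ 1) (he : 1 ≤ e) (hm : e ≤ m)
    (P T : ℤ[X]) (hP : IrrQ P) (hT : IrrQ T) (hPm : P.natDegree = m) (hTd : T.natDegree = 2 * e)
    (hH : H = ht P) (hB : B = ht T) (ha : a = |aeval α P|) (hPα : aeval α P ≠ 0)
    (hTα : aeval α T = 0) (hBup : B ≤ (N : ℝ) ^ (4 * e + 4)) (hNH : (N : ℝ) ^ m ≤ H ^ 4)
    (hK6 : 2 * ((m + 2 * e).factorial : ℝ) ≤ H) :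
    2 ≤ a * H ^ (25 * (m + 1)) := by
  have hH1 : 1 ≤ H := by rw [hH]; exact_mod_cast ht_pos hP.ne_zero
  have hB1 : 1 ≤ B := by rw [hB]; exact_mod_cast ht_pos hT.ne_zero
  have hH0 : 0 < H := by linarith
  have hB0 : 0 < B := by linarith
  have ha0 : 0 ≤ a := by rw [ha]; exact abs_nonneg _
  have hcop := coprime_of_root P T hP hT α hTα hPα
  have key := one_le_res2 P T hcop (by omega) α hα H B (a / H) hH0 hB0
    (fun i => by rw [hH]; exact abs_coeff_le_ht P i) (fun i => by rw [hB]; exact abs_coeff_le_ht T i)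
    (by rw [mul_div_cancel₀ _ hH0.ne', ha]) (by rw [hTα, abs_zero]; positivity)
  rw [hPm, hTd] at key
  generalize hF : ((m + 2 * e).factorial : ℝ) = F at key hK6
  have hF0 : 0 ≤ F := by rw [← hF]; positivity
  have hBm : B ^ m ≤ H ^ (4 * (4 * e + 4)) := by
    calc B ^ m ≤ ((N : ℝ) ^ (4 * e + 4)) ^ m := by gcongr
      _ = ((N : ℝ) ^ m) ^ (4 * e + 4) := by rw [← pow_mul, ← pow_mul, mul_comm]
      _ ≤ (H ^ 4) ^ (4 * e + 4) := by gcongr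
      _ = _ := by rw [← pow_mul]
  have h2e : H ^ (2 * e) = H ^ (2 * e - 1) * H := by
    rw [← pow_succ]; congr 1; omega
  have e1 : F * (H ^ (2 * e) * B ^ m) * (a / H) = F * (H ^ (2 * e - 1) * B ^ m * a) := by
    rw [h2e]; field_simp
  rw [e1] at key
  have h3 : 2 ≤ (2 * F) * (H ^ (2 * e - 1) * B ^ m * a) := by linarith
  have h4 : (2 * F) * (H ^ (2 * e - 1) * B ^ m * a) ≤ H * (H ^ (2 * e - 1) * B ^ m * a) :=
    mul_le_mul_of_nonneg_right hK6 (by positivity)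
  have h5 : H * (H ^ (2 * e - 1) * B ^ m * a) ≤ H * (H ^ (2 * e - 1) * H ^ (4 * (4 * e + 4)) * a) := by
    gcongr
  have h6 : H * (H ^ (2 * e - 1) * H ^ (4 * (4 * e + 4)) * a) =
      a * H ^ (1 + (2 * e - 1) + 4 * (4 * e + 4)) := by
    rw [pow_add, pow_add, pow_one]; ring
  have h7 : H ^ (1 + (2 * e - 1) + 4 * (4 * e + 4)) ≤ H ^ (25 * (m + 1)) :=
    pow_le_pow_right₀ hH1 (by omega)
  have h8 := mul_le_mul_of_nonneg_left h7 ha0
  linarith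

/-- the translated special polynomial -/
theorem trans_poly (e N : ℕ) (n : ℤ) (θ θ' C : ℝ) (hN1 : 1 ≤ N) (hC : 1 ≤ C)
    (hn : |(n : ℝ)| ≤ 3 * N) (S : ℤ[X]) (hS : IrrQ S) (hSd : S.natDegree = 2 * e)
    (h7 : aeval θ S = 0) (h8 : aeval θ' S = 0) (hθ : θ < 3 / 2)
    (h9 : ∀ β : ℝ, aeval β S = 0 → β ≤ θ ∨ 2 ≤ β)
    (h10 : ∀ i, |(S.coeff i : ℝ)| ≤ C * (N : ℝ) ^ (2 * e + 3))
    (hK1 : (2 * (e : ℝ) + 1) * C * 4 ^ (2 * e) ≤ N) :
    ∃ T : ℤ[X], IrrQ T ∧ T.IsPrimitive ∧ T.natDegree = 2 * e ∧ aeval (θ + (n : ℝ) / N) T = 0 ∧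
      aeval (θ' + (n : ℝ) / N) T = 0 ∧
      (∀ β : ℝ, aeval β T = 0 → β ≤ θ + (n : ℝ) / N ∨ θ + (n : ℝ) / N + 1 / 2 ≤ β) ∧
      (ht T : ℝ) ≤ (N : ℝ) ^ (4 * e + 4) := by
  have hNz : ((N : ℕ) : ℤ) ≠ 0 := by
    have : N ≠ 0 := by omega
    exact_mod_cast this
  have hNr : (1 : ℝ) ≤ N := by exact_mod_cast hN1
  have hN0 : (0 : ℝ) < N := by linarith
  obtain ⟨S1, hS1⟩ : ∃ S1, S1 = SP S N n := ⟨_, rfl⟩
  have hS1ev : ∀ x : ℝ, aeval x S1 = (N : ℝ) ^ (2 * e) * aeval (x - (n : ℝ) / (N : ℝ)) S := by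
    intro x
    rw [hS1, SP, shf_aeval _ _ _ hNz, hSd]
    have e1 : x + ((-n : ℤ) : ℝ) / ((N : ℤ) : ℝ) = x - (n : ℝ) / (N : ℝ) := by
      rw [Int.cast_neg, neg_div, Int.cast_natCast, sub_eq_add_neg]
    rw [e1, Int.cast_natCast]
  have hS1irr : IrrQ S1 := by rw [hS1]; exact shf_irr _ _ _ hNz hS
  have hS1deg : S1.natDegree = 2 * e := by rw [hS1, SP, shf_natDegree _ _ _ hNz, hSd]
  have hS10 : S1 ≠ 0 := hS1irr.ne_zero
  have hTirr : IrrQ S1.primPart := irrQ_primPart S1 hS1irr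
  have hTroot : ∀ x : ℝ, aeval x S1.primPart = 0 ↔ aeval (x - (n : ℝ) / (N : ℝ)) S = 0 := by
    intro x
    rw [primPart_root S1 hS10, hS1ev, mul_eq_zero]
    have : (N : ℝ) ^ (2 * e) ≠ 0 := by positivity
    tauto
  refine ⟨S1.primPart, hTirr, isPrimitive_primPart _, by rw [natDegree_primPart, hS1deg], ?_, ?_,
    ?_, ?_⟩
  · rw [hTroot, add_sub_cancel_right]; exact h7
  · rw [hTroot, add_sub_cancel_right]; exact h8
  · intro β hβ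
    rw [hTroot] at hβ
    rcases h9 _ hβ with h | h
    · left; linarith
    · right; linarith
  · have hSht : (ht S : ℝ) ≤ C * (N : ℝ) ^ (2 * e + 3) := ht_le_of_real S hS.ne_zero _ h10
    have h12 : (ht S1.primPart : ℝ) ≤
        ((2 * (e : ℝ) + 1) * C * 4 ^ (2 * e)) * (N : ℝ) ^ (4 * e + 3) := by
      apply ht_le_of_real _ hTirr.ne_zero
      intro i
      refine (primPart_coeff_le S1 hS10 i).trans ?_
      have h13 := shf_coeff S N (-n) i (4 * N) (by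
        push_cast
        rw [abs_of_nonneg (by positivity : (0 : ℝ) ≤ N), abs_neg]
        linarith)
      rw [hSd] at h13
      have h14 : |((S1.coeff i : ℤ) : ℝ)| ≤ (((2 * e : ℕ) : ℝ) + 1) * ht S * (4 * (N : ℝ)) ^ (2 * e) := by
        rw [hS1]; exact h13
      refine h14.trans ?_
      push_cast
      calc (2 * (e : ℝ) + 1) * ht S * (4 * (N : ℝ)) ^ (2 * e)
          ≤ (2 * (e : ℝ) + 1) * (C * (N : ℝ) ^ (2 * e + 3)) * (4 * (N : ℝ)) ^ (2 * e) := by gcongr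
        _ = _ := by
            have e1 : (N : ℝ) ^ (4 * e + 3) = (N : ℝ) ^ (2 * e + 3) * (N : ℝ) ^ (2 * e) := by
              rw [← pow_add]; congr 1; ring
            rw [e1, mul_pow]; ring
    refine h12.trans ?_
    calc ((2 * (e : ℝ) + 1) * C * 4 ^ (2 * e)) * (N : ℝ) ^ (4 * e + 3)
        ≤ N * (N : ℝ) ^ (4 * e + 3) := mul_le_mul_of_nonneg_right hK1 (by positivity)
      _ = (N : ℝ) ^ (4 * e + 4) := by ring

/-- lower bound for the height from the closeness of the two roots -/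
theorem ht_lower (e j N : ℕ) (hj : 1 ≤ j) (he : 1 ≤ e) (hN1 : 1 ≤ N) (α α' : ℝ) (hα : |α| ≤ 1)
    (hα' : |α'| ≤ 1) (hlt : α' < α) (T : ℤ[X]) (hT : IrrQ T) (hTd : T.natDegree = 2 * e)
    (hTα : aeval α T = 0) (hTα' : aeval α' T = 0)
    (hclose : (α - α') * (N : ℝ) ^ ((4 * e + 4) * j) ≤ 1)
    (hK3 : Kc (2 * e) * (2 * (e : ℝ) + 1) ^ 3 < N) : (N : ℝ) ≤ ht T := by
  have hNr : (1 : ℝ) ≤ N := by exact_mod_cast hN1
  have hN0 : (0 : ℝ) < N := by linarith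
  have hd0 : 0 < α - α' := by linarith
  obtain ⟨B, hB⟩ : ∃ B : ℝ, B = ht T := ⟨_, rfl⟩
  have hB1 : 1 ≤ B := by rw [hB]; exact_mod_cast ht_pos hT.ne_zero
  have hB0 : 0 < B := by linarith
  rw [← hB]
  by_contra hc
  push Not at hc
  obtain ⟨_, h12⟩ := two_roots T (2 * e) hTd.le α α' hα hα' (by linarith) hTα hTα'
  rw [← hB, abs_of_pos hd0] at h12
  have h13 := deriv_bound hT α hα ((α - α') * ((((2 * e : ℕ) : ℝ) + 1) ^ 3 * B)) (by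
    rw [hTα, abs_zero]; positivity) h12
  rw [hTd, ← hB] at h13
  push_cast at h13
  obtain ⟨K3, hK3'⟩ : ∃ K3 : ℝ, K3 = Kc (2 * e) * (2 * (e : ℝ) + 1) ^ 3 := ⟨_, rfl⟩
  rw [← hK3'] at hK3
  have hK30 : 0 < K3 := by
    have := Kc_pos (m := 2 * e) (by omega)
    rw [hK3']; positivity
  have h14 : 1 ≤ K3 * ((α - α') * (N : ℝ) ^ (4 * e + 1)) := by
    calc (1 : ℝ) ≤ Kc (2 * e) * B ^ (2 * (2 * e)) * ((α - α') * ((2 * (e : ℝ) + 1) ^ 3 * B)) := h13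
      _ = K3 * ((α - α') * B ^ (4 * e + 1)) := by
          have e1 : B ^ (4 * e + 1) = B ^ (2 * (2 * e)) * B := by
            rw [← pow_succ]; congr 1; ring
          rw [e1, hK3']; ring
      _ ≤ K3 * ((α - α') * (N : ℝ) ^ (4 * e + 1)) := by
          gcongr
  have h15 : (α - α') * (N : ℝ) ^ (4 * e + 2) ≤ 1 := by
    refine le_trans ?_ hclose
    have : (N : ℝ) ^ (4 * e + 2) ≤ (N : ℝ) ^ ((4 * e + 4) * j) := by
      apply pow_le_pow_right₀ hNr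
      calc 4 * e + 2 ≤ 4 * e + 4 := by omega
        _ = (4 * e + 4) * 1 := by ring
        _ ≤ (4 * e + 4) * j := Nat.mul_le_mul_left _ hj
    gcongr
  have e1 : (α - α') * (N : ℝ) ^ (4 * e + 2) = (α - α') * (N : ℝ) ^ (4 * e + 1) * N := by
    rw [pow_succ]; ring
  rw [e1] at h15
  obtain ⟨Q, hQ⟩ : ∃ Q : ℝ, Q = (α - α') * (N : ℝ) ^ (4 * e + 1) := ⟨_, rfl⟩
  rw [← hQ] at h14 h15
  have h16 : (N : ℝ) ≤ K3 := by
    calc (N : ℝ) = 1 * N := (one_mul _).symm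
      _ ≤ (K3 * Q) * N := mul_le_mul_of_nonneg_right h14 hN0.le
      _ = K3 * (Q * N) := by ring
      _ ≤ K3 * 1 := mul_le_mul_of_nonneg_left h15 hK30.le
      _ = K3 := mul_one _
  linarith

end Pool.Agent.TH870.W
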