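import Mathlib
import Pool.Agent.TH870.W.Cnt
import Pool.Agent.TH870.W.StgA

set_option autoImplicit false

namespace Pool.Agent.TH870.W

open Polynomial Pool.Agent.Helper35

/-- The output of a stage. -/
def SpecP (k j : ℕ) (w r α α' : ℝ) (S : ℤ[X]) : Prop :=
  IrrQ S ∧ S.IsPrimitive ∧ S.natDegree = 8 * j + 2 ∧ aeval α S = 0 ∧ aeval α' S = 0 ∧ α' < α ∧
    -1 ≤ α' ∧ (α - α') * (ht S : ℝ) ^ j ≤ 1 ∧ (∀ β : ℝ, aeval β S = 0 → β ≤ α ∨ α + 1 / 2 ≤ β) ∧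
    r = 1 / (ht S : ℝ) ^ (320 * j + 81) ∧ k ≤ ht S ∧ Good k w r α S

theorem stage_aux (k j e V p A N : ℕ) (n : ℤ) (w a r θ θ' α α' B C : ℝ) (T : ℤ[X])
    (he5 : 5 ≤ e) (hE : V = (4 * e + 4) * (320 * j + 81))
    (hp : p.Prime) (hA : A = 4 * (k + 2) ^ 2 + 1) (hN : N = p ^ A)
    (hpk : 4 * (k + 1) ^ 2 + 2 ≤ p) (hC1 : 1 ≤ C)
    (hK5 : 2 * C * (((e : ℝ) + 1) * 4 ^ e) ≤ p)
    (hK4 : 2 * C * (((e : ℝ) + 1) * 4 ^ e) ^ e ≤ p)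
    (hK6 : 2 * ((k + 2 * e).factorial : ℝ) ≤ p)
    (hα : α = θ + (n : ℝ) / (N : ℝ)) (hα0 : 0 ≤ α) (hα1 : α ≤ 1) (hn : |(n : ℝ)| ≤ 3 * N)
    (hTirr : IrrQ T) (hTprim : T.IsPrimitive) (hTdeg : T.natDegree = 2 * e) (hTα : aeval α T = 0)
    (hB : B = ht T) (hBup : B ≤ (N : ℝ) ^ (4 * e + 4)) (hNB : (N : ℝ) ≤ B)
    (hr : r = 1 / B ^ (320 * j + 81))
    (h11 : ∀ m, m < e → ∀ P : ℤ[X], P ≠ 0 → P.natDegree ≤ m → C * ht P ≤ (N : ℝ) ^ (e + V + 1) →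
        1 ≤ C * (|aeval θ P| * ((N : ℝ) * ht P) ^ m))
    (hlow : ∀ P : ℤ[X], IrrQ P → P.natDegree ≤ k →
      1 ≤ w * (ht P : ℝ) ^ (36 * (P.natDegree + 1)) → (ht P) ^ (2 * (P.natDegree + 1)) ≤ p ^ A →
      2 < |aeval α P| * (ht P : ℝ) ^ (40 * (P.natDegree + 1)))
    (hshift : ∀ P : ℤ[X], IrrQ P → P.natDegree ≤ k → ∀ h : ℕ, 2 * P.natDegree + 2 ≤ h →
      4 * h ≤ A * P.natDegree → ht P ≤ p ^ (h + 1) →
      1 < |aeval α P| * (p : ℝ) ^ (10 * (P.natDegree + 1) * h)) :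
    Good k w r α T := by
  have hp1 : (1 : ℝ) < p := by exact_mod_cast hp.one_lt
  have hpNn : p ≤ N := by rw [hN]; exact Nat.le_self_pow (by omega) p
  have hpN : (p : ℝ) ≤ N := by exact_mod_cast hpNn
  have hN1 : (1 : ℝ) ≤ N := by linarith
  have hN0 : (0 : ℝ) < N := by linarith
  have hB1 : 1 ≤ B := hN1.trans hNB
  have hB0 : 0 < B := by linarith
  obtain ⟨E, hE'⟩ : ∃ E, E = 320 * j + 81 := ⟨_, rfl⟩
  rw [← hE'] at hE hr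
  have hr0 : 0 < r := by rw [hr]; positivity
  have hBE : B ^ E ≤ (N : ℝ) ^ V := by
    rw [hE, pow_mul]
    gcongr
  have hr22 : r * (N : ℝ) ^ 22 ≤ 1 := by
    rw [hr, div_mul_eq_mul_div, one_mul, div_le_one (by positivity)]
    calc (N : ℝ) ^ 22 ≤ B ^ 22 := by gcongr
      _ ≤ B ^ E := pow_le_pow_right₀ hB1 (by omega)
  refine good_of' k p A hp hA w α T hTirr hTprim hTα hpk hα0 hα1 hlow hshift r hr0
    (by rw [← hN]; exact hr22) ?_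
  rw [← hN]
  intro P hP hPk hPα hNH hpH hrH
  have hm1 : 1 ≤ P.natDegree := hP.natDegree_pos
  obtain ⟨m, hm⟩ : ∃ m, m = P.natDegree := ⟨_, rfl⟩
  obtain ⟨H, hH⟩ : ∃ H : ℝ, H = ht P := ⟨_, rfl⟩
  rw [← hm, ← hH] at hNH hrH ⊢
  rw [← hH] at hpH
  rw [← hm] at hPk
  have hH1 : 1 ≤ H := by rw [hH]; exact_mod_cast ht_pos hP.ne_zero
  have hNnat : 1 ≤ N := by exact_mod_cast hN1
  by_cases hme : m < e
  · have hHV : H ≤ 2 * (N : ℝ) ^ V := by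
      have h12 : H ≤ H ^ (36 * (m + 1)) := le_self_pow₀ hH1 (by omega)
      have h13 : H ^ (36 * (m + 1)) < 2 * B ^ E := by
        rw [hr, div_mul_eq_mul_div, one_mul, div_lt_iff₀ (by positivity)] at hrH
        exact hrH
      linarith
    exact high_low e V N m n θ C H _ hNnat hme hC1 hn P hP hm.symm hH (by rw [hα]) h11
      (hK5.trans hpN) (hK4.trans hpH) hHV hNH
  · push Not at hme
    refine high_high e N m α B H _ (by rw [abs_of_nonneg hα0]; exact hα1) (by omega) hme P T hP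
      hTirr hm.symm hTdeg hH hB rfl hPα hTα hBup hNH ?_
    have h12 : (m + 2 * e).factorial ≤ (k + 2 * e).factorial := Nat.factorial_le (by omega)
    have h13 : ((m + 2 * e).factorial : ℝ) ≤ ((k + 2 * e).factorial : ℝ) := by exact_mod_cast h12
    linarith

theorem stage (k j : ℕ) (hj : 1 ≤ j) : ∃ w0 : ℝ, 0 < w0 ∧ ∀ w : ℝ, 0 < w → w ≤ w0 →
    ∀ a : ℝ, 0 ≤ a → a + w ≤ 1 → ∀ M0 : ℕ, ∃ (r α α' : ℝ) (S : ℤ[X]), 0 < r ∧ a ≤ α ∧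
      α ≤ a + w ∧ (M0 : ℝ) * r ≤ 1 ∧ SpecP k j w r α α' S := by
  obtain ⟨w0, hw0, hcount⟩ := count_step k
  refine ⟨w0, hw0, fun w hwpos hw a ha haw M0 => ?_⟩
  obtain ⟨p0, hp0⟩ := hcount w hwpos hw a ha haw
  obtain ⟨e, he⟩ : ∃ e, e = 4 * j + 1 := ⟨_, rfl⟩
  have he1 : 1 ≤ e := by omega
  have he5 : 5 ≤ e := by omega
  obtain ⟨V, hV⟩ : ∃ V, V = (4 * e + 4) * (320 * j + 81) := ⟨_, rfl⟩
  obtain ⟨C, hC1, N0, hN01, hspec⟩ := special e (e + V + 1) he1 (by omega)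
  obtain ⟨K1, hK1⟩ : ∃ K1 : ℝ, K1 = (2 * (e : ℝ) + 1) * C * 4 ^ (2 * e) := ⟨_, rfl⟩
  obtain ⟨K3, hK3⟩ : ∃ K3 : ℝ, K3 = Kc (2 * e) * (2 * (e : ℝ) + 1) ^ 3 := ⟨_, rfl⟩
  obtain ⟨K4, hK4⟩ : ∃ K4 : ℝ, K4 = 2 * C * (((e : ℝ) + 1) * 4 ^ e) ^ e := ⟨_, rfl⟩
  obtain ⟨K5, hK5⟩ : ∃ K5 : ℝ, K5 = 2 * C * (((e : ℝ) + 1) * 4 ^ e) := ⟨_, rfl⟩
  obtain ⟨K6, hK6⟩ : ∃ K6 : ℝ, K6 = 2 * ((k + 2 * e).factorial : ℝ) := ⟨_, rfl⟩
  obtain ⟨p, hpbig, hp⟩ := Nat.exists_infinite_primes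
    (p0 + N0 + ⌈C⌉₊ + ⌈K1⌉₊ + (⌈K3⌉₊ + 1) + ⌈K4⌉₊ + ⌈K5⌉₊ + ⌈K6⌉₊ + (4 * (k + 1) ^ 2 + 2) + M0 + k)
  have hceil : ∀ x : ℝ, (⌈x⌉₊ : ℕ) ≤ p → x ≤ p := fun x hx =>
    (Nat.le_ceil x).trans (by exact_mod_cast hx)
  have hpC : C ≤ p := hceil _ (by omega)
  have hpK1 : K1 ≤ p := hceil _ (by omega)
  have hpK3 : K3 < p := by
    have h1 : (⌈K3⌉₊ : ℝ) + 1 ≤ p := by exact_mod_cast (by omega : ⌈K3⌉₊ + 1 ≤ p)
    have := Nat.le_ceil K3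
    linarith
  have hpK4 : K4 ≤ p := hceil _ (by omega)
  have hpK5 : K5 ≤ p := hceil _ (by omega)
  have hpK6 : K6 ≤ p := hceil _ (by omega)
  have hpk : 4 * (k + 1) ^ 2 + 2 ≤ p := by omega
  have hpM0 : M0 ≤ p := by omega
  have hpkk : k ≤ p := by omega
  have hpp0 : p0 ≤ p := by omega
  have hpN0 : N0 ≤ p := by omega
  clear hpbig hceil
  have hp1 : (1 : ℝ) < p := by exact_mod_cast hp.one_lt
  obtain ⟨A, hA⟩ : ∃ A, A = 4 * (k + 2) ^ 2 + 1 := ⟨_, rfl⟩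
  have hcnt := hp0 p hp hpp0
  rw [← hA] at hcnt
  obtain ⟨N, hN⟩ : ∃ N, N = p ^ A := ⟨_, rfl⟩
  rw [← hN] at hcnt
  have hpNn : p ≤ N := by rw [hN]; exact Nat.le_self_pow (by omega) p
  have hpN : (p : ℝ) ≤ N := by exact_mod_cast hpNn
  have hN1 : (1 : ℝ) ≤ N := by linarith
  have hN0 : (0 : ℝ) < N := by linarith
  have hNnat : 1 ≤ N := by exact_mod_cast hN1
  obtain ⟨θ, θ', S, h1, h2, h3, h4, h5, h6, h7, h8, h9, h10, h11⟩ := hspec N (hpN0.trans hpNn)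
  obtain ⟨n, hn1, hn2, hlow, hshift⟩ := hcnt θ
  obtain ⟨α, hα⟩ : ∃ α : ℝ, α = θ + (n : ℝ) / (N : ℝ) := ⟨_, rfl⟩
  obtain ⟨α', hα'⟩ : ∃ α' : ℝ, α' = θ' + (n : ℝ) / (N : ℝ) := ⟨_, rfl⟩
  rw [← hα] at hn1 hn2 hlow hshift
  have hα0 : 0 ≤ α := ha.trans hn1
  have hα1 : α ≤ 1 := by linarith
  have hαabs : |α| ≤ 1 := by rw [abs_of_nonneg hα0]; exact hα1
  have hαα' : α - α' = θ - θ' := by rw [hα, hα']; ring
  have hα'lt : α' < α := by linarith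
  have hα'1 : -1 ≤ α' := by linarith
  have hα'abs : |α'| ≤ 1 := by rw [abs_le]; constructor <;> linarith
  -- size of n
  have hnabs : |(n : ℝ)| ≤ 3 * N := by
    have h12 : |(n : ℝ) / N| ≤ 3 := by
      have : (n : ℝ) / N = α - θ := by rw [hα]; ring
      rw [this, abs_le]; constructor <;> linarith
    rw [abs_div, abs_of_pos hN0, div_le_iff₀ hN0] at h12
    exact h12
  obtain ⟨T, hTirr, hTprim, hTdeg, hTα, hTα', hTβ, hBup⟩ := trans_poly e N n θ θ' C hNnat hC1 hnabs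
    S h5 h6 h7 h8 h3 h9 h10 (by rw [← hK1]; exact hpK1.trans hpN)
  rw [← hα] at hTα hTβ
  rw [← hα'] at hTα'
  -- closeness
  have hclose : (α - α') * (N : ℝ) ^ ((4 * e + 4) * j) ≤ 1 := by
    have e1 : e ^ 2 = (4 * e + 4) * j + 1 := by rw [he]; ring
    rw [← hαα', e1, pow_succ] at h4
    have h12 : (α - α') * (N : ℝ) ^ ((4 * e + 4) * j) * N ≤ 1 * N := by
      calc (α - α') * (N : ℝ) ^ ((4 * e + 4) * j) * N =
          (α - α') * ((N : ℝ) ^ ((4 * e + 4) * j) * N) := by ring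
        _ ≤ C := h4
        _ ≤ 1 * N := by linarith
    exact le_of_mul_le_mul_right h12 hN0
  have hNB : (N : ℝ) ≤ ht T := ht_lower e j N hj he1 hNnat α α' hαabs hα'abs hα'lt T hTirr hTdeg
    hTα hTα' hclose (by rw [← hK3]; linarith)
  obtain ⟨B, hB⟩ : ∃ B : ℝ, B = ht T := ⟨_, rfl⟩
  have hgood := stage_aux k j e V p A N n w a (1 / B ^ (320 * j + 81)) θ θ' α α' B C T he5 hV hp hA
    hN hpk hC1 (by rw [← hK5]; exact hpK5) (by rw [← hK4]; exact hpK4) (by rw [← hK6]; exact hpK6)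
    hα hα0 hα1 hnabs hTirr hTprim hTdeg hTα hB (by rw [hB]; exact hBup) (by rw [hB]; exact hNB) rfl
    h11 (fun P q1 q2 q3 q4 => hlow P q1 q2 q3 (by rw [hN]; exact q4)) hshift
  rw [← hB] at hNB
  have hB1 : 1 ≤ B := hN1.trans hNB
  have hB0 : 0 < B := by linarith
  refine ⟨1 / B ^ (320 * j + 81), α, α', T, by positivity, hn1, hn2, ?_, hTirr, hTprim,
    by rw [hTdeg, he]; ring, hTα, hTα', hα'lt, hα'1, ?_, hTβ, by rw [hB], ?_, hgood⟩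
  · rw [mul_one_div, div_le_one (by positivity)]
    calc (M0 : ℝ) ≤ p := by exact_mod_cast hpM0
      _ ≤ N := hpN
      _ ≤ B := hNB
      _ ≤ B ^ (320 * j + 81) := le_self_pow₀ hB1 (by omega)
  · refine le_trans ?_ hclose
    have h12 : (ht T : ℝ) ^ j ≤ (N : ℝ) ^ ((4 * e + 4) * j) := by
      rw [pow_mul]; gcongr
    have h13 : 0 ≤ α - α' := by linarith
    exact mul_le_mul_of_nonneg_left h12 h13
  · have h12 : (k : ℝ) ≤ B := by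
      calc (k : ℝ) ≤ p := by exact_mod_cast hpkk
        _ ≤ N := hpN
        _ ≤ B := hNB
    rw [hB] at h12
    exact_mod_cast h12

end Pool.Agent.TH870.W
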