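import Mathlib
import Pool.Agent.TH870.W.Stg
import Pool.Agent.Helper35.TDataB

set_option autoImplicit false

namespace Pool.Agent.TH870.W

open Polynomial Pool.Agent.Helper35

theorem construct (jj : ℕ → ℕ) (hjj : ∀ k, 1 ≤ jj k) :
    ∃ (ξ : ℝ) (w r α α' : ℕ → ℝ) (S : ℕ → ℤ[X]), 0 ≤ ξ ∧ ξ ≤ 1 ∧ (∀ k, 0 < w k) ∧ (∀ k, 0 < r k) ∧
      (∀ k, w (k + 1) = r k / 2) ∧ (∀ k, 2 * r k ≤ w k) ∧ (∀ k, α k + r k ≤ ξ) ∧
      (∀ k, ξ ≤ α k + 2 * r k) ∧
      (∀ k, SpecP k (jj k) (w k) (r k) (α k) (α' k) (S k)) := by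
  choose w0 hw0 hstep using fun k => stage k (jj k) (hjj k)
  obtain ⟨f, _, hf⟩ := dep_seq (σ := ℝ × ℝ × ℝ × ℝ × ℝ × ℤ[X])
    (fun k s => 0 ≤ s.1 ∧ s.1 + 2 * s.2.1 ≤ 1 ∧ 0 < s.2.1 ∧ s.2.1 ≤ w0 k)
    (fun k s s' => 0 < s'.2.2.1 ∧ s'.2.1 = s'.2.2.1 / 2 ∧ 2 * s'.2.2.1 ≤ s.2.1 ∧
      s'.1 = s'.2.2.2.1 + s'.2.2.1 ∧ s.1 ≤ s'.1 ∧ s'.1 + 2 * s'.2.1 ≤ s.1 + 2 * s.2.1 ∧
      SpecP k (jj k) s.2.1 s'.2.2.1 s'.2.2.2.1 s'.2.2.2.2.1 s'.2.2.2.2.2)
    (0, min (w0 0) (1 / 2), 1, 0, 0, 0) (by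
      refine ⟨le_rfl, ?_, lt_min (hw0 0) (by norm_num), min_le_left _ _⟩
      have := min_le_right (w0 0) (1 / 2)
      simp only
      linarith) (by
      rintro k ⟨a, w, q1, q2, q3, q4⟩ ⟨h1, h2, h3, h4⟩
      simp only at h1 h2 h3 h4
      obtain ⟨r, α, α', S, hr0, hα1, hα2, hrM, hspec⟩ := hstep k w h3 h4 a h1 (by linarith)
        (⌈2 / w⌉₊ + ⌈1 / w0 (k + 1)⌉₊)
      push_cast at hrM
      have hw0k := hw0 (k + 1)
      have hc1 := Nat.le_ceil (2 / w)
      have hc2 := Nat.le_ceil (1 / w0 (k + 1))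
      have hc3 : (0 : ℝ) ≤ (⌈2 / w⌉₊ : ℝ) := Nat.cast_nonneg _
      have hc4 : (0 : ℝ) ≤ (⌈1 / w0 (k + 1)⌉₊ : ℝ) := Nat.cast_nonneg _
      have hr1 : 2 * r ≤ w := by
        have h5 : (2 / w) * r ≤ 1 := by
          refine le_trans ?_ hrM
          gcongr
          linarith
        rw [div_mul_eq_mul_div, div_le_one h3] at h5
        exact h5
      have hr2 : r / 2 ≤ w0 (k + 1) := by
        have h5 : (1 / w0 (k + 1)) * r ≤ 1 := by
          refine le_trans ?_ hrM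
          gcongr
          linarith
        rw [div_mul_eq_mul_div, one_mul, div_le_one hw0k] at h5
        linarith
      refine ⟨(α + r, r / 2, r, α, α', S), ⟨?_, ?_, ?_, hr2⟩, hr0, rfl, hr1, rfl, ?_, ?_, hspec⟩
      · simp only; linarith
      · simp only; linarith
      · simp only; linarith
      · simp only; linarith
      · simp only; linarith)
  obtain ⟨ξ, hξ⟩ := nested (fun k => (f k).1) (fun k => (f k).2.1) (fun k => (hf k).1.2.2.1)
    (fun k => (hf k).2.2.2.2.2.1) (fun k => (hf k).2.2.2.2.2.2.1)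
  refine ⟨ξ, fun k => (f k).2.1, fun k => (f (k + 1)).2.2.1, fun k => (f (k + 1)).2.2.2.1,
    fun k => (f (k + 1)).2.2.2.2.1, fun k => (f (k + 1)).2.2.2.2.2, ?_, ?_,
    fun k => (hf k).1.2.2.1, fun k => (hf k).2.1, fun k => (hf k).2.2.1, fun k => (hf k).2.2.2.1,
    fun k => ?_, fun k => ?_, fun k => (hf k).2.2.2.2.2.2.2⟩
  · exact (hf 0).1.1.trans (hξ 0).1
  · exact (hξ 0).2.trans (hf 0).1.2.1
  · have h1 := (hξ (k + 1)).1
    rw [(hf k).2.2.2.2.1] at h1
    exact h1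
  · have h1 := (hξ (k + 1)).2
    rw [(hf k).2.2.2.2.1, (hf k).2.2.1] at h1
    linarith

/-- the index sequence takes every value `≥ 1` infinitely often -/
def jjf (k : ℕ) : ℕ := (Nat.unpair k).1 + 1

theorem jjf_inf (j K : ℕ) (hj : 1 ≤ j) : ∃ k, K ≤ k ∧ jjf k = j := by
  refine ⟨Nat.pair (j - 1) K, Nat.right_le_pair _ K, ?_⟩
  simp [jjf]
  omega

/-- The Koksma set, as in the frozen statement. -/
def KSet (ξ : ℝ) (n : ℕ) : Set ℝ :=
  {w : ℝ | Set.Infinite {α : ℝ | ∃ P : Polynomial ℤ,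
              Irreducible P ∧ P.natDegree ≤ n ∧ Polynomial.aeval α P = 0 ∧
              0 < |ξ - α| ∧
              |ξ - α| ≤ (ht P : ℝ) ^ (-w - 1)}}

/-- The Mahler set. -/
def MSet (ξ : ℝ) (n : ℕ) : Set ℝ :=
  {w : ℝ | Set.Infinite {P : Polynomial ℤ |
              P.natDegree ≤ n ∧ 0 < |Polynomial.aeval ξ P| ∧
              |Polynomial.aeval ξ P| ≤ (ht P : ℝ) ^ (-w)}}

theorem exists_xi : ∃ ξ : ℝ, (∀ n, 1 ≤ n → ∀ w ∈ KSet ξ n, w ≤ 40 * ((n : ℝ) + 1)) ∧
    (∀ j : ℕ, 1 ≤ j → (40 * (8 * (j : ℝ) + 2) + j - 1) ∈ MSet ξ (8 * j + 2)) := by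
  obtain ⟨ξ, w, r, α, α', S, hξ0, hξ1, hw, hr, hwr, hrw, hlo, hhi, hspec⟩ :=
    construct jjf (fun k => by unfold jjf; omega)
  have hrk6 : ∀ k, 2 ≤ k → r k < 1 / 6 := by
    intro k hk
    obtain ⟨_, _, _, _, _, _, _, _, _, h10, h11, _⟩ := hspec k
    rw [h10, one_div_lt_one_div (by
      have : (2 : ℝ) ≤ ht (S k) := by exact_mod_cast hk.trans h11
      positivity) (by norm_num)]
    have h2 : (2 : ℝ) ≤ ht (S k) := by exact_mod_cast hk.trans h11
    calc (6 : ℝ) < 2 ^ 3 := by norm_num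
      _ ≤ (ht (S k) : ℝ) ^ 3 := by gcongr
      _ ≤ (ht (S k) : ℝ) ^ (320 * jjf k + 81) := pow_le_pow_right₀ (by linarith) (by omega)
  refine ⟨ξ, ?_, ?_⟩
  · -- upper bound for the Koksma exponent
    intro n hn v hv
    by_contra hcon
    push Not at hcon
    have hv0 : 0 ≤ v := by
      have : (0 : ℝ) ≤ 40 * ((n : ℝ) + 1) := by positivity
      linarith
    have hH0 : ∀ m : ℕ, ∃ H0 : ℕ, m ≤ n → ∀ P : ℤ[X], IrrQ P → P.natDegree = m → H0 ≤ ht P →
      (∃ (k : ℕ) (g : ℤ), n + 2 ≤ k ∧ g ≠ 0 ∧ P = C g * S k) ∨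
      1 ≤ |aeval ξ P| * (ht P : ℝ) ^ (40 * (m + 1)) := by
      intro m
      by_cases hm : m ≤ n
      · obtain ⟨H0, h⟩ := irr_main hξ1 hw hr hwr hrw hlo hhi
          (fun k => (hspec k).2.2.2.2.2.2.2.2.2.2.2) m (n + 2) (by omega)
        exact ⟨H0, fun _ => h⟩
      · exact ⟨0, fun h => absurd h hm⟩
    choose H0 hH0' using hH0
    obtain ⟨K, hK⟩ : ∃ K : ℝ, K = (((n : ℝ) + 1) ^ 2 * 2 ^ n) := ⟨_, rfl⟩
    have hK0 : 0 < K := by rw [hK]; positivity
    have hlim : Filter.Tendsto (fun H : ℕ => (H : ℝ) ^ (v - 40 * ((n : ℝ) + 1))) Filter.atTop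
        Filter.atTop := (tendsto_rpow_atTop (by linarith)).comp tendsto_natCast_atTop_atTop
    obtain ⟨H1, hH1⟩ := Filter.eventually_atTop.mp (hlim.eventually_gt_atTop K)
    obtain ⟨β, _, P, hP0, hPβ, hPd, ⟨hPirr, hpos, hle⟩, hPH⟩ := exists_ht_gt_alg (n := n) hv
      (fun P α => Irreducible P ∧ 0 < |ξ - α| ∧ |ξ - α| ≤ (ht P : ℝ) ^ (-v - 1))
      (fun α hα => by
        obtain ⟨P, h1, h2, h3, h4, h5⟩ := hα
        exact ⟨P, h1.ne_zero, h3, h2, h1, h4, h5⟩)
      (H1 + ∑ m ∈ Finset.range (n + 1), H0 m + 1)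
    have hPd0 : P.natDegree ≠ 0 := by
      intro h0
      rw [eq_C_of_natDegree_eq_zero h0, aeval_C] at hPβ
      apply hP0
      rw [eq_C_of_natDegree_eq_zero h0]
      have : P.coeff 0 = 0 := by simpa using hPβ
      rw [this, C_0]
    have hPprim : P.IsPrimitive := hPirr.isPrimitive hPd0
    have hPQ : IrrQ P := (IsPrimitive.Int.irreducible_iff_irreducible_map_cast hPprim).mp hPirr
    have hH0P : H0 P.natDegree ≤ ht P := by
      have := Finset.single_le_sum (f := H0) (fun i _ => Nat.zero_le _)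
        (Finset.mem_range.mpr (by omega : P.natDegree < n + 1))
      omega
    have hht1 : (1 : ℝ) ≤ ht P := by exact_mod_cast ht_pos hP0
    have hht0 : (0 : ℝ) < ht P := by linarith
    rcases hH0' P.natDegree hPd P hPQ rfl hH0P with ⟨k, g, hk, hg, hPg⟩ | h
    · -- special
      obtain ⟨h1, h2, h3, h4, h5, h6, h7, h8, h9, h10, h11, _⟩ := hspec k
      have hrk := hr k
      have hlok := hlo k
      have hhik := hhi k
      have hr6 := hrk6 k (by omega)
      have hSβ : aeval β (S k) = 0 := by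
        rw [hPg, map_mul, aeval_C] at hPβ
        rcases mul_eq_zero.mp hPβ with h | h
        · exfalso
          apply hg
          simpa using h
        · exact h
      have hdist : r k ≤ |ξ - β| := by
        rcases h9 β hSβ with h | h
        · rw [abs_of_pos (by linarith)]; linarith
        · rw [abs_of_neg (by linarith)]; linarith
      obtain ⟨B, hB⟩ : ∃ B : ℝ, B = ht (S k) := ⟨_, rfl⟩
      have hB2 : 2 ≤ B := by rw [hB]; exact_mod_cast (by omega : 2 ≤ ht (S k))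
      have hBP : B ≤ ht P := by
        rw [hB, hPg, ht_intCast_mul]
        have : 1 ≤ g.natAbs := Int.natAbs_pos.mpr hg
        have h12 : ht (S k) ≤ g.natAbs * ht (S k) := Nat.le_mul_of_pos_left _ this
        exact_mod_cast h12
      have hdeg : 8 * jjf k + 2 ≤ n := by
        have : P.natDegree = 8 * jjf k + 2 := by rw [hPg, natDegree_C_mul hg, h3]
        omega
      have h12 : r k ≤ B ^ (-v - 1) := by
        refine hdist.trans (hle.trans ?_)
        exact Real.rpow_le_rpow_of_nonpos (by linarith) hBP (by linarith)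
      rw [h10, ← hB] at h12
      have h13 : 1 / B ^ (320 * jjf k + 81) = B ^ (-((320 * jjf k + 81 : ℕ) : ℝ)) := by
        rw [Real.rpow_neg (by linarith), Real.rpow_natCast, one_div]
      rw [h13] at h12
      have h14 := (Real.rpow_le_rpow_left_iff (by linarith : (1 : ℝ) < B)).mp h12
      push_cast at h14
      have h15 : (8 * (jjf k : ℝ) + 2) ≤ n := by exact_mod_cast hdeg
      linarith
    · -- non special
      have hξa : |ξ| ≤ 1 := by rw [abs_of_nonneg hξ0]; exact hξ1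
      have hdist : |ξ - β| ≤ 1 := by
        refine hle.trans ?_
        exact Real.rpow_le_one_of_one_le_of_nonpos hht1 (by linarith)
      have hβ2 : |β| ≤ 2 := by
        have : |β| ≤ |ξ| + |ξ - β| := by
          have := abs_sub_abs_le_abs_sub β ξ
          rw [abs_sub_comm β ξ] at this
          linarith
        linarith
      have h3 : |aeval ξ P| ≤ K * ht P * |ξ - β| := by
        have := abs_aeval_sub_le2 P ξ β hξa hβ2 n hPd
        rw [hPβ, sub_zero, ← hK] at this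
        exact this
      have h4 : (ht P : ℝ) ^ (40 * (P.natDegree + 1)) ≤ (ht P : ℝ) ^ (40 * (n + 1)) :=
        pow_le_pow_right₀ hht1 (by omega)
      have h5 : 1 ≤ (K * ht P * (ht P : ℝ) ^ (-v - 1)) * (ht P : ℝ) ^ (40 * (n + 1)) := by
        refine h.trans ?_
        gcongr
        exact h3.trans (by gcongr)
      have h6 : (K * ht P * (ht P : ℝ) ^ (-v - 1)) * (ht P : ℝ) ^ (40 * (n + 1)) =
          K * ((ht P : ℝ) ^ (v - 40 * ((n : ℝ) + 1)))⁻¹ := by
        have e1 : (ht P : ℝ) * (ht P : ℝ) ^ (-v - 1) = (ht P : ℝ) ^ (-v) := by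
          have : (ht P : ℝ) * (ht P : ℝ) ^ (-v - 1) =
              (ht P : ℝ) ^ (1 : ℝ) * (ht P : ℝ) ^ (-v - 1) := by rw [Real.rpow_one]
          rw [this, ← Real.rpow_add hht0]; congr 1; ring
        rw [mul_assoc K, e1, mul_assoc, ← Real.rpow_natCast (ht P : ℝ), ← Real.rpow_add hht0,
          ← Real.rpow_neg hht0.le]
        congr 2
        push_cast
        ring
      rw [h6] at h5
      have h7 := hH1 (ht P) (by omega)
      have h8 : 0 < (ht P : ℝ) ^ (v - 40 * ((n : ℝ) + 1)) := by positivity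
      rw [← div_eq_mul_inv, le_div_iff₀ h8] at h5
      linarith
  · -- lower bound for the Mahler exponent
    intro j hj
    unfold MSet
    intro hfin
    obtain ⟨B0, hB0⟩ : ∃ B0 : ℕ, ∀ P ∈ {P : Polynomial ℤ |
              P.natDegree ≤ 8 * j + 2 ∧ 0 < |Polynomial.aeval ξ P| ∧
              |Polynomial.aeval ξ P| ≤ (ht P : ℝ) ^ (-(40 * (8 * (j : ℝ) + 2) + j - 1))}, ht P ≤ B0 := by
      have := hfin.image ht
      obtain ⟨B, hB⟩ := this.bddAbove
      exact ⟨B, fun P hP => hB ⟨P, hP, rfl⟩⟩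
    obtain ⟨c, hc⟩ : ∃ c : ℕ, c = 6 * (8 * j + 2 + 1) ^ 3 := ⟨_, rfl⟩
    obtain ⟨k, hkK, hjk⟩ := jjf_inf j (B0 + c + 2) hj
    obtain ⟨h1, h2, h3, h4, h5, h6, h7, h8, h9, h10, h11, _⟩ := hspec k
    rw [hjk] at h3 h8 h10
    have hrk := hr k
    have hlok := hlo k
    have hhik := hhi k
    have hr6 := hrk6 k (by omega)
    obtain ⟨B, hB⟩ : ∃ B : ℝ, B = ht (S k) := ⟨_, rfl⟩
    have hBk : ((B0 + c + 2 : ℕ) : ℝ) ≤ B := by
      rw [hB]; exact_mod_cast hkK.trans h11
    push_cast at hBk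
    have hB00 : (0 : ℝ) ≤ B0 := Nat.cast_nonneg _
    have hc0 : (0 : ℝ) ≤ c := Nat.cast_nonneg _
    have hB1 : 1 ≤ B := by linarith
    have hBpos : 0 < B := by linarith
    have hcB : (c : ℝ) ≤ B := by linarith
    rw [← hB] at h8 h10
    have hξa : |ξ| ≤ 1 := by rw [abs_of_nonneg hξ0]; exact hξ1
    have hmem : S k ∈ {P : Polynomial ℤ |
              P.natDegree ≤ 8 * j + 2 ∧ 0 < |Polynomial.aeval ξ P| ∧
              |Polynomial.aeval ξ P| ≤ (ht P : ℝ) ^ (-(40 * (8 * (j : ℝ) + 2) + j - 1))} := by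
      refine ⟨h3.le, ?_, ?_⟩
      · apply abs_pos.mpr
        intro h0
        rcases h9 ξ h0 with h | h
        · linarith
        · linarith
      · have hαabs : |α k| ≤ 1 := by
          rw [abs_le]; constructor <;> linarith
        have hα'abs : |α' k| ≤ 1 := by
          rw [abs_le]; constructor <;> linarith
        obtain ⟨h12, _⟩ := two_roots (S k) (8 * j + 2) h3.le (α k) (α' k) hαabs hα'abs (by linarith)
          h4 h5
        have h13 := h12 ξ hξa
        rw [← hB] at h13 ⊢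
        have h14 : |ξ - α k| ≤ 2 * r k := by
          rw [abs_of_nonneg (by linarith)]; linarith
        have hBj : 0 < B ^ j := by positivity
        have h15 : α k - α' k ≤ 1 / B ^ j := by
          rw [le_div_iff₀ hBj]; exact h8
        have h16 : r k ≤ 1 / B ^ j := by
          rw [h10]
          apply one_div_le_one_div_of_le hBj
          exact pow_le_pow_right₀ hB1 (by omega)
        have h17 : |ξ - α' k| ≤ 3 * (1 / B ^ j) := by
          rw [abs_of_nonneg (by linarith)]; linarith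
        have h18 : |aeval ξ (S k)| ≤ (2 * r k) * (3 * (1 / B ^ j)) *
            ((((8 * j + 2 : ℕ) : ℝ) + 1) ^ 3 * B) := by
          refine h13.trans ?_
          gcongr
        have h19 : (2 * r k) * (3 * (1 / B ^ j)) * ((((8 * j + 2 : ℕ) : ℝ) + 1) ^ 3 * B) =
            (c : ℝ) * (1 / (B ^ (320 * j + 80) * B ^ j)) := by
          rw [h10, hc, pow_succ B (320 * j + 80)]
          push_cast
          field_simp
          ring
        rw [h19] at h18
        have h20 : (c : ℝ) * (1 / (B ^ (320 * j + 80) * B ^ j)) ≤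
            B * (1 / (B ^ (320 * j + 80) * B ^ j)) := by gcongr
        refine h18.trans (h20.trans (le_of_eq ?_))
        have h21 : B ^ (320 * j + 80) * B ^ j = B ^ (321 * j + 80) := by
          rw [← pow_add]; congr 1; ring
        rw [h21]
        have h22 : B * (1 / B ^ (321 * j + 80)) = B ^ ((1 : ℝ) + -((321 * j + 80 : ℕ) : ℝ)) := by
          rw [Real.rpow_add hBpos, Real.rpow_one, Real.rpow_neg hBpos.le, Real.rpow_natCast, one_div]
        rw [h22]
        congr 1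
        push_cast
        ring
    have := hB0 _ hmem
    omega

end Pool.Agent.TH870.W
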